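import Mathlib
import Pool.Agent.P.MP_8707bd_ag.Defs

/-!
Definitions for the exponentially sharp Nagata bound (helper file only).
-/

namespace Pool.Agent.P.MP_8707bd_ag.Nag

/-- All difference quotients of `f` on `[u, v]` lie in `[lo, hi]`. -/
def Slope (f : ℝ → ℝ) (u v lo hi : ℝ) : Prop :=
  ∀ s t, u ≤ s → s ≤ t → t ≤ v → lo * (t - s) ≤ f t - f s ∧ f t - f s ≤ hi * (t - s)

/-- For the price `ψ` on the block `[u, v]`, the position `y` has coverage `c`: the positions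
cheaper than `y` form an interval of length `1 - c` (only a lower bound if `c = 0`). -/
def Chord (ψ : ℝ → ℝ) (u v y c : ℝ) : Prop :=
  0 ≤ c ∧ ∃ α β, u ≤ α ∧ β ≤ v ∧ β - α = 1 - c ∧ (∀ t, α < t → t < β → ψ t < ψ y) ∧
    (c = 0 ∨ ∀ t, u ≤ t → t ≤ v → (t < α ∨ β < t) → ψ y < ψ t)

/-- The position of the row `j`. -/
noncomputable def pos (m : ℕ) (p : ℝ) (j : ℕ) : ℝ := (j : ℝ) / m - p

/-- The rank of the row `j` among the rows of the block `[u, v]`. -/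
noncomputable def rkB (m J : ℕ) (p u v : ℝ) (π : ℕ → ℝ) (h : ℝ) (j : ℕ) : ℕ :=
  ((Finset.range (J + 1)).filter fun j' : ℕ => j' ≠ j ∧ u ≤ pos m p j' ∧ pos m p j' ≤ v ∧
    h * j' + π j' ≤ h * j + π j).card

/-- Prices and `n` speeds whose total coverage on the block `[u, v]` is `h` up to the error `e`,
and is zero beyond `w`. -/
def CovTop (p u v : ℝ) (n : ℕ) (h : ℝ → ℝ) (e w : ℝ) : Prop :=
  ∀ m J : ℕ, 1 ≤ m → (v + p) * m ≤ J → ∃ (π : ℕ → ℝ) (S : Fin n → ℝ),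
    (∀ j ≤ J, ∀ j' ≤ J, π j = π j' → j = j') ∧
    (∀ i, ∀ j ≤ J, ∀ j' ≤ J, S i * j + π j = S i * j' + π j' → j = j') ∧
    (∀ j ≤ J, u ≤ pos m p j → pos m p j ≤ v →
      |(∑ i, ((m - rkB m J p u v π (S i) j : ℕ) : ℝ)) - m * h (pos m p j)| ≤ n + m * e) ∧
    ∀ j ≤ J, w < pos m p j → pos m p j ≤ v → ∀ i, m ≤ rkB m J p u v π (S i) j

/-- Prices and `n` speeds whose total coverage on the block `[u, v]` is `h` up to `e`. -/
def Cov (p u v : ℝ) (n : ℕ) (h : ℝ → ℝ) (e : ℝ) : Prop := CovTop p u v n h e v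

end Pool.Agent.P.MP_8707bd_ag.Nag
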