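import Mathlib
import Pool.Agent.P.MP_8707bd_ag.Nag.Defs
import Pool.Agent.P.MP_8707bd_ag.Main

/-!
From a covering of the rows to the statement on fat points (independent of `whole`).
-/

namespace Pool.Agent.P.MP_8707bd_ag.Nag

open MvPolynomial Finset

/-- The conclusion for given `r`, `m`, `d`. -/
def Body (r m d : ℕ) : Prop :=
  ∃ Φ : MvPolynomial (Fin r × Fin 3) ℂ, Φ ≠ 0 ∧ ∀ p : Fin r → Fin 3 → ℂ,
    MvPolynomial.eval (fun ij : Fin r × Fin 3 => p ij.1 ij.2) Φ ≠ 0 →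
    Module.finrank ℂ (fat p (fun _ => m) d) = (d + 2).choose 2 - r * (m + 1).choose 2 ∧
    ∀ (F : MvPolynomial (Fin 3) ℂ) (e : ℕ) (n : Fin r → ℕ), F ≠ 0 → F.IsHomogeneous e →
      (∀ i, F ∉ ptIdeal (p i) ^ (n i + 1)) → ∑ i, n i + 1 = 3 * e →
      (∀ G ∈ fat p (fun _ => m) d, F ^ 2 ∣ G) → fat p (fun _ => m) d = ⊥

theorem body_of_tiling (r m D δ J : ℕ) (π : ℕ → ℝ) (h : Fin r → ℝ) (hδ : 4 ≤ δ)
    (hJ : D < (J + 1) * δ)
    (hT : ∑ j ∈ range (J + 1), (rowLen D δ j - ∑ i, (m - rk J π (h i) j)) ≤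
      (D + 2).choose 2 - r * (m + 1).choose 2) : Body r m D := by
  have hG := fun x : Fin (D + 1) × (Fin r → Fin (m + 1)) =>
    generic_bound r x.1 δ J (by omega) (by have := x.1.2; omega) (fun i => x.2 i) π h
  choose Φ hΦ0 hΦ using hG
  refine ⟨(∏ i, X (i, 2)) * ∏ x, Φ x, mul_ne_zero (prod_ne_zero_iff.2 fun i _ => X_ne_zero _)
    (prod_ne_zero_iff.2 fun x _ => hΦ0 x), fun p hp => ?_⟩
  simp only [map_mul, map_prod, eval_X, mul_ne_zero_iff, prod_ne_zero_iff, mem_univ,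
    forall_const] at hp
  obtain ⟨hp2, hpΦ⟩ := hp
  have B : ∀ d' ≤ D, ∀ μ : Fin r → ℕ, (∀ i, μ i ≤ m) → Module.finrank ℂ (fat p μ d') ≤
      ∑ j ∈ range (J + 1), (rowLen d' δ j - ∑ i, (μ i - rk J π (h i) j)) :=
    fun d' hd' μ hμ => hΦ (⟨d', by omega⟩, fun i => ⟨μ i, by have := hμ i; omega⟩) p (hpΦ _)
  have BD := (B D le_rfl (fun _ => m) fun _ => le_rfl).trans hT
  have L := lower_bound p hp2 m D
  refine ⟨le_antisymm BD L, fun F e n hF0 hF hn hs hall => ?_⟩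
  by_contra hne
  have hquot : ∀ G ∈ fat p (fun _ => m) D, ∃ H, G = F * (F * H) ∧
      H ∈ fat p (fun i => m - n i - n i) (D - 2 * e) ∧ (G ≠ 0 → 2 * e ≤ D) := by
    intro G hG
    obtain ⟨H, rfl⟩ := hall G hG
    rw [mem_fat] at hG
    have q := hom_of_mul (hF.pow 2) (pow_ne_zero 2 hF0) hG.1
    refine ⟨H, by ring, mem_fat.2 ⟨by rw [mul_comm 2 e]; exact q.1, fun i => ?_⟩, fun h0 => ?_⟩
    · refine mem_pow_of_mul _ (hp2 i) F _ _ _ (hn i) (mem_pow_of_mul _ (hp2 i) F _ _ _ (hn i) ?_)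
      rw [← mul_assoc, ← pow_two]
      exact hG.2 i
    · rw [mul_comm 2 e]; exact q.2 (right_ne_zero_of_mul h0)
  have he : 2 * e ≤ D := by
    obtain ⟨G, hG, hG0⟩ := Submodule.exists_mem_ne_zero_of_ne_bot hne
    obtain ⟨H, -, -, q⟩ := hquot G hG
    exact q hG0
  have hle : Module.finrank ℂ (fat p (fun _ => m) D) ≤
      Module.finrank ℂ (fat p (fun i => m - n i - n i) (D - 2 * e)) := by
    refine le_trans (Submodule.finrank_mono ?_)
      (Submodule.finrank_map_le (LinearMap.mulLeft ℂ (F * F)) _)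
    intro G hG
    obtain ⟨H, q1, q2, -⟩ := hquot G hG
    exact ⟨H, q2, by rw [q1, LinearMap.mulLeft_apply, mul_assoc]⟩
  have hpos : 0 < Module.finrank ℂ (fat p (fun _ => m) D) := by
    rw [Nat.pos_iff_ne_zero, Ne, Submodule.finrank_eq_zero]
    exact hne
  have B' := B (D - 2 * e) (by omega) (fun i => m - n i - n i) fun i => by omega
  have drop := fun j => bound_drop D δ m e hδ he n (fun i => rk J π (h i) j) hs j
  have hlt : ∑ j ∈ range (J + 1), (rowLen (D - 2 * e) δ j -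
      ∑ i, (m - n i - n i - rk J π (h i) j)) <
      ∑ j ∈ range (J + 1), (rowLen D δ j - ∑ i, (m - rk J π (h i) j)) := by
    obtain ⟨j, hj, hj0⟩ := exists_ne_zero_of_sum_ne_zero (by omega :
      ∑ j ∈ range (J + 1), (rowLen (D - 2 * e) δ j -
        ∑ i, (m - n i - n i - rk J π (h i) j)) ≠ 0)
    exact sum_lt_sum (fun j _ => by have := drop j; omega) ⟨j, hj, (drop j).resolve_left hj0⟩
  omega

theorem body_of_empty (r m d t δ J : ℕ) (π : ℕ → ℝ) (h : Fin r → ℝ) (ht : 1 ≤ t) (hδ : 0 < δ)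
    (hJ : t * d < (J + 1) * δ)
    (hT : ∀ j ≤ J, rowLen (t * d) δ j ≤ ∑ i, (t * m - rk J π (h i) j)) : Body r m d := by
  obtain ⟨Φ, hΦ0, hΦ⟩ := generic_bound r (t * d) δ J hδ hJ (fun _ => t * m) π h
  refine ⟨(∏ i, X (i, 2)) * Φ, mul_ne_zero (prod_ne_zero_iff.2 fun i _ => X_ne_zero _) hΦ0,
    fun p hp => ?_⟩
  simp only [map_mul, map_prod, eval_X, mul_ne_zero_iff, prod_ne_zero_iff, mem_univ,
    forall_const] at hp
  obtain ⟨hp2, hpΦ⟩ := hp
  have B := hΦ p hpΦ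
  rw [sum_eq_zero fun j hj => Nat.sub_eq_zero_of_le (hT j (by simpa [Nat.lt_succ_iff] using hj))]
    at B
  have hbot : fat p (fun _ => t * m) (t * d) = ⊥ := by
    rw [← Submodule.finrank_eq_zero]
    omega
  have hbot' : fat p (fun _ => m) d = ⊥ := by
    rw [eq_bot_iff]
    intro G hG
    rw [mem_fat] at hG
    have : G ^ t ∈ fat p (fun _ => t * m) (t * d) := by
      refine mem_fat.2 ⟨by rw [mul_comm]; exact hG.1.pow t, fun i => ?_⟩
      rw [mul_comm, pow_mul]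
      exact Ideal.pow_mem_pow (hG.2 i) t
    rw [hbot, Submodule.mem_bot] at this
    exact (pow_eq_zero_iff (by omega)).1 this
  refine ⟨?_, fun _ _ _ _ _ _ _ _ => hbot'⟩
  have L := lower_bound p hp2 m d
  rw [hbot', finrank_bot] at L ⊢
  omega

theorem rk_lt {J : ℕ} {π : ℕ → ℝ} {h : ℝ} {j j' : ℕ} (hj : j ≤ J)
    (hlt : h * j + π j < h * j' + π j') : rk J π h j < rk J π h j' := by
  unfold rk
  refine card_lt_card ⟨fun k hk => ?_, fun hc => ?_⟩
  · simp only [mem_filter] at hk ⊢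
    refine ⟨hk.1, ?_, hk.2.2.trans hlt.le⟩
    rintro rfl
    exact absurd hk.2.2 (not_le.2 hlt)
  · have : j ∈ (range (J + 1)).filter fun k : ℕ => k ≠ j' ∧ h * k + π k ≤ h * j' + π j' := by
      simp only [mem_filter, mem_range]
      refine ⟨by omega, ?_, hlt.le⟩
      rintro rfl
      exact lt_irrefl _ hlt
    have := hc this
    simp at this

theorem rk_le {J : ℕ} {π : ℕ → ℝ} {h : ℝ} {j : ℕ} (hj : j ≤ J) : rk J π h j ≤ J := by
  unfold rk
  have : ((range (J + 1)).filter fun j' : ℕ => j' ≠ j ∧ h * j' + π j' ≤ h * j + π j) ⊆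
      (range (J + 1)).erase j := by
    intro k hk
    simp only [mem_filter] at hk
    exact mem_erase.2 ⟨hk.2.1, hk.1⟩
  have h2 := card_le_card this
  rwa [card_erase_of_mem (mem_range.2 (by omega)), card_range] at h2

theorem sum_rk {J m : ℕ} {π : ℕ → ℝ} {h : ℝ} (hm : m ≤ J)
    (hinj : ∀ j ≤ J, ∀ j' ≤ J, h * j + π j = h * j' + π j' → j = j') :
    ∑ j ∈ range (J + 1), (m - rk J π h j) = (m + 1).choose 2 := by
  have hi : Set.InjOn (rk J π h) (range (J + 1) : Finset ℕ) := by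
    intro j hj j' hj' he
    simp only [coe_range, Set.mem_Iio] at hj hj'
    rcases lt_trichotomy (h * j + π j) (h * j' + π j') with q | q | q
    · exact absurd he (rk_lt (by omega) q).ne
    · exact hinj j (by omega) j' (by omega) q
    · exact absurd he (rk_lt (by omega) q).ne'
  have him : (range (J + 1)).image (rk J π h) = range (J + 1) := by
    refine eq_of_subset_of_card_le (fun k hk => ?_) (by rw [card_image_of_injOn hi])
    obtain ⟨j, hj, rfl⟩ := mem_image.1 hk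
    rw [mem_range] at hj ⊢
    have := rk_le (π := π) (h := h) (show j ≤ J by omega)
    omega
  rw [← tri_sum m (J + 1) (by omega)]
  conv_rhs => rw [← him, sum_image hi]

theorem body_of_cover (r m d δ J : ℕ) (π : ℕ → ℝ) (h : Fin r → ℝ) (hδ : 4 ≤ δ)
    (hJ : d < (J + 1) * δ) (hm : m ≤ J)
    (hinj : ∀ i, ∀ j ≤ J, ∀ j' ≤ J, h i * j + π j = h i * j' + π j' → j = j')
    (hT : ∀ j ≤ J, ∑ i, (m - rk J π (h i) j) ≤ rowLen d δ j) : Body r m d := by
  refine body_of_tiling r m d δ J π h hδ hJ ?_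
  have e1 : ∑ j ∈ range (J + 1), (rowLen d δ j - ∑ i, (m - rk J π (h i) j)) +
      ∑ j ∈ range (J + 1), ∑ i, (m - rk J π (h i) j) = (d + 2).choose 2 := by
    rw [← sum_add_distrib, ← sum_rowLen d δ J hJ]
    refine sum_congr rfl fun j hj => ?_
    have := hT j (by simpa [Nat.lt_succ_iff] using hj)
    omega
  have e2 : ∑ j ∈ range (J + 1), ∑ i, (m - rk J π (h i) j) = r * (m + 1).choose 2 := by
    rw [sum_comm, sum_congr rfl fun i _ => sum_rk hm (hinj i)]
    simp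
  omega

theorem rowLen_le (d δ j : ℕ) : rowLen d δ j = 0 ∨
    (rowLen d δ j : ℝ) ≤ δ * (d + 1) - (δ : ℝ) ^ 2 * j := by
  by_cases h : d + 1 ≤ j * δ
  · exact Or.inl (sum_eq_zero fun b _ => by omega)
  · right
    have h1 : rowLen d δ j ≤ δ * (d + 1 - j * δ) := by
      unfold rowLen
      refine (sum_le_card_nsmul _ _ (d + 1 - j * δ) fun b _ => by omega).trans ?_
      simp
    have h2 : ((d + 1 - j * δ : ℕ) : ℝ) = d + 1 - j * δ := by
      rw [Nat.cast_sub (by omega)]; push_cast; ring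
    have h3 : (rowLen d δ j : ℝ) ≤ δ * ((d + 1 - j * δ : ℕ) : ℝ) := by exact_mod_cast h1
    rw [h2] at h3
    nlinarith

theorem le_rowLen (d δ j : ℕ) :
    δ * (d + 1) - (δ : ℝ) ^ 2 * j - (δ : ℝ) ^ 2 / 2 ≤ (rowLen d δ j : ℝ) := by
  have key : ∀ (n : ℕ) (c : ℝ), n * c - (n : ℝ) ^ 2 / 2 ≤ ∑ b ∈ range n, (c - b) := by
    intro n c
    induction n with
    | zero => simp
    | succ k ih => rw [sum_range_succ]; push_cast; nlinarith
  have h1 := key δ (d + 1 - j * δ)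
  have h2 : ∑ b ∈ range δ, ((d : ℝ) + 1 - j * δ - b) ≤ (rowLen d δ j : ℝ) := by
    unfold rowLen
    push_cast
    refine sum_le_sum fun b _ => ?_
    have : d + 1 ≤ (d + 1 - j * δ - b) + j * δ + b := by omega
    have : (d : ℝ) + 1 ≤ ((d + 1 - j * δ - b : ℕ) : ℝ) + j * δ + b := by exact_mod_cast this
    linarith
  nlinarith

/-- Reading off a covering of all rows `0, …, J`. -/
theorem rows_of_cov {p s e : ℝ} {r δ m J : ℕ} (hm : 1 ≤ m) (hs : s = δ * (1 + p)) (hδ : 0 < δ)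
    (H : CovTop p (-p) (J / m - p) r (fun t => (δ : ℝ) ^ 2 * max (1 - t) 0) e 1) :
    ∃ (π : ℕ → ℝ) (h : Fin r → ℝ),
      (∀ i, ∀ j ≤ J, ∀ j' ≤ J, h i * j + π j = h i * j' + π j' → j = j') ∧
      (∀ j ≤ J, |((∑ i, (m - rk J π (h i) j) : ℕ) : ℝ) - max (m * δ * s - (δ : ℝ) ^ 2 * j) 0| ≤
        r + m * e) ∧
      ∀ j ≤ J, m * s < δ * j → ∑ i, (m - rk J π (h i) j) = 0 := by
  have hm0 : (0 : ℝ) < m := by exact_mod_cast hm
  have hδ0 : (0 : ℝ) < δ := by exact_mod_cast hδ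
  obtain ⟨π, S, -, h2, h3, h4⟩ := H m J hm (by rw [sub_add_cancel, div_mul_cancel₀ _ hm0.ne'])
  have hlo : ∀ j : ℕ, -p ≤ pos m p j := fun j => by
    unfold pos
    have : 0 ≤ (j : ℝ) / m := by positivity
    linarith
  have hhi : ∀ j ≤ J, pos m p j ≤ J / m - p := fun j hj => by
    unfold pos
    have : (j : ℝ) ≤ J := by exact_mod_cast hj
    gcongr
  have hrk : ∀ h j, rkB m J p (-p) (J / m - p) π h j = rk J π h j := fun h j => by
    unfold rkB rk
    congr 1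
    refine filter_congr fun k hk => ?_
    have := hhi k (by simpa [Nat.lt_succ_iff] using hk)
    have := hlo k
    tauto
  refine ⟨π, S, h2, fun j hj => ?_, fun j hj hlt => ?_⟩
  · have := h3 j hj (hlo j) (hhi j hj)
    simp only [hrk] at this
    have e1 : (m : ℝ) * ((δ : ℝ) ^ 2 * max (1 - pos m p j) 0) =
        max (m * δ * s - (δ : ℝ) ^ 2 * j) 0 := by
      rw [← mul_assoc, mul_max_of_nonneg _ _ (by positivity), mul_zero, hs]
      congr 1
      unfold pos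
      field_simp
      ring
    rw [e1] at this
    rw [Nat.cast_sum]
    exact this
  · refine sum_eq_zero fun i _ => Nat.sub_eq_zero_of_le ?_
    rw [← hrk]
    refine h4 j hj ?_ (hhi j hj) i
    unfold pos
    rw [lt_sub_iff_add_lt, lt_div_iff₀ hm0]
    rw [hs] at hlt
    nlinarith

end Pool.Agent.P.MP_8707bd_ag.Nag
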