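import Mathlib
import Pool.Agent.P.MP_8707bd_ag.Nag.Defs

namespace Pool.Agent.P.MP_8707bd_ag.Nag

open Set

theorem cov_zero (p u v : ℝ) : Cov p u v 0 (fun _ => 0) 0 := by
  intro m J _ _
  refine ⟨fun j => j, Fin.elim0, fun j _ j' _ h => Nat.cast_injective (R := ℝ) h, fun i => i.elim0,
    fun j _ _ _ => by simp, fun j _ _ _ i => i.elim0⟩

theorem CovTop.mono {p u v : ℝ} {n : ℕ} {h h' : ℝ → ℝ} {e e' w : ℝ} (H : CovTop p u v n h e w)
    (hh : ∀ t, u ≤ t → t ≤ v → h t = h' t) (he : e ≤ e') : CovTop p u v n h' e' w := by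
  intro m J hm hJ
  obtain ⟨π, S, h1, h2, h3, h4⟩ := H m J hm hJ
  refine ⟨π, S, h1, h2, fun j hj a b => ?_, h4⟩
  rw [← hh _ a b]
  refine (h3 j hj a b).trans ?_
  have : (m : ℝ) * e ≤ m * e' := by gcongr
  linarith

theorem exists_eps {κ : Type} [Finite κ] (J : ℕ) (A B : κ → ℕ → ℝ) :
    ∃ ε : ℝ, 0 < ε ∧ ∀ k, ∀ j ≤ J, ∀ j' ≤ J, A k j < A k j' →
      A k j + ε * B k j < A k j' + ε * B k j' := by
  have h : ∀ᶠ ε in nhdsWithin (0 : ℝ) (Ioi 0), ∀ k, ∀ j ∈ Finset.range (J + 1),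
      ∀ j' ∈ Finset.range (J + 1), A k j < A k j' →
      A k j + ε * B k j < A k j' + ε * B k j' := by
    rw [Filter.eventually_all]
    intro k
    rw [Filter.eventually_all_finset]
    intro j _
    rw [Filter.eventually_all_finset]
    intro j' _
    by_cases hlt : A k j < A k j'
    · have : ∀ᶠ ε in nhds (0 : ℝ), A k j + ε * B k j < A k j' + ε * B k j' :=
        ContinuousAt.eventually_lt (by fun_prop) (by fun_prop) (by simpa using hlt)
      filter_upwards [mem_nhdsWithin_of_mem_nhds this] with ε hε _ using hε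
    · exact Filter.Eventually.of_forall fun _ h => absurd h hlt
  obtain ⟨ε, h1, h2⟩ := (h.and self_mem_nhdsWithin).exists
  exact ⟨ε, h2, fun k j hj j' hj' =>
    h1 k j (Finset.mem_range.2 (by omega)) j' (Finset.mem_range.2 (by omega))⟩

theorem lt_pos_iff {m : ℕ} (hm : 1 ≤ m) (p a : ℝ) (j : ℕ) : a < pos m p j ↔ (a + p) * m < j := by
  have : (0 : ℝ) < m := by exact_mod_cast hm
  rw [pos, lt_sub_iff_add_lt, lt_div_iff₀ this]

theorem le_pos_iff {m : ℕ} (hm : 1 ≤ m) (p a : ℝ) (j : ℕ) : a ≤ pos m p j ↔ (a + p) * m ≤ j := by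
  have : (0 : ℝ) < m := by exact_mod_cast hm
  rw [pos, le_sub_iff_add_le, le_div_iff₀ this]

theorem pos_lt_iff {m : ℕ} (hm : 1 ≤ m) (p a : ℝ) (j : ℕ) : pos m p j < a ↔ j < (a + p) * m := by
  rw [← not_le, le_pos_iff hm, not_le]

theorem pos_le_iff {m : ℕ} (hm : 1 ≤ m) (p a : ℝ) (j : ℕ) : pos m p j ≤ a ↔ j ≤ (a + p) * m := by
  rw [← not_lt, lt_pos_iff hm, not_lt]

/-- The discrete coverage is the continuous coverage up to one. -/
theorem count_chord {m J j : ℕ} {p u v c s : ℝ} {ψ : ℝ → ℝ} {π : ℕ → ℝ} (hm : 1 ≤ m)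
    (hJ : (v + p) * m ≤ J) (hp : -p ≤ u) (hu : u ≤ pos m p j) (hv : pos m p j ≤ v)
    (hc : Chord ψ u v (pos m p j) c)
    (h1 : ∀ j' ≤ J, ψ (pos m p j') < ψ (pos m p j) → s * j' + π j' < s * j + π j)
    (h2 : ∀ j' ≤ J, ψ (pos m p j) < ψ (pos m p j') → s * j + π j < s * j' + π j') :
    |((m - rkB m J p u v π s j : ℕ) : ℝ) - m * c| ≤ 1 := by
  obtain ⟨hc0, α, β, hα, hβ, hαβ, hin, hout⟩ := hc
  have hm0 : (0 : ℝ) < m := by exact_mod_cast hm
  have ha0 : 0 ≤ (α + p) * m := mul_nonneg (by linarith) hm0.le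
  have hmc : 0 ≤ (m : ℝ) * c := mul_nonneg hm0.le hc0
  have hdiff : (β + p) * m - (α + p) * m = m - m * c := by
    have : β = α + (1 - c) := by linarith
    rw [this]; ring
  have hlow : (m : ℝ) - m * c - 1 ≤ rkB m J p u v π s j := by
    have hsub : Finset.Ioo ⌊(α + p) * m⌋₊ ⌈(β + p) * m⌉₊ ⊆
        (Finset.range (J + 1)).filter fun j' : ℕ => j' ≠ j ∧ u ≤ pos m p j' ∧ pos m p j' ≤ v ∧
          s * j' + π j' ≤ s * j + π j := by
      intro j' hj'
      rw [Finset.mem_Ioo, Nat.floor_lt ha0, Nat.lt_ceil, ← lt_pos_iff hm, ← pos_lt_iff hm] at hj'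
      have e1 := hin _ hj'.1 hj'.2
      have e2 : j' ≤ J := by
        have : (j' : ℝ) ≤ (v + p) * m := (pos_le_iff hm p v j').1 (by linarith [hj'.2])
        exact_mod_cast this.trans hJ
      refine Finset.mem_filter.2 ⟨Finset.mem_range.2 (by omega), ?_, by linarith [hj'.1],
        by linarith [hj'.2], (h1 j' e2 e1).le⟩
      rintro rfl
      exact lt_irrefl _ e1
    have hcard := Finset.card_le_card hsub
    rw [Nat.card_Ioo] at hcard
    have e1 : ⌈(β + p) * m⌉₊ ≤ rkB m J p u v π s j + ⌊(α + p) * m⌋₊ + 1 := by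
      unfold rkB; omega
    have e2 : (⌈(β + p) * m⌉₊ : ℝ) ≤ rkB m J p u v π s j + ⌊(α + p) * m⌋₊ + 1 := by
      exact_mod_cast e1
    have e3 := Nat.le_ceil ((β + p) * m)
    have e4 := Nat.floor_le ha0
    linarith
  have hup : (m : ℝ) * c - 1 ≤ ((m - rkB m J p u v π s j : ℕ) : ℝ) := by
    rcases hout with rfl | hout
    · have : (0 : ℝ) ≤ ((m - rkB m J p u v π s j : ℕ) : ℝ) := Nat.cast_nonneg _
      linarith
    · have y1 : α ≤ pos m p j := by
        by_contra hh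
        exact lt_irrefl _ (hout _ hu hv (Or.inl (not_le.1 hh)))
      have y2 : pos m p j ≤ β := by
        by_contra hh
        exact lt_irrefl _ (hout _ hu hv (Or.inr (not_le.1 hh)))
      have hb0 : 0 ≤ (β + p) * m := mul_nonneg (by linarith) hm0.le
      have hsub : ((Finset.range (J + 1)).filter fun j' : ℕ => j' ≠ j ∧ u ≤ pos m p j' ∧
          pos m p j' ≤ v ∧ s * j' + π j' ≤ s * j + π j) ⊆
          Finset.Icc ⌈(α + p) * m⌉₊ ⌊(β + p) * m⌋₊ := by
        intro j' hj'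
        obtain ⟨e1, _, e2, e3, e4⟩ := Finset.mem_filter.1 hj'
        have e1' : j' ≤ J := by have := Finset.mem_range.1 e1; omega
        rw [Finset.mem_Icc, Nat.ceil_le, Nat.le_floor_iff hb0, ← le_pos_iff hm, ← pos_le_iff hm]
        by_contra hh
        rw [not_and_or, not_le, not_le] at hh
        exact absurd (h2 j' e1' (hout _ e2 e3 hh)) (not_lt.2 e4)
      have hcard := Finset.card_le_card hsub
      rw [Nat.card_Icc] at hcard
      have f1 : ⌈(α + p) * m⌉₊ ≤ j := Nat.ceil_le.2 ((le_pos_iff hm p α j).1 y1)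
      have f2 : j ≤ ⌊(β + p) * m⌋₊ := (Nat.le_floor_iff hb0).2 ((pos_le_iff hm p β j).1 y2)
      have e1 : m + ⌈(α + p) * m⌉₊ ≤ (m - rkB m J p u v π s j) + ⌊(β + p) * m⌋₊ + 1 := by
        unfold rkB; omega
      have e2 : (m : ℝ) + ⌈(α + p) * m⌉₊ ≤ ((m - rkB m J p u v π s j : ℕ) : ℝ) +
          ⌊(β + p) * m⌋₊ + 1 := by exact_mod_cast e1
      have e3 := Nat.le_ceil ((α + p) * m)
      have e4 := Nat.floor_le hb0
      linarith
  rw [abs_le]
  refine ⟨by linarith, ?_⟩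
  rcases le_total m (rkB m J p u v π s j) with h | h
  · rw [Nat.sub_eq_zero_of_le h]; simp only [Nat.cast_zero]; linarith
  · rw [Nat.cast_sub h]; linarith

/-- A row whose `m` predecessors are cheaper has rank at least `m`. -/
theorem top_rank {m J j : ℕ} {p u v s : ℝ} {ψ : ℝ → ℝ} {π : ℕ → ℝ} (hm : 1 ≤ m) (hj : j ≤ J)
    (hp : -p ≤ u) (hu : u ≤ pos m p j - 1) (hv : pos m p j ≤ v)
    (hψ : ∀ t, pos m p j - 1 ≤ t → t < pos m p j → ψ t < ψ (pos m p j))
    (h1 : ∀ j' ≤ J, ψ (pos m p j') < ψ (pos m p j) → s * j' + π j' < s * j + π j) :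
    m ≤ rkB m J p u v π s j := by
  have hm0 : (0 : ℝ) < m := by exact_mod_cast hm
  have hjj : (pos m p j + p) * m = j := by rw [pos]; field_simp; ring
  have hmj : m ≤ j := by
    have : (1 - p + p) * m ≤ j := (le_pos_iff hm p (1 - p) j).1 (by linarith)
    have : (m : ℝ) ≤ j := by linarith
    exact_mod_cast this
  have hsub : Finset.Ico (j - m) j ⊆
      (Finset.range (J + 1)).filter fun j' : ℕ => j' ≠ j ∧ u ≤ pos m p j' ∧ pos m p j' ≤ v ∧
        s * j' + π j' ≤ s * j + π j := by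
    intro j' hj'
    rw [Finset.mem_Ico] at hj'
    have e1 : pos m p j' < pos m p j := by
      rw [pos_lt_iff hm, hjj]; exact_mod_cast hj'.2
    have e2 : pos m p j - 1 ≤ pos m p j' := by
      rw [le_pos_iff hm]
      have : (j : ℝ) ≤ j' + m := by exact_mod_cast (show j ≤ j' + m by omega)
      nlinarith
    exact Finset.mem_filter.2 ⟨Finset.mem_range.2 (by omega), by omega, by linarith, by linarith,
      (h1 j' (by omega) (hψ _ e2 e1)).le⟩
  have hcard := Finset.card_le_card hsub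
  rw [Nat.card_Ico] at hcard
  unfold rkB; omega

theorem lift_top {ι : Type} [Fintype ι] {p u1 v1 u0 v0 w : ℝ} {N n : ℕ} {h1 h : ℝ → ℝ} {e e' : ℝ}
    (inner : Cov p u1 v1 N h1 e) (hn : n = N + Fintype.card ι)
    (hp : -p ≤ u0) (hu : u0 ≤ u1) (hv : v1 ≤ v0) (he : 0 ≤ e) (he' : 0 ≤ e')
    (G : ℝ → ℝ) (hG0 : ∀ t, u1 ≤ t → t ≤ v1 → G t = 0)
    (hGpos : ∀ t, u0 ≤ t → t ≤ v0 → (t < u1 ∨ v1 < t) → 0 < G t)
    (V : ι → ℝ) (c : ι → ℝ → ℝ)
    (hc : ∀ i y, u0 ≤ y → y ≤ v0 → Chord (fun t => G t + V i * t) u0 v0 y (c i y))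
    (cG : ℝ → ℝ) (hcG : ∀ y, u0 ≤ y → y ≤ v0 → (y < u1 ∨ v1 < y) → Chord G u0 v0 y (cG y))
    (hin : ∀ y, u1 ≤ y → y ≤ v1 → |h y - h1 y - ∑ i, c i y| ≤ e')
    (hout : ∀ y, u0 ≤ y → y ≤ v0 → (y < u1 ∨ v1 < y) → h y = N * cG y + ∑ i, c i y)
    (hw1 : v1 ≤ w)
    (hw : ∀ y, w < y → y ≤ v0 → u0 ≤ y - 1 ∧ ∀ t, y - 1 ≤ t → t < y →
      G t < G y ∧ ∀ i, G t + V i * t < G y + V i * y) :
    CovTop p u0 v0 n h (e + e') w := by
  intro m J hm hJ
  have hm0 : (0 : ℝ) < m := by exact_mod_cast hm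
  obtain ⟨π1, S1, i1, i2, i3, -⟩ := inner m J hm (le_trans (by gcongr) hJ)
  obtain ⟨ε, hε, hlt⟩ := exists_eps (κ := Option (Fin N ⊕ ι)) J
    (fun k j => m * G (pos m p j) + (k.elim 0 (Sum.elim (fun _ => 0) V)) * j)
    (fun k j => (k.elim 0 (Sum.elim S1 fun _ => 0)) * j + π1 j)
  set π : ℕ → ℝ := fun j => m * G (pos m p j) + ε * π1 j with hπ
  have lt0 : ∀ j ≤ J, ∀ j' ≤ J, G (pos m p j) < G (pos m p j') → π j < π j' := by
    intro j hj j' hj' hh
    have := hlt none j hj j' hj' (by simpa [hm0] using hh)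
    simpa [hπ] using this
  have lt1 : ∀ i, ∀ j ≤ J, ∀ j' ≤ J, G (pos m p j) < G (pos m p j') →
      ε * S1 i * j + π j < ε * S1 i * j' + π j' := by
    intro i j hj j' hj' hh
    have := hlt (some (Sum.inl i)) j hj j' hj' (by simpa [hm0] using hh)
    simp only [Option.elim, Sum.elim_inl, zero_mul, add_zero] at this
    simp only [hπ]
    linarith
  have hpos : ∀ (i) (j : ℕ), m * G (pos m p j) + V i * j =
      m * (G (pos m p j) + V i * pos m p j) + m * V i * p := by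
    intro i j
    rw [pos]; field_simp; ring
  have lt2 : ∀ i, ∀ j ≤ J, ∀ j' ≤ J,
      G (pos m p j) + V i * pos m p j < G (pos m p j') + V i * pos m p j' →
      V i * j + π j < V i * j' + π j' := by
    intro i j hj j' hj' hh
    have := hlt (some (Sum.inr i)) j hj j' hj' (by
      simp only [Option.elim, Sum.elim_inr]
      rw [hpos, hpos]
      have := mul_lt_mul_of_pos_left hh hm0
      linarith)
    simp only [Option.elim, Sum.elim_inr, zero_mul, zero_add] at this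
    simp only [hπ]
    linarith
  let eq : Fin n ≃ Fin N ⊕ ι := Fintype.equivOfCardEq (by simp [hn])
  refine ⟨π, fun k => Sum.elim (fun i => ε * S1 i) V (eq k), ?_, ?_, ?_, ?_⟩
  · intro j hj j' hj' hh
    rcases lt_trichotomy (G (pos m p j)) (G (pos m p j')) with a | a | a
    · exact absurd hh (lt0 j hj j' hj' a).ne
    · simp only [hπ, a, add_right_inj] at hh
      exact i1 j hj j' hj' (mul_left_cancel₀ hε.ne' hh)
    · exact absurd hh (lt0 j' hj' j hj a).ne'
  · intro k j hj j' hj' hh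
    rcases hk : eq k with i | i
    · simp only [hk, Sum.elim_inl] at hh
      rcases lt_trichotomy (G (pos m p j)) (G (pos m p j')) with a | a | a
      · exact absurd hh (lt1 i j hj j' hj' a).ne
      · simp only [hπ, a] at hh
        exact i2 i j hj j' hj' (mul_left_cancel₀ hε.ne' (by linarith))
      · exact absurd hh (lt1 i j' hj' j hj a).ne'
    · simp only [hk, Sum.elim_inr] at hh
      rcases lt_trichotomy (G (pos m p j) + V i * pos m p j)
        (G (pos m p j') + V i * pos m p j') with a | a | a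
      · exact absurd hh (lt2 i j hj j' hj' a).ne
      · have b1 := hpos i j
        have b2 := hpos i j'
        rw [a] at b1
        simp only [hπ] at hh
        exact i1 j hj j' hj' (mul_left_cancel₀ hε.ne' (by linarith))
      · exact absurd hh (lt2 i j' hj' j hj a).ne'
  · intro j hj y1 y2
    have hsum : (∑ k : Fin n, ((m - rkB m J p u0 v0 π
        (Sum.elim (fun i => ε * S1 i) V (eq k)) j : ℕ) : ℝ)) =
        (∑ i, ((m - rkB m J p u0 v0 π (ε * S1 i) j : ℕ) : ℝ)) +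
          ∑ i, ((m - rkB m J p u0 v0 π (V i) j : ℕ) : ℝ) := by
      rw [Equiv.sum_comp eq fun k => ((m - rkB m J p u0 v0 π
        (Sum.elim (fun i => ε * S1 i) V k) j : ℕ) : ℝ), Fintype.sum_sum_type]
      rfl
    rw [hsum]
    have hnew : |(∑ i, ((m - rkB m J p u0 v0 π (V i) j : ℕ) : ℝ)) -
        m * ∑ i, c i (pos m p j)| ≤ Fintype.card ι := by
      rw [Finset.mul_sum, ← Finset.sum_sub_distrib]
      refine (Finset.abs_sum_le_sum_abs _ _).trans ?_
      refine (Finset.sum_le_sum fun i _ => count_chord hm hJ hp y1 y2 (hc i _ y1 y2)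
        (fun j' hj' a => lt2 i j' hj' j hj a) fun j' hj' a => lt2 i j hj j' hj' a).trans ?_
      simp
    have hnR : (n : ℝ) = N + Fintype.card ι := by exact_mod_cast hn
    by_cases hy : pos m p j < u1 ∨ v1 < pos m p j
    · have hold : |(∑ i, ((m - rkB m J p u0 v0 π (ε * S1 i) j : ℕ) : ℝ)) -
          m * (N * cG (pos m p j))| ≤ N := by
        have : (m : ℝ) * (N * cG (pos m p j)) = ∑ _i : Fin N, m * cG (pos m p j) := by
          simp; ring
        rw [this, ← Finset.sum_sub_distrib]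
        refine (Finset.abs_sum_le_sum_abs _ _).trans ?_
        refine (Finset.sum_le_sum fun i _ => count_chord hm hJ hp y1 y2 (hcG _ y1 y2 hy)
          (fun j' hj' a => lt1 i j' hj' j hj a) fun j' hj' a => lt1 i j hj j' hj' a).trans ?_
        simp
      rw [hout _ y1 y2 hy, hnR]
      have : 0 ≤ (m : ℝ) * (e + e') := by positivity
      rw [abs_le] at hold hnew ⊢
      constructor <;> nlinarith [hold.1, hold.2, hnew.1, hnew.2]
    · rw [not_or, not_lt, not_lt] at hy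
      have hrk : ∀ i, rkB m J p u0 v0 π (ε * S1 i) j = rkB m J p u1 v1 π1 (S1 i) j := by
        intro i
        unfold rkB
        congr 1
        refine Finset.filter_congr fun j' hj' => ?_
        have hj'' : j' ≤ J := by have := Finset.mem_range.1 hj'; omega
        have g0 := hG0 _ hy.1 hy.2
        constructor
        · rintro ⟨a1, a2, a3, a4⟩
          by_cases hy' : pos m p j' < u1 ∨ v1 < pos m p j'
          · exact absurd (lt1 i j hj j' hj'' (by rw [g0]; exact hGpos _ a2 a3 hy')) (not_lt.2 a4)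
          · rw [not_or, not_lt, not_lt] at hy'
            refine ⟨a1, hy'.1, hy'.2, ?_⟩
            simp only [hπ, g0, hG0 _ hy'.1 hy'.2] at a4
            exact le_of_mul_le_mul_left (by linarith) hε
        · rintro ⟨a1, a2, a3, a4⟩
          refine ⟨a1, by linarith, by linarith, ?_⟩
          simp only [hπ, g0, hG0 _ a2 a3]
          have := mul_le_mul_of_nonneg_left a4 hε.le
          linarith
      simp only [hrk]
      have hold := i3 j hj hy.1 hy.2
      have hh := hin _ hy.1 hy.2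
      rw [hnR]
      rw [abs_le] at hold hnew hh ⊢
      have b1 := mul_le_mul_of_nonneg_left hh.1 hm0.le
      have b2 := mul_le_mul_of_nonneg_left hh.2 hm0.le
      constructor <;> linarith [hold.1, hold.2, hnew.1, hnew.2]
  · intro j hj y1 y2 k
    obtain ⟨a1, a2⟩ := hw _ y1 y2
    rcases hk : eq k with i | i
    · simp only [hk, Sum.elim_inl]
      exact top_rank (ψ := G) hm hj hp a1 y2 (fun t b1 b2 => (a2 t b1 b2).1)
        fun j' hj' a => lt1 i j' hj' j hj a
    · simp only [hk, Sum.elim_inr]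
      exact top_rank (ψ := fun t => G t + V i * t) hm hj hp a1 y2
        (fun t b1 b2 => (a2 t b1 b2).2 i) fun j' hj' a => lt2 i j' hj' j hj a

theorem lift {ι : Type} [Fintype ι] {p u1 v1 u0 v0 : ℝ} {N n : ℕ} {h1 h : ℝ → ℝ} {e e' : ℝ}
    (inner : Cov p u1 v1 N h1 e) (hn : n = N + Fintype.card ι)
    (hp : -p ≤ u0) (hu : u0 ≤ u1) (hv : v1 ≤ v0) (he : 0 ≤ e) (he' : 0 ≤ e')
    (G : ℝ → ℝ) (hG0 : ∀ t, u1 ≤ t → t ≤ v1 → G t = 0)
    (hGpos : ∀ t, u0 ≤ t → t ≤ v0 → (t < u1 ∨ v1 < t) → 0 < G t)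
    (V : ι → ℝ) (c : ι → ℝ → ℝ)
    (hc : ∀ i y, u0 ≤ y → y ≤ v0 → Chord (fun t => G t + V i * t) u0 v0 y (c i y))
    (cG : ℝ → ℝ) (hcG : ∀ y, u0 ≤ y → y ≤ v0 → (y < u1 ∨ v1 < y) → Chord G u0 v0 y (cG y))
    (hin : ∀ y, u1 ≤ y → y ≤ v1 → |h y - h1 y - ∑ i, c i y| ≤ e')
    (hout : ∀ y, u0 ≤ y → y ≤ v0 → (y < u1 ∨ v1 < y) → h y = N * cG y + ∑ i, c i y) :
    Cov p u0 v0 n h (e + e') :=
  lift_top inner hn hp hu hv he he' G hG0 hGpos V c hc cG hcG hin hout hv
    fun _ a b => absurd a (not_lt.2 b)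

theorem lift_U {p u v : ℝ} {N k n : ℕ} {h1 h : ℝ → ℝ} {e e' : ℝ} (inner : Cov p u v N h1 e)
    (hn : n = N + k) (hp : -p ≤ u) (huv : v - u ≤ 1) (he : 0 ≤ e) (he' : 0 ≤ e')
    (hin : ∀ y, u ≤ y → y ≤ v → |h y - h1 y - k * (1 - (y - u))| ≤ e') :
    Cov p u v n h (e + e') := by
  have hno : ∀ y, u ≤ y → y ≤ v → ¬(y < u ∨ v < y) := fun y a b hh => by
    rcases hh with hh | hh <;> linarith
  refine lift (ι := Fin k) inner (by simpa using hn) hp le_rfl le_rfl he he' (fun _ => 0)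
    (fun _ _ _ => rfl) (fun t a b hh => absurd hh (hno t a b)) (fun _ => 1)
    (fun _ y => 1 - (y - u)) ?_ (fun _ => 0) (fun t a b hh => absurd hh (hno t a b)) ?_
    fun t a b hh => absurd hh (hno t a b)
  · intro _ y a b
    refine ⟨by linarith, u, y, le_rfl, b, by ring, fun t _ hh => by simpa using hh,
      Or.inr fun t a' _ hh => ?_⟩
    rcases hh with hh | hh
    · linarith
    · simpa using hh
  · intro y a b
    rw [Finset.sum_const, Finset.card_univ, Fintype.card_fin, nsmul_eq_mul]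
    exact hin y a b

theorem chord_of_V {ψ : ℝ → ℝ} {u v a1 a2 α β y c : ℝ} (h12 : a1 ≤ a2)
    (hanti : ∀ s t, u ≤ s → s < t → t ≤ a1 → ψ t < ψ s)
    (hflat : ∀ t, a1 ≤ t → t ≤ a2 → ψ t = ψ a1)
    (hmono : ∀ s t, a2 ≤ s → s < t → t ≤ v → ψ s < ψ t)
    (hα1 : u ≤ α) (hα2 : α ≤ a1) (hβ1 : a2 ≤ β) (hβ2 : β ≤ v)
    (hα : ψ α ≤ ψ y) (hβ : ψ β ≤ ψ y) (hin : a1 < a2 → ψ a1 < ψ y)
    (hc0 : 0 ≤ c) (hc : β - α = 1 - c)
    (hout : c = 0 ∨ ((ψ α = ψ y ∨ α = u) ∧ (ψ β = ψ y ∨ β = v))) :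
    Chord ψ u v y c := by
  refine ⟨hc0, α, β, hα1, hβ2, hc, fun t a b => ?_, ?_⟩
  · rcases le_or_gt t a1 with h1 | h1
    · exact (hanti α t hα1 a h1).trans_le hα
    · rcases le_or_gt a2 t with h2 | h2
      · exact (hmono t β h2 b hβ2).trans_le hβ
      · rw [hflat t h1.le h2.le]; exact hin (h1.trans h2)
  · rcases hout with h | ⟨h1, h2⟩
    · exact Or.inl h
    · refine Or.inr fun t a b hh => ?_
      rcases hh with hh | hh
      · rcases h1 with h1 | h1
        · rw [← h1]; exact hanti t α a hh hα2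
        · linarith
      · rcases h2 with h2 | h2
        · rw [← h2]; exact hmono β t hβ1 hh b
        · linarith

end Pool.Agent.P.MP_8707bd_ag.Nag
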