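import Mathlib

/-!
A regularised inverse function and Young's equality (helper file only).
-/

namespace Pool.Agent.P.MP_8707bd_ag.Nag

open Set

/-- regularised inverse of `f` on `[u, v]` -/
noncomputable def Inv (f : ℝ → ℝ) (u v a t : ℝ) : ℝ :=
  sSup ((fun y => y - max (f y - t) 0 / a) '' Icc u v)

variable {f f' : ℝ → ℝ} {u v a : ℝ}

theorem le_Inv (ha : 0 < a) {y : ℝ} (h1 : u ≤ y) (h2 : y ≤ v) (t : ℝ) :
    y - max (f y - t) 0 / a ≤ Inv f u v a t := by
  refine le_csSup ⟨v, ?_⟩ ⟨y, ⟨h1, h2⟩, rfl⟩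
  rintro _ ⟨s, hs, rfl⟩
  have : 0 ≤ max (f s - t) 0 / a := div_nonneg (le_max_right _ _) ha.le
  have := hs.2
  simp only
  linarith

theorem Inv_le (huv : u ≤ v) {t w : ℝ}
    (h : ∀ y, u ≤ y → y ≤ v → y - max (f y - t) 0 / a ≤ w) : Inv f u v a t ≤ w := by
  refine csSup_le ⟨_, ⟨u, ⟨le_rfl, huv⟩, rfl⟩⟩ ?_
  rintro _ ⟨s, hs, rfl⟩
  exact h s hs.1 hs.2

theorem Inv_le_top (huv : u ≤ v) (ha : 0 < a) (t : ℝ) : Inv f u v a t ≤ v :=
  Inv_le huv fun y _ h2 => by
    have : 0 ≤ max (f y - t) 0 / a := div_nonneg (le_max_right _ _) ha.le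
    linarith

theorem Inv_slope (huv : u ≤ v) (ha : 0 < a) (s t : ℝ) (hst : s ≤ t) :
    0 ≤ Inv f u v a t - Inv f u v a s ∧ Inv f u v a t - Inv f u v a s ≤ (t - s) / a := by
  constructor
  · rw [sub_nonneg]
    refine Inv_le huv fun y h1 h2 => le_trans ?_ (le_Inv ha h1 h2 t)
    have : max (f y - t) 0 ≤ max (f y - s) 0 := max_le_max (by linarith) le_rfl
    have := div_le_div_of_nonneg_right this ha.le
    linarith
  · rw [sub_le_iff_le_add']
    refine Inv_le huv fun y h1 h2 => ?_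
    have h3 := le_Inv (f := f) ha h1 h2 s
    have : max (f y - s) 0 ≤ max (f y - t) 0 + (t - s) := by
      rcases le_total (f y - s) 0 with h | h
      · rw [max_eq_right h]; have := le_max_right (f y - t) 0; linarith
      · rw [max_eq_left h]; have := le_max_left (f y - t) 0; linarith
    have := div_le_div_of_nonneg_right this ha.le
    rw [add_div] at this
    linarith

theorem continuous_of_slope {g : ℝ → ℝ} {c : ℝ}
    (h : ∀ s t, s ≤ t → 0 ≤ g t - g s ∧ g t - g s ≤ (t - s) / c) (hc : 0 < c) :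
    Continuous g := by
  have : LipschitzWith (Real.toNNReal (1 / c)) g := by
    refine LipschitzWith.of_dist_le_mul fun s t => ?_
    rw [Real.coe_toNNReal _ (by positivity), Real.dist_eq, Real.dist_eq]
    rcases le_total s t with hst | hst
    · obtain ⟨h1, h2⟩ := h s t hst
      rw [abs_of_nonpos (by linarith), abs_of_nonpos (by linarith)]
      have : 1 / c * -(s - t) = (t - s) / c := by ring
      linarith
    · obtain ⟨h1, h2⟩ := h t s hst
      rw [abs_of_nonneg h1, abs_of_nonneg (by linarith)]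
      have : 1 / c * (s - t) = (s - t) / c := by ring
      linarith
  exact this.continuous

theorem Inv_continuous (huv : u ≤ v) (ha : 0 < a) : Continuous (Inv f u v a) :=
  continuous_of_slope (Inv_slope huv ha) ha

theorem Inv_anti (huv : u ≤ v) (ha : 0 < a) (h : ∀ y, u ≤ y → y ≤ v → f y ≤ f' y) (t : ℝ) :
    Inv f' u v a t ≤ Inv f u v a t := by
  refine Inv_le huv fun y h1 h2 => le_trans ?_ (le_Inv ha h1 h2 t)
  have : max (f y - t) 0 ≤ max (f' y - t) 0 := max_le_max (by linarith [h y h1 h2]) le_rfl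
  have := div_le_div_of_nonneg_right this ha.le
  linarith

theorem Inv_concave (huv : u ≤ v) (ha : 0 < a) (hf : ConvexOn ℝ (Icc u v) f) :
    ConcaveOn ℝ univ (Inv f u v a) := by
  refine ⟨convex_univ, fun s _ t _ α β hα hβ hαβ => ?_⟩
  simp only [smul_eq_mul]
  have key : ∀ y, u ≤ y → y ≤ v → ∀ y', u ≤ y' → y' ≤ v →
      α * (y - max (f y - s) 0 / a) + β * (y' - max (f y' - t) 0 / a) ≤
        Inv f u v a (α * s + β * t) := by
    intro y h1 h2 y' h1' h2'
    have hm := (convex_Icc u v) (⟨h1, h2⟩ : y ∈ Icc u v) (⟨h1', h2'⟩ : y' ∈ Icc u v) hα hβ hαβ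
    simp only [smul_eq_mul] at hm
    refine le_trans ?_ (le_Inv ha hm.1 hm.2 _)
    have h3 := hf.2 (⟨h1, h2⟩ : y ∈ Icc u v) (⟨h1', h2'⟩ : y' ∈ Icc u v) hα hβ hαβ
    simp only [smul_eq_mul] at h3
    have h4 : max (f (α * y + β * y') - (α * s + β * t)) 0 ≤
        α * max (f y - s) 0 + β * max (f y' - t) 0 := by
      have a1 := mul_le_mul_of_nonneg_left (le_max_left (f y - s) 0) hα
      have a2 := mul_le_mul_of_nonneg_left (le_max_left (f y' - t) 0) hβ
      have a3 := mul_nonneg hα (le_max_right (f y - s) 0)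
      have a4 := mul_nonneg hβ (le_max_right (f y' - t) 0)
      exact max_le (by linarith) (by linarith)
    have h5 := div_le_div_of_nonneg_right h4 ha.le
    have : α * (y - max (f y - s) 0 / a) + β * (y' - max (f y' - t) 0 / a) =
      α * y + β * y' - (α * max (f y - s) 0 + β * max (f y' - t) 0) / a := by ring
    linarith
  rcases hα.eq_or_lt with rfl | hα'
  · obtain rfl : β = 1 := by linarith
    simp
  rcases hβ.eq_or_lt with rfl | hβ'
  · obtain rfl : α = 1 := by linarith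
    simp
  have k2 : ∀ y, u ≤ y → y ≤ v → Inv f u v a t ≤
      (Inv f u v a (α * s + β * t) - α * (y - max (f y - s) 0 / a)) / β := by
    intro y h1 h2
    refine Inv_le huv fun y' h1' h2' => ?_
    rw [le_div_iff₀ hβ']
    linarith [key y h1 h2 y' h1' h2']
  have k3 : Inv f u v a s ≤ (Inv f u v a (α * s + β * t) - β * Inv f u v a t) / α := by
    refine Inv_le huv fun y h1 h2 => ?_
    have := k2 y h1 h2
    rw [le_div_iff₀ hβ'] at this
    rw [le_div_iff₀ hα']
    linarith
  rw [le_div_iff₀ hα'] at k3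
  linarith

theorem Inv_apply (ha : 0 < a) {y : ℝ} (h1 : u ≤ y) (h2 : y ≤ v)
    (h : ∀ y', y ≤ y' → y' ≤ v → a * (y' - y) ≤ f y' - f y) : Inv f u v a (f y) = y := by
  refine le_antisymm (Inv_le (h1.trans h2) fun y' _ h4 => ?_) ?_
  · rcases le_total y' y with h5 | h5
    · have : 0 ≤ max (f y' - f y) 0 / a := div_nonneg (le_max_right _ _) ha.le
      linarith
    · have : y' - y ≤ max (f y' - f y) 0 / a := by
        rw [le_div_iff₀ ha]
        linarith [h y' h5 h4, le_max_left (f y' - f y) 0]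
      linarith
  · simpa using le_Inv (f := f) ha h1 h2 (f y)

theorem Inv_top (huv : u ≤ v) (ha : 0 < a) {t : ℝ} (h : f v ≤ t) : Inv f u v a t = v := by
  refine le_antisymm (Inv_le_top huv ha t) ?_
  have := le_Inv (f := f) ha huv le_rfl t
  rwa [max_eq_right (by linarith), zero_div, sub_zero] at this

theorem Inv_below (ha : 0 < a) {y t : ℝ} (h1 : u ≤ y) (h2 : y ≤ v)
    (h : ∀ y', u ≤ y' → y' ≤ v → f y - a * y ≤ f y' - a * y') (ht : t ≤ f y) :
    Inv f u v a t = y - (f y - t) / a := by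
  refine le_antisymm (Inv_le (h1.trans h2) fun y' h3 h4 => ?_) ?_
  · have h5 : (f y' - t) / a ≤ max (f y' - t) 0 / a :=
      div_le_div_of_nonneg_right (le_max_left _ _) ha.le
    have h6 : y' - y ≤ (f y' - t) / a - (f y - t) / a := by
      rw [← sub_div, le_div_iff₀ ha]
      linarith [h y' h3 h4]
    linarith
  · have := le_Inv (f := f) ha h1 h2 t
    rwa [max_eq_left (by linarith)] at this

theorem Inv_range (ha : 0 < a) (hf : Continuous f) {w t : ℝ} (h1 : u ≤ w) (h2 : w ≤ v)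
    (hs : ∀ s t, w ≤ s → s ≤ t → t ≤ v → a * (t - s) ≤ f t - f s) (h3 : f w ≤ t) (h4 : t ≤ f v) :
    w ≤ Inv f u v a t ∧ f (Inv f u v a t) = t := by
  obtain ⟨y, hy, rfl⟩ := intermediate_value_Icc h2 hf.continuousOn ⟨h3, h4⟩
  rw [Inv_apply ha (h1.trans hy.1) hy.2 fun y' h5 h6 => hs y y' hy.1 h5 h6]
  exact ⟨hy.1, rfl⟩

theorem exists_inv {f : ℝ → ℝ} {u v lo : ℝ} (huv : u ≤ v) (hlo : 0 < lo) (hf : Continuous f)
    (hconv : ConvexOn ℝ (Icc u v) f)
    (hs : ∀ s t, u ≤ s → s ≤ t → t ≤ v → lo * (t - s) ≤ f t - f s) :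
    ∃ Y : ℝ → ℝ, Continuous Y ∧ ConcaveOn ℝ univ Y ∧
      (∀ s t, s ≤ t → 0 ≤ Y t - Y s ∧ Y t - Y s ≤ (t - s) / lo) ∧ (∀ t, f v ≤ t → Y t = v) ∧
      (∀ y, u ≤ y → y ≤ v → Y (f y) = y) ∧
      ∀ t, f u ≤ t → t ≤ f v → u ≤ Y t ∧ Y t ≤ v ∧ f (Y t) = t :=
  ⟨Inv f u v lo, Inv_continuous huv hlo, Inv_concave huv hlo hconv, Inv_slope huv hlo,
    fun _ h => Inv_top huv hlo h,
    fun y h1 h2 => Inv_apply hlo h1 h2 fun y' h3 h4 => hs y y' h1 h3 h4,
    fun t h1 h2 => ⟨(Inv_range hlo hf le_rfl huv hs h1 h2).1, Inv_le_top huv hlo t,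
      (Inv_range hlo hf le_rfl huv hs h1 h2).2⟩⟩

theorem young {f g : ℝ → ℝ} {a b : ℝ} (hab : a ≤ b) (hf : Continuous f)
    (hmono : ∀ s t, a ≤ s → s ≤ t → t ≤ b → f s ≤ f t) (hg : Continuous g) (hgm : Monotone g)
    (hinv : ∀ y, a ≤ y → y ≤ b → g (f y) = y) :
    (∫ y in a..b, f y) + ∫ t in f a..f b, g t = b * f b - a * f a := by
  let Φ : ℝ → ℝ := fun y => (∫ s in a..y, f s) + (∫ t in f a..f y, g t) - y * f y
  have hΦc : Continuous Φ := by
    refine Continuous.sub (Continuous.add ?_ ?_) (continuous_id.mul hf)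
    · exact intervalIntegral.continuous_primitive (fun _ _ => hf.intervalIntegrable _ _) a
    · exact (intervalIntegral.continuous_primitive (fun _ _ => hg.intervalIntegrable _ _)
        (f a)).comp hf
  have inc : ∀ y y', a ≤ y → y ≤ y' → y' ≤ b → |Φ y' - Φ y| ≤ (f y' - f y) * (y' - y) := by
    intro y y' h1 h2 h3
    have e : Φ y' - Φ y = (∫ s in y..y', f s) + (∫ t in f y..f y', g t) - y' * f y' + y * f y := by
      simp only [Φ]
      rw [← intervalIntegral.integral_add_adjacent_intervals (hf.intervalIntegrable a y)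
        (hf.intervalIntegrable y y'), ← intervalIntegral.integral_add_adjacent_intervals
        (hg.intervalIntegrable (f a) (f y)) (hg.intervalIntegrable (f y) (f y'))]
      ring
    have hff := hmono y y' h1 h2 h3
    have u1 : ∫ s in y..y', f s ≤ ∫ _ in y..y', f y' :=
      intervalIntegral.integral_mono_on h2 (hf.intervalIntegrable _ _) intervalIntegrable_const
        fun s hs => hmono s y' (h1.trans hs.1) hs.2 h3
    have l1 : ∫ _ in y..y', f y ≤ ∫ s in y..y', f s :=
      intervalIntegral.integral_mono_on h2 intervalIntegrable_const (hf.intervalIntegrable _ _)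
        fun s hs => hmono y s h1 hs.1 (hs.2.trans h3)
    have u2 : ∫ t in f y..f y', g t ≤ ∫ _ in f y..f y', y' :=
      intervalIntegral.integral_mono_on hff (hg.intervalIntegrable _ _) intervalIntegrable_const
        fun s hs => (hgm hs.2).trans (hinv y' (h1.trans h2) h3).le
    have l2 : ∫ _ in f y..f y', y ≤ ∫ t in f y..f y', g t :=
      intervalIntegral.integral_mono_on hff intervalIntegrable_const (hg.intervalIntegrable _ _)
        fun s hs => (hinv y h1 (h2.trans h3)).ge.trans (hgm hs.1)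
    simp only [intervalIntegral.integral_const, smul_eq_mul] at u1 l1 u2 l2
    rw [e, abs_le]
    constructor <;> nlinarith
  have hd : ∀ y ∈ Ico a b, HasDerivWithinAt Φ 0 (Ici y) y := by
    intro y hy
    rw [hasDerivWithinAt_iff_isLittleO, Asymptotics.isLittleO_iff]
    intro c hc
    have e1 : ∀ᶠ y' in nhdsWithin y (Ici y), f y' - f y < c :=
      nhdsWithin_le_nhds ((hf.sub continuous_const).continuousAt.eventually_lt continuousAt_const
        (by simpa using hc))
    have e2 : ∀ᶠ y' in nhdsWithin y (Ici y), y' < b := nhdsWithin_le_nhds (gt_mem_nhds hy.2)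
    filter_upwards [e1, e2, self_mem_nhdsWithin] with y' h1 h2 h3
    have h3' : y ≤ y' := h3
    rw [smul_zero, sub_zero, Real.norm_eq_abs, Real.norm_eq_abs, abs_of_nonneg (sub_nonneg.2 h3')]
    exact (inc y y' hy.1 h3' h2.le).trans (mul_le_mul_of_nonneg_right h1.le (sub_nonneg.2 h3'))
  have := constant_of_has_deriv_right_zero hΦc.continuousOn hd b ⟨hab, le_rfl⟩
  simp only [Φ, intervalIntegral.integral_same] at this
  linarith

end Pool.Agent.P.MP_8707bd_ag.Nag
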