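import Mathlib
import Pool.Agent.P.MP_8707bd_ag.Nag.Inv

/-!
The fixed point behind one peeling step (helper file only).
-/

namespace Pool.Agent.P.MP_8707bd_ag.Nag

open Set

/-- chord map of the group, right to left -/
noncomputable def XGf (F X : ℝ → ℝ) (N t : ℝ) : ℝ := (F t - X t) / N

/-- chord map of the group, left to right -/
noncomputable def ZGf (F X : ℝ → ℝ) (N x z : ℝ) : ℝ → ℝ :=
  Inv (XGf F X N) (z - (x + z) / 8) z (4 / 5)

/-- chord map of the peeled point, left to right -/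
noncomputable def ZPf (F X : ℝ → ℝ) (N x z y : ℝ) : ℝ :=
  F (-y) - 2 * (N + 1) * y - N * ZGf F X N x z y

/-- the operator whose fixed point is the chord map of the peeled point, right to left -/
noncomputable def TTf (F X : ℝ → ℝ) (N x z : ℝ) : ℝ → ℝ :=
  Inv (ZPf F X N x z) (x - (x + z) / 10) x 10

/-- admissible chord maps -/
def Adm (x z : ℝ) (X : ℝ → ℝ) : Prop :=
  ConcaveOn ℝ univ X ∧ (∀ s t, s ≤ t → 0 ≤ X t - X s ∧ X t - X s ≤ (t - s) / 10) ∧ X z = x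

variable {N x z j : ℝ} {F : ℝ → ℝ}

theorem XGf_convex (hN : 0 < N) (hx : 0 < x) (hz : x + z ≤ 8 * z)
    (hc : ConvexOn ℝ (Icc (-x) z) F) {X : ℝ → ℝ} (hX : Adm x z X) :
    ConvexOn ℝ (Icc (z - (x + z) / 8) z) (XGf F X N) := by
  have h1 : ConvexOn ℝ (Icc (z - (x + z) / 8) z) F :=
    hc.subset (Icc_subset_Icc (by linarith) le_rfl) (convex_Icc _ _)
  have h2 : ConcaveOn ℝ (Icc (z - (x + z) / 8) z) X := hX.1.subset (subset_univ _) (convex_Icc _ _)
  have := (h1.sub h2).smul (c := N⁻¹) (by positivity)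
  refine this.congr fun t _ => ?_
  simp only [XGf, Pi.sub_apply, smul_eq_mul]
  ring

theorem ZPf_convex (hN : 0 < N) (hx : 0 < x) (hz : x + z ≤ 8 * z)
    (hc : ConvexOn ℝ (Icc (-x) z) F) {X : ℝ → ℝ} (hX : Adm x z X) :
    ConvexOn ℝ (Icc (x - (x + z) / 10) x) (ZPf F X N x z) := by
  have h0 : ConcaveOn ℝ univ (ZGf F X N x z) :=
    Inv_concave (by linarith) (by norm_num) (XGf_convex hN hx hz hc hX)
  refine ⟨convex_Icc _ _, fun s hs t ht α β hα hβ hαβ => ?_⟩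
  have h1 := h0.2 (mem_univ s) (mem_univ t) hα hβ hαβ
  have h2 := hc.2 (x := -s) (y := -t) ⟨by linarith [hs.2], by linarith [hs.1]⟩
    ⟨by linarith [ht.2], by linarith [ht.1]⟩ hα hβ hαβ
  simp only [smul_eq_mul, ZPf] at *
  rw [show α * -s + β * -t = -(α * s + β * t) by ring] at h2
  have := mul_le_mul_of_nonneg_left h1 hN.le
  nlinarith

theorem ZGf_top (hN : 0 < N) (hx : 0 < x) (hz : x + z ≤ 8 * z) (hFz : F z = (N + 1) * x)
    {X : ℝ → ℝ} (hX : Adm x z X) : ZGf F X N x z x = z := by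
  refine Inv_top (by linarith) (by norm_num) ?_
  rw [XGf, hFz, hX.2.2, div_le_iff₀ hN]
  linarith

theorem exists_fix (hN : 0 < N) (hx : 0 < x) (hz : x + z ≤ 8 * z) (hz' : x + z ≤ 10 * x)
    (hj : 0 ≤ j) (hc : ConvexOn ℝ (Icc (-x) z) F) (hFz : F z = (N + 1) * x)
    (hFx : F (-x) = (N + 1) * (2 * x + z) - j) :
    ∃ X, Adm x z X ∧ TTf F X N x z = X := by
  have hm : x - (x + z) / 10 ≤ x := by linarith
  have hm' : z - (x + z) / 8 ≤ z := by linarith
  have hT : ∀ X, Adm x z X → Adm x z (TTf F X N x z) := by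
    intro X hX
    refine ⟨Inv_concave hm (by norm_num) (ZPf_convex hN hx hz hc hX),
      Inv_slope hm (by norm_num), Inv_top hm (by norm_num) ?_⟩
    rw [ZPf, ZGf_top hN hx hz hFz hX, hFx]
    linarith
  have hmono : ∀ X X' : ℝ → ℝ, (∀ t, X t ≤ X' t) → ∀ t, TTf F X N x z t ≤ TTf F X' N x z t := by
    intro X X' h
    refine Inv_anti hm (by norm_num) fun y _ _ => ?_
    have : ZGf F X N x z y ≤ ZGf F X' N x z y :=
      Inv_anti hm' (by norm_num) (fun t _ _ =>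
        div_le_div_of_nonneg_right (by linarith [h t]) hN.le) y
    have := mul_le_mul_of_nonneg_left this hN.le
    simp only [ZPf]
    linarith
  let S : Set (ℝ → ℝ) := {X | Adm x z X ∧ ∀ t, TTf F X N x z t ≤ X t}
  have hS : (fun _ => x) ∈ S :=
    ⟨⟨concaveOn_const _ convex_univ, fun s t h => ⟨by simp, by simp; linarith⟩, rfl⟩,
      fun t => Inv_le_top hm (by norm_num) t⟩
  let X0 : ℝ → ℝ := fun t => sInf ((fun X => X t) '' S)
  have hle : ∀ X ∈ S, ∀ t, X0 t ≤ X t := by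
    intro X hX t
    refine csInf_le ⟨x - |z - t| / 10, ?_⟩ ⟨X, hX, rfl⟩
    rintro _ ⟨Y, hY, rfl⟩
    have e := hY.1.2.2
    simp only
    rcases le_total t z with h | h
    · have := (hY.1.2.1 t z h).2
      rw [abs_of_nonneg (by linarith)]
      linarith
    · have := (hY.1.2.1 z t h).1
      have := abs_nonneg (z - t)
      linarith
  have hge : ∀ t w, (∀ X ∈ S, w ≤ X t) → w ≤ X0 t := by
    intro t w h
    refine le_csInf ⟨_, ⟨_, hS, rfl⟩⟩ ?_
    rintro _ ⟨Y, hY, rfl⟩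
    exact h Y hY
  have hX0 : Adm x z X0 := by
    refine ⟨⟨convex_univ, fun s _ t _ α β hα hβ hαβ => hge _ _ fun X hX => ?_⟩,
      fun s t h => ⟨?_, ?_⟩, le_antisymm (hle _ hS z) (hge _ _ fun X hX => hX.1.2.2.ge)⟩
    · refine le_trans ?_ (hX.1.1.2 (mem_univ s) (mem_univ t) hα hβ hαβ)
      simp only [smul_eq_mul]
      exact add_le_add (mul_le_mul_of_nonneg_left (hle X hX s) hα)
        (mul_le_mul_of_nonneg_left (hle X hX t) hβ)
    · rw [sub_nonneg]
      exact hge _ _ fun X hX => by linarith [hle X hX s, (hX.1.2.1 s t h).1]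
    · have : X0 t - (t - s) / 10 ≤ X0 s :=
        hge _ _ fun X hX => by linarith [hle X hX t, (hX.1.2.1 s t h).2]
      linarith
  have h1 : ∀ t, TTf F X0 N x z t ≤ X0 t := fun t =>
    hge _ _ fun X hX => (hmono X0 X (hle X hX) t).trans (hX.2 t)
  exact ⟨X0, hX0, funext fun t => le_antisymm (h1 t) (hle _ ⟨hT _ hX0, hmono _ _ h1⟩ t)⟩

/-- the system of chord maps of one step -/
structure Sys (N x z j : ℝ) (F X XG ZG Z : ℝ → ℝ) (xb : ℝ) : Prop where
  cX : Continuous X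
  cXG : Continuous XG
  cZG : Continuous ZG
  cZ : Continuous Z
  concX : ConcaveOn ℝ univ X
  sX : ∀ s t, s ≤ t → 0 ≤ X t - X s ∧ X t - X s ≤ (t - s) / 10
  Xz : X z = x
  eR : ∀ t, F t = N * XG t + X t
  eL : ∀ y, F (-y) = 2 * (N + 1) * y + N * ZG y + Z y
  sXG : ∀ s t, z - (x + z) / 8 ≤ s → s ≤ t → t ≤ z → 4 / 5 * (t - s) ≤ XG t - XG s
  sZG : ∀ s t, s ≤ t → 0 ≤ ZG t - ZG s ∧ ZG t - ZG s ≤ (t - s) / (4 / 5)
  XGz : XG z = x
  ZGx : ZG x = z
  inv1 : ∀ y, x - (x + z) / 10 ≤ y → y ≤ x → z - (x + z) / 8 ≤ ZG y ∧ ZG y ≤ z ∧ XG (ZG y) = y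
  inv2 : ∀ t, z - (x + z) / 8 ≤ t → t ≤ z → ZG (XG t) = t
  xb1 : x - (x + z) / 10 ≤ xb
  xb2 : xb ≤ x
  min : ∀ y, x - (x + z) / 10 ≤ y → y ≤ x → Z xb - 10 * xb ≤ Z y - 10 * y
  sZ : ∀ s t, xb ≤ s → s ≤ t → t ≤ x → 10 * (t - s) ≤ Z t - Z s
  Zx : Z x = z - j
  XZ : ∀ y, xb ≤ y → y ≤ x → X (Z y) = y
  ZX : ∀ t, Z xb ≤ t → t ≤ Z x → xb ≤ X t ∧ Z (X t) = t
  Xtop : ∀ t, Z x ≤ t → X t = x
  Xlow : ∀ t, t ≤ Z xb → X t = xb - (Z xb - t) / 10

theorem exists_sys (hN : 0 < N) (hx : 0 < x) (hz : x + z ≤ 8 * z) (hz' : x + z ≤ 10 * x)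
    (hj : 0 ≤ j) (hF : Continuous F) (hc : ConvexOn ℝ (Icc (-x) z) F)
    (hR : ∀ s t, 0 ≤ s → s ≤ t → t ≤ z → (4 / 5 * N + 1 / 10) * (t - s) ≤ F t - F s)
    (hFz : F z = (N + 1) * x) (hFx : F (-x) = (N + 1) * (2 * x + z) - j) :
    ∃ X XG ZG Z xb, Sys N x z j F X XG ZG Z xb := by
  obtain ⟨X, hX, hfix⟩ := exists_fix hN hx hz hz' hj hc hFz hFx
  have hm : x - (x + z) / 10 ≤ x := by linarith
  have hm' : z - (x + z) / 8 ≤ z := by linarith
  have cX : Continuous X := continuous_of_slope hX.2.1 (by norm_num)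
  have cXG : Continuous (XGf F X N) := (hF.sub cX).div_const N
  have cZG : Continuous (ZGf F X N x z) := Inv_continuous hm' (by norm_num)
  have cZ : Continuous (ZPf F X N x z) :=
    ((hF.comp continuous_neg).sub (continuous_const.mul continuous_id)).sub
      (continuous_const.mul cZG)
  have sXG : ∀ s t, z - (x + z) / 8 ≤ s → s ≤ t → t ≤ z →
      4 / 5 * (t - s) ≤ XGf F X N t - XGf F X N s := by
    intro s t h1 h2 h3
    simp only [XGf]
    rw [← sub_div, le_div_iff₀ hN]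
    linarith [hR s t (by linarith) h2 h3, (hX.2.1 s t h2).2]
  have XGz : XGf F X N z = x := by
    rw [XGf, hFz, hX.2.2, div_eq_iff hN.ne']
    ring
  have ZGx := ZGf_top hN hx hz hFz hX
  obtain ⟨xb, hxb, hmin⟩ := (isCompact_Icc (a := x - (x + z) / 10) (b := x)).exists_isMinOn
    (nonempty_Icc.2 hm) (f := fun y => ZPf F X N x z y - 10 * y)
    (cZ.sub (continuous_const.mul continuous_id)).continuousOn
  have hmin' : ∀ y, x - (x + z) / 10 ≤ y → y ≤ x →
      ZPf F X N x z xb - 10 * xb ≤ ZPf F X N x z y - 10 * y := fun y h1 h2 => hmin ⟨h1, h2⟩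
  have sZ : ∀ s t, xb ≤ s → s ≤ t → t ≤ x →
      10 * (t - s) ≤ ZPf F X N x z t - ZPf F X N x z s := by
    intro s t h1 h2 h3
    rcases (h1.trans h2).eq_or_lt with h4 | h4
    · obtain rfl : s = t := le_antisymm h2 (h4 ▸ h1)
      simp
    have h7 : 0 < t - xb := sub_pos.2 h4
    have h5 := (ZPf_convex hN hx hz hc hX).2 hxb (⟨hxb.1.trans h4.le, h3⟩ : t ∈ Icc _ _)
      (show 0 ≤ (t - s) / (t - xb) from div_nonneg (by linarith) (by linarith))
      (show 0 ≤ (s - xb) / (t - xb) from div_nonneg (by linarith) (by linarith))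
      (by field_simp; ring)
    have h6 := hmin' t (hxb.1.trans h4.le) h3
    simp only [smul_eq_mul] at h5
    rw [show (t - s) / (t - xb) * xb + (s - xb) / (t - xb) * t = s by field_simp; ring,
      div_mul_eq_mul_div, div_mul_eq_mul_div, ← add_div, le_div_iff₀ h7] at h5
    have h8 := mul_le_mul_of_nonneg_left h6 (sub_nonneg.2 h2)
    refine le_of_mul_le_mul_right ?_ h7
    nlinarith
  have e : ∀ t, X t = Inv (ZPf F X N x z) (x - (x + z) / 10) x 10 t := fun t =>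
    (congrFun hfix t).symm
  refine ⟨X, XGf F X N, ZGf F X N x z, ZPf F X N x z, xb, cX, cXG, cZG, cZ, hX.1, hX.2.1, hX.2.2,
    fun t => ?_, fun y => ?_, sXG, Inv_slope hm' (by norm_num), XGz, ZGx, fun y h1 h2 => ?_,
    fun t h1 h2 => Inv_apply (by norm_num) h1 h2 fun y h3 h4 => sXG t y h1 h3 h4,
    hxb.1, hxb.2, hmin', sZ, ?_, fun y h1 h2 => ?_, fun t h1 h2 => ?_, fun t h => ?_,
    fun t h => ?_⟩
  · rw [XGf]; field_simp; ring
  · rw [ZPf]; ring
  · have := Inv_range (u := z - (x + z) / 8) (by norm_num : (0 : ℝ) < 4 / 5) cXG le_rfl hm' sXG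
      (t := y) (by linarith [sXG _ z le_rfl hm' le_rfl]) (by rw [XGz]; exact h2)
    exact ⟨this.1, Inv_le_top hm' (by norm_num) y, this.2⟩
  · rw [ZPf, ZGx, hFx]; ring
  · rw [e]
    exact Inv_apply (by norm_num) (hxb.1.trans h1) h2 fun y' h3 h4 => sZ y y' h1 h3 h4
  · rw [e]
    exact Inv_range (by norm_num) cZ hxb.1 hxb.2 sZ h1 h2
  · rw [e]
    exact Inv_top hm (by norm_num) h
  · rw [e]
    exact Inv_below (by norm_num) hxb.1 hxb.2 hmin' h

end Pool.Agent.P.MP_8707bd_ag.Nag
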