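import Mathlib

/-!
The mass inequality (helper file only).
-/

namespace Pool.Agent.P.MP_8707bd_ag.Nag

open Set intervalIntegral

theorem int_pos {A c v : ℝ} (h1 : A ≤ c) (h2 : A ≤ v) :
    ∫ s in A..v, max (s - c) 0 = max (v - c) 0 ^ 2 / 2 := by
  have hc : Continuous fun s : ℝ => max (s - c) 0 := by fun_prop
  have z : ∀ w, A ≤ w → w ≤ c → ∫ s in A..w, max (s - c) 0 = 0 := by
    intro w h3 h4
    rw [integral_congr (g := fun _ => 0)]
    · simp
    · intro s hs
      rw [uIcc_of_le h3] at hs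
      exact max_eq_right (by linarith [hs.2])
  rcases le_total v c with h | h
  · rw [z v h2 h, max_eq_right (by linarith)]
    simp
  · rw [← integral_add_adjacent_intervals (hc.intervalIntegrable A c) (hc.intervalIntegrable c v),
      z c h1 le_rfl, max_eq_left (by linarith), integral_congr (g := fun s => s - c)]
    · rw [integral_sub (by simp) (by simp)]
      simp
      ring
    · intro s hs
      rw [uIcc_of_le h] at hs
      exact max_eq_left (by linarith [hs.1])

theorem int_neg {B c v : ℝ} (h1 : c ≤ B) (h2 : v ≤ B) :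
    ∫ s in v..B, max (c - s) 0 = max (c - v) 0 ^ 2 / 2 := by
  have := int_pos (A := -B) (c := -c) (v := -v) (by linarith) (by linarith)
  rw [← integral_comp_neg fun s => max (s - -c) 0] at this
  simp only [sub_neg_eq_add] at this
  simp only [sub_eq_neg_add]
  exact this

theorem int_lin (A B α β : ℝ) : ∫ s in A..B, (α + β * s) = α * (B - A) + β * (B ^ 2 - A ^ 2) / 2 := by
  rw [integral_add (by simp) (Continuous.intervalIntegrable (by fun_prop) _ _),
    integral_const_mul, integral_id]
  simp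
  ring

theorem sq_max (t : ℝ) : max t 0 ^ 2 + max (-t) 0 ^ 2 = t ^ 2 := by
  rcases le_total t 0 with h | h
  · rw [max_eq_right h, max_eq_left (by linarith)]; ring
  · rw [max_eq_left h, max_eq_right (by linarith)]; ring

theorem max_neg (t : ℝ) : max t 0 = t + max (-t) 0 := by
  rcases le_total t 0 with h | h
  · rw [max_eq_right h, max_eq_left (by linarith)]; ring
  · rw [max_eq_left h, max_eq_right (by linarith)]; ring

theorem secant {φ : ℝ → ℝ} {A B a b c : ℝ} (hc : ConvexOn ℝ (Icc A B) φ) (h1 : A ≤ a) (h2 : a ≤ b)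
    (h3 : b ≤ c) (h4 : c ≤ B) : (c - a) * φ b ≤ (c - b) * φ a + (b - a) * φ c := by
  rcases (h2.trans h3).eq_or_lt with h | h
  · obtain rfl : b = c := le_antisymm h3 (h ▸ h2)
    subst h
    simp
  have h7 : 0 < c - a := sub_pos.2 h
  have h5 := hc.2 (⟨h1, h.le.trans h4⟩ : a ∈ Icc A B) (⟨h1.trans h.le, h4⟩ : c ∈ Icc A B)
    (show 0 ≤ (c - b) / (c - a) from div_nonneg (by linarith) (by linarith))
    (show 0 ≤ (b - a) / (c - a) from div_nonneg (by linarith) (by linarith))
    (by field_simp; ring)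
  simp only [smul_eq_mul] at h5
  rw [show (c - b) / (c - a) * a + (b - a) / (c - a) * c = b by field_simp; ring,
    div_mul_eq_mul_div, div_mul_eq_mul_div, ← add_div, le_div_iff₀ h7] at h5
  linarith

theorem mass_core {Ψ : ℝ → ℝ} {N xb zb y z q ω : ℝ} (hy : 0 < y) (hyx : y < xb) (hz : 0 < z)
    (hzz : z < zb) (hq1 : -y ≤ q) (hq2 : q ≤ 0) (hω1 : y / 3 ≤ ω) (hω2 : ω ≤ y)
    (hΨ : Continuous Ψ)
    (hc : ConvexOn ℝ (Icc (-xb) zb) fun s => Ψ s - 600 * max s 0 - 500 * max (s + ω) 0)
    (h1 : Ψ (-xb) = N * (2 * xb + zb) + 121 / 10 * (q + xb))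
    (h2 : N * (2 * y + z) + 121 / 10 * (q + y) ≤ Ψ (-y)) (h3 : Ψ z = N * y) (h4 : Ψ zb = N * xb) :
    N * y * (y + z) < ∫ s in (-y)..z, (Ψ s - 121 / 10 * max (q - s) 0) := by
  obtain ⟨a, ha⟩ : ∃ a, a = zb - z := ⟨_, rfl⟩
  obtain ⟨b, hb⟩ : ∃ b, b = xb - y := ⟨_, rfl⟩
  have ha0 : 0 < a := by linarith
  have hb0 : 0 < b := by linarith
  obtain ⟨v, hv⟩ : ∃ v, v = -y + (y + z) * (b / (a + b)) := ⟨_, rfl⟩
  have hr0 : 0 ≤ b / (a + b) := by positivity
  have hr1 : b / (a + b) ≤ 1 := by rw [div_le_one (by positivity)]; linarith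
  have hv1 : -y ≤ v := by nlinarith
  have hv2 : v ≤ z := by nlinarith
  have hg : Continuous fun s => Ψ s - 121 / 10 * max (q - s) 0 := by fun_prop
  have hL : ∀ s ∈ Icc (-y) v, (N * (2 * y + z) - N * (2 + a / b) * y + -(N * (2 + a / b)) * s) -
      121 / 10 * max (s - q) 0 + 600 * max (s - 0) 0 + 500 * max (s - -ω) 0 ≤
      Ψ s - 121 / 10 * max (q - s) 0 := by
    intro s hs
    have k := secant hc (a := -xb) (b := -y) (c := s) le_rfl (by linarith) hs.1
      (by linarith [hs.2])
    rw [max_eq_right (by linarith : -y ≤ 0), max_eq_right (by linarith : -y + ω ≤ 0),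
      max_eq_right (by linarith : -xb ≤ 0), max_eq_right (by linarith : -xb + ω ≤ 0), h1] at k
    have k2 := mul_le_mul_of_nonneg_left h2 (by linarith [hs.1] : 0 ≤ s - -xb)
    rw [max_neg (s - q), neg_sub, sub_zero, sub_neg_eq_add]
    refine le_of_mul_le_mul_left ?_ hb0
    have e1 : xb = y + b := by linarith
    have e2 : zb = z + a := by linarith
    subst e1 e2
    have e3 : b * (N * (2 + a / b)) = N * (2 * b + a) := by field_simp
    linear_combination k + k2 - (s + y) * e3
  have hR : ∀ s ∈ Icc v z, (N * y - N * (b / a) * z + N * (b / a) * s) -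
      121 / 10 * max (q - s) 0 + 600 * max (0 - s) 0 + 500 * max (-ω - s) 0 ≤
      Ψ s - 121 / 10 * max (q - s) 0 := by
    intro s hs
    have k := secant hc (a := s) (b := z) (c := zb) (by linarith [hs.1]) hs.2 hzz.le le_rfl
    rw [max_eq_left (by linarith : 0 ≤ z), max_eq_left (by linarith : 0 ≤ z + ω),
      max_eq_left (by linarith : 0 ≤ zb), max_eq_left (by linarith : 0 ≤ zb + ω), h3, h4,
      max_neg s, max_neg (s + ω)] at k
    rw [zero_sub, show -ω - s = -(s + ω) by ring]
    refine le_of_mul_le_mul_left ?_ ha0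
    have e1 : xb = y + b := by linarith
    have e2 : zb = z + a := by linarith
    subst e1 e2
    have e3 : a * (N * (b / a)) = N * b := by field_simp
    linear_combination k + (s - z) * e3
  have iL := integral_mono_on hv1 (Continuous.intervalIntegrable (μ := MeasureTheory.volume)
    (by fun_prop) _ _) (hg.intervalIntegrable _ _) hL
  have iR := integral_mono_on hv2 (Continuous.intervalIntegrable (μ := MeasureTheory.volume)
    (by fun_prop) _ _) (hg.intervalIntegrable _ _) hR
  rw [integral_add, integral_add, integral_sub, integral_const_mul, integral_const_mul,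
    integral_const_mul, int_lin] at iL iR
  · rw [int_pos hq1 hv1, int_pos (by linarith) hv1, int_pos (by linarith) hv1] at iL
    rw [int_neg (by linarith) hv2, int_neg hz.le hv2, int_neg (by linarith) hv2] at iR
    rw [← integral_add_adjacent_intervals (hg.intervalIntegrable (-y) v)
      (hg.intervalIntegrable v z)]
    have s1 := sq_max (v - q)
    have s2 := sq_max (v - 0)
    have s3 := sq_max (v - -ω)
    rw [neg_sub] at s1 s2 s3
    have e : (N * (2 * y + z) - N * (2 + a / b) * y) * (v - -y) +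
        -(N * (2 + a / b)) * (v ^ 2 - (-y) ^ 2) / 2 + ((N * y - N * (b / a) * z) * (z - v) +
        N * (b / a) * (z ^ 2 - v ^ 2) / 2) = N * y * (y + z) := by
      rw [hv]
      field_simp
      ring
    have q1 : (v - q) ^ 2 ≤ 2 * v ^ 2 + 2 * y ^ 2 := by nlinarith [sq_nonneg (v + q)]
    have q2 : ω ^ 2 ≤ 2 * v ^ 2 + 2 * (v - -ω) ^ 2 := by nlinarith [sq_nonneg (2 * v + ω)]
    have q3 : (y / 3) ^ 2 ≤ ω ^ 2 := pow_le_pow_left₀ (by linarith) hω1 2
    have q4 : 0 < y ^ 2 := by positivity
    nlinarith [sq_nonneg v]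
  all_goals exact Continuous.intervalIntegrable (by fun_prop) _ _

end Pool.Agent.P.MP_8707bd_ag.Nag
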