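import Mathlib
import Pool.Agent.P.MP_8707bd_ag.Nag.StepA
import Pool.Agent.P.MP_8707bd_ag.Nag.StepB

/-!
The peeled point closes its chord (helper file only).
-/

namespace Pool.Agent.P.MP_8707bd_ag.Nag

open Set intervalIntegral

variable {N x z j σ xb : ℝ} {F X XG ZG Z : ℝ → ℝ}

theorem Sys.youngG (S : Sys N x z j F X XG ZG Z xb) {y y' : ℝ} (h1 : x - (x + z) / 10 ≤ y)
    (h2 : y ≤ y') (h3 : y' ≤ x) :
    (∫ t in ZG y..ZG y', XG t) + ∫ s in y..y', ZG s = ZG y' * y' - ZG y * y := by
  obtain ⟨a1, -, a3⟩ := S.inv1 y h1 (h2.trans h3)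
  obtain ⟨-, b2, b3⟩ := S.inv1 y' (h1.trans h2) h3
  have := young (f := XG) (g := ZG) (a := ZG y) (b := ZG y') (by linarith [(S.sZG y y' h2).1])
    S.cXG (fun s t c1 c2 c3 => by linarith [S.sXG s t (a1.trans c1) c2 (c3.trans b2)]) S.cZG
    (fun s t h => by linarith [(S.sZG s t h).1])
    fun t c1 c2 => S.inv2 t (a1.trans c1) (c2.trans b2)
  rwa [a3, b3] at this

theorem Sys.mass (S : Sys N x z j F X XG ZG Z xb) (hF : Continuous F) (hj : 0 ≤ j)
    (hM : ∫ t in (-x)..z, F t = (N + 1) * x * (x + z) + σ) {y : ℝ} (h1 : xb ≤ y) (h2 : y ≤ x) :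
    ∫ t in (-y)..ZG y, F t =
      σ + (N + 1) * y ^ 2 + N * y * ZG y + y * Z y + ∫ t in Z y..ZG y, X t := by
  have cZG := S.cZG
  have cZ := S.cZ
  have cXG := S.cXG
  have cX := S.cX
  have y1 := S.youngG (S.xb1.trans h1) h2 le_rfl
  have y2 := young (f := Z) (g := X) (a := y) (b := x) h2 S.cZ
    (fun s t c1 c2 c3 => by linarith [S.sZ s t (h1.trans c1) c2 c3]) S.cX
    (fun s t h => by linarith [(S.sX s t h).1]) fun t c1 c2 => S.XZ t (h1.trans c1) c2
  have y3 : ∫ t in Z x..z, X t = j * x := by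
    rw [integral_congr (g := fun _ => x)]
    · simp [S.Zx]
    · intro t ht
      rw [uIcc_of_le (by linarith [S.Zx])] at ht
      exact S.Xtop t ht.1
  have e1 : ∫ t in (-x)..(-y), F t =
      (N + 1) * (x ^ 2 - y ^ 2) + N * (∫ s in y..x, ZG s) + ∫ s in y..x, Z s := by
    rw [← integral_comp_neg]
    simp only [S.eL]
    rw [integral_add, integral_add, integral_const_mul, integral_const_mul, integral_id]
    · ring
    all_goals exact Continuous.intervalIntegrable (by fun_prop) _ _
  have e2 : ∫ t in ZG y..z, F t = N * (∫ t in ZG y..z, XG t) + ∫ t in ZG y..z, X t := by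
    simp only [S.eR]
    rw [integral_add, integral_const_mul]
    all_goals exact Continuous.intervalIntegrable (by fun_prop) _ _
  have e3 := integral_add_adjacent_intervals (μ := MeasureTheory.volume)
    (hF.intervalIntegrable (-x) (-y)) (hF.intervalIntegrable (-y) (ZG y))
  have e4 := integral_add_adjacent_intervals (μ := MeasureTheory.volume)
    (hF.intervalIntegrable (-x) (ZG y)) (hF.intervalIntegrable (ZG y) z)
  have e5 := integral_add_adjacent_intervals (μ := MeasureTheory.volume)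
    (cX.intervalIntegrable (Z y) (Z x)) (cX.intervalIntegrable (Z x) z)
  have e6 := integral_add_adjacent_intervals (μ := MeasureTheory.volume)
    (cX.intervalIntegrable (Z y) (ZG y)) (cX.intervalIntegrable (ZG y) z)
  rw [S.ZGx] at y1
  have e7 := S.Zx
  linear_combination e3 + e4 + hM - e1 - e2 - N * y1 - y2 - y3 + e5 - e6 - x * e7

theorem Sys.close (S : Sys N x z j F X XG ZG Z xb) (hF : Continuous F) (hx : 0 < x)
    (hb1 : 4 / 5 * x ≤ z) (hb2 : z ≤ 5 / 4 * x) (hj : 0 ≤ j) (hσ : σ ≤ 0)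
    (hK : ∀ t, x / 2 ≤ t → t ≤ x → ∃ ω, t / 3 ≤ ω ∧ ω ≤ t ∧
      ConvexOn ℝ (Icc (-x) z) fun s => F s - 600 * max s 0 - 500 * max (s + ω) 0)
    (hM : ∫ t in (-x)..z, F t = (N + 1) * x * (x + z) + σ) : Z xb ≤ -xb := by
  by_contra hcon
  rw [not_le] at hcon
  have cZG := S.cZG
  have cZ := S.cZ
  have cXG := S.cXG
  have cX := S.cX
  have hxb1 := S.xb1
  have hxb2 := S.xb2
  have t1 := S.sZ xb x le_rfl hxb2 le_rfl
  rw [S.Zx] at t1
  have hlt : x - (x + z) / 10 < xb := by linarith
  obtain ⟨q, hq⟩ : ∃ q, q = -xb + (xb + Z xb) / 11 := ⟨_, rfl⟩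
  obtain ⟨y, hy⟩ : ∃ y, y = max (x - (x + z) / 10) (-q) := ⟨_, rfl⟩
  have y1 : x - (x + z) / 10 ≤ y := hy ▸ le_max_left _ _
  have y2 : -q ≤ y := hy ▸ le_max_right _ _
  have y3 : y < xb := hy ▸ max_lt hlt (by linarith)
  obtain ⟨ω, w1, w2, w3⟩ := hK y (by linarith) (by linarith)
  obtain ⟨a1, a2, a3⟩ := S.inv1 y y1 (by linarith)
  obtain ⟨b1, b2, b3⟩ := S.inv1 xb hxb1 hxb2
  have hzz : ZG y < ZG xb := by
    refine lt_of_le_of_ne (by linarith [(S.sZG y xb y3.le).1]) fun h => ?_
    rw [h] at a3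
    linarith
  have low : ∀ s, y ≤ s → s ≤ xb →
      N * (2 * s + ZG s) + 121 / 10 * (q + s) ≤ F (-s) - X (-s) := by
    intro s c1 c2
    rw [S.eL, S.Xlow (-s) (by linarith)]
    linarith [S.min s (y1.trans c1) (c2.trans hxb2)]
  have core := mass_core (Ψ := fun s => F s - X s) (N := N) (xb := xb) (zb := ZG xb) (y := y)
    (z := ZG y) (q := q) (ω := ω) (by linarith) y3 (by linarith) hzz (by linarith) (by linarith)
    w1 w2 (hF.sub cX) ?_ ?_ (low y le_rfl y3.le) ?_ ?_
  rotate_left
  · have := (w3.subset (Icc_subset_Icc (by linarith : -x ≤ -xb) b2) (convex_Icc _ _)).sub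
      (S.concX.subset (subset_univ _) (convex_Icc _ _))
    refine this.congr fun s _ => ?_
    simp only [Pi.sub_apply]
    ring
  · rw [S.eL, S.Xlow (-xb) (by linarith), hq]
    ring
  · rw [S.eR, a3]
    ring
  · rw [S.eR, b3]
    ring
  have hg : Continuous fun s => F s - X s - 121 / 10 * max (q - s) 0 := by fun_prop
  have m1 := S.mass hF hj hM le_rfl hxb2
  have m2 : ∫ s in (-xb)..Z xb, X s = xb * (xb + Z xb) - (xb + Z xb) ^ 2 / 20 := by
    rw [integral_congr (g := fun s => (xb - Z xb / 10) + 1 / 10 * s), int_lin]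
    · ring
    · intro s hs
      rw [uIcc_of_le hcon.le] at hs
      simp only
      rw [S.Xlow s hs.2]
      ring
  have m3 := integral_add_adjacent_intervals (μ := MeasureTheory.volume)
    (cX.intervalIntegrable (-xb) (Z xb)) (cX.intervalIntegrable (Z xb) (ZG xb))
  have m4 : ∫ s in (-xb)..ZG xb, (F s - X s - 121 / 10 * max (q - s) 0) =
      σ + N * xb * (xb + ZG xb) := by
    rw [integral_sub, integral_sub, integral_const_mul, int_neg (by linarith) (by linarith),
      max_eq_left (by linarith), m1, ← m3, m2, hq]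
    · ring
    all_goals exact Continuous.intervalIntegrable (by fun_prop) _ _
  have m5 : N * (xb ^ 2 - y ^ 2) + N * ∫ s in y..xb, ZG s ≤
      ∫ s in (-xb)..(-y), (F s - X s - 121 / 10 * max (q - s) 0) := by
    rw [← integral_comp_neg]
    refine le_trans (le_of_eq ?_) (integral_mono_on (f := fun s => 2 * N * s + N * ZG s) y3.le
      (Continuous.intervalIntegrable (by fun_prop) _ _)
      (Continuous.intervalIntegrable (by fun_prop) _ _) fun s hs => ?_)
    · rw [integral_add, integral_const_mul, integral_const_mul, integral_id]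
      · ring
      all_goals exact Continuous.intervalIntegrable (by fun_prop) _ _
    · rw [max_eq_left (by linarith [hs.1])]
      linarith [low s hs.1 hs.2]
  have m6 : ∫ s in ZG y..ZG xb, (F s - X s - 121 / 10 * max (q - s) 0) =
      N * ∫ s in ZG y..ZG xb, XG s := by
    rw [← integral_const_mul]
    refine integral_congr fun s hs => ?_
    rw [uIcc_of_le hzz.le] at hs
    rw [max_eq_right (by linarith [hs.1]), S.eR]
    ring
  have m7 := integral_add_adjacent_intervals (μ := MeasureTheory.volume)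
    (hg.intervalIntegrable (-xb) (-y)) (hg.intervalIntegrable (-y) (ZG y))
  have m8 := integral_add_adjacent_intervals (μ := MeasureTheory.volume)
    (hg.intervalIntegrable (-xb) (ZG y)) (hg.intervalIntegrable (ZG y) (ZG xb))
  have m9 := congrArg (N * ·) (S.youngG y1 y3.le hxb2)
  nlinarith

end Pool.Agent.P.MP_8707bd_ag.Nag
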