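import Mathlib
import Pool.Agent.P.MP_8707bd_ag.Nag.StepC
import Pool.Agent.P.MP_8707bd_ag.Nag.Lift

/-!
One peeling step (helper file only).
-/

namespace Pool.Agent.P.MP_8707bd_ag.Nag

open Set

/-- iterates defining the price -/
noncomputable def pot (Θ φ : ℝ → ℝ) : ℕ → ℝ → ℝ
  | 0 => fun _ => 0
  | k + 1 => fun y => φ y + pot Θ φ k (Θ y)

theorem exists_pot {a b c : ℝ} {Θ φ : ℝ → ℝ} (hab : a ≤ b) (hc : 0 < c)
    (h1 : ∀ y, a ≤ y → y ≤ b → a ≤ Θ y ∧ Θ y ≤ max a (y - c))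
    (h2 : ∀ s t, a ≤ s → s ≤ t → t ≤ b → Θ s ≤ Θ t) (h3 : φ a = 0)
    (h4 : ∀ s t, a ≤ s → s ≤ t → t ≤ b → φ s ≤ φ t) :
    ∃ g : ℝ → ℝ, g a = 0 ∧ (∀ s t, a ≤ s → s ≤ t → t ≤ b → g s ≤ g t) ∧
      ∀ y, a ≤ y → y ≤ b → g y = φ y + g (Θ y) := by
  have hb : ∀ y, a ≤ y → y ≤ b → Θ y ≤ b := fun y c1 c2 =>
    (h1 y c1 c2).2.trans (max_le hab (by linarith))
  have ha : Θ a = a := le_antisymm ((h1 a le_rfl hab).2.trans (max_le le_rfl (by linarith)))
    (h1 a le_rfl hab).1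
  have k1 : ∀ k, pot Θ φ k a = 0 := by
    intro k
    induction k with
    | zero => rfl
    | succ k ih => simp only [pot, ha, h3, ih, add_zero]
  have k2 : ∀ k s t, a ≤ s → s ≤ t → t ≤ b → pot Θ φ k s ≤ pot Θ φ k t := by
    intro k
    induction k with
    | zero => exact fun _ _ _ _ _ => le_rfl
    | succ k ih =>
      exact fun s t c1 c2 c3 => add_le_add (h4 s t c1 c2 c3)
        (ih _ _ (h1 s c1 (c2.trans c3)).1 (h2 s t c1 c2 c3) (hb t (c1.trans c2) c3))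
  have k3 : ∀ k : ℕ, ∀ y, a ≤ y → y ≤ b → y ≤ a + k * c → pot Θ φ (k + 1) y = pot Θ φ k y := by
    intro k
    induction k with
    | zero =>
      intro y c1 _ c3
      obtain rfl : y = a := le_antisymm (by simpa using c3) c1
      rw [k1, k1]
    | succ k ih =>
      intro y c1 c2 c3
      have : 0 ≤ (k : ℝ) * c := by positivity
      push_cast at c3
      exact congrArg (φ y + ·) (ih _ (h1 y c1 c2).1 (hb y c1 c2)
        ((h1 y c1 c2).2.trans (max_le (by linarith) (by linarith))))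
  obtain ⟨k, hk⟩ := exists_nat_ge ((b - a) / c)
  rw [div_le_iff₀ hc] at hk
  refine ⟨pot Θ φ (k + 1), k1 _, k2 _, fun y c1 c2 => ?_⟩
  rw [k3 k (Θ y) (h1 y c1 c2).1 (hb y c1 c2) (by linarith [hb y c1 c2])]
  rfl

theorem step {p ν x z j σ : ℝ} {N : ℕ} {F : ℝ → ℝ} (hν : 1000 ≤ ν) (hN1 : 0 < N)
    (hN2 : (N : ℝ) ≤ 11 / 10 * ν) (hx : 0 < x) (hb1 : 4 / 5 * x ≤ z) (hb2 : z ≤ 5 / 4 * x)
    (hL : x + z ≤ 1) (hp : x ≤ p) (hj0 : 0 < j) (hj1 : j ≤ x + z) (hσ : σ ≤ 0)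
    (hF : Continuous F)
    (hK : ∀ t, x / 2 ≤ t → t ≤ x → ∃ ω, t / 3 ≤ ω ∧ ω ≤ t ∧
      ConvexOn ℝ (Icc (-x) z) fun s => F s - 600 * max s 0 - 500 * max (s + ω) 0)
    (hR : ∀ s t, 0 ≤ s → s ≤ t → t ≤ z → 9 / 10 * ν * (t - s) ≤ F t - F s)
    (hFz : F z = (N + 1) * x) (hFx : F (-x) = (N + 1) * (2 * x + z) - j)
    (hM : ∫ t in (-x)..z, F t = (N + 1) * x * (x + z) + σ) :
    ∃ (x1 z1 : ℝ) (X : ℝ → ℝ), 3 / 4 * x ≤ x1 ∧ x1 ≤ x ∧ 0 < z1 ∧ z1 ≤ z ∧ Continuous X ∧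
      ConcaveOn ℝ univ X ∧ (∀ s t, s ≤ t → 0 ≤ X t - X s ∧ X t - X s ≤ (t - s) / 10) ∧
      X z = x ∧ X (-x1) = x1 ∧ F z1 - X z1 = N * x1 ∧
      F (-x1) - X (-x1) = N * (2 * x1 + z1) ∧
      (∫ t in (-x1)..z1, (F t - X t)) = N * x1 * (x1 + z1) + σ ∧
      ∀ (h1 : ℝ → ℝ) (e e' : ℝ), Cov p (-x1) z1 N h1 e → 0 ≤ e → 0 ≤ e' →
        (∀ t, -x1 ≤ t → t ≤ z1 → |N * (1 - t) - (F t - X t) - h1 t| ≤ e') →
        Cov p (-x) z (N + 1) (fun t => (N + 1) * (1 - t) - F t) (e + e') := by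
  have hN : (0 : ℝ) < N := by exact_mod_cast hN1
  have hconv : ConvexOn ℝ (Icc (-x) z) F := by
    obtain ⟨ω, -, -, h⟩ := hK x (by linarith) le_rfl
    have k1 : ConvexOn ℝ (Icc (-x) z) fun s : ℝ => max s 0 :=
      (convexOn_id (convex_Icc _ _)).sup (convexOn_const 0 (convex_Icc _ _))
    have k2 : ConvexOn ℝ (Icc (-x) z) fun s : ℝ => max (s + ω) 0 :=
      ((convexOn_id (convex_Icc _ _)).add_const ω).sup (convexOn_const 0 (convex_Icc _ _))
    refine ((h.add (k1.smul (c := 600) (by norm_num))).add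
      (k2.smul (c := 500) (by norm_num))).congr fun s _ => ?_
    simp only [Pi.add_apply, smul_eq_mul]
    ring
  obtain ⟨X, XG, ZG, Z, xb, S⟩ := exists_sys hN hx (by linarith) (by linarith) hj0.le hF hconv
    (fun s t c1 c2 c3 => (mul_le_mul_of_nonneg_right (by linarith) (sub_nonneg.2 c2)).trans
      (hR s t c1 c2 c3)) hFz hFx
  have hcl := S.close hF hx hb1 hb2 hj0.le hσ hK hM
  have hZx := S.Zx
  obtain ⟨x1, ⟨x11, x12⟩, hx1⟩ := intermediate_value_Icc S.xb2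
    (continuous_id.add S.cZ).continuousOn
    (show (0 : ℝ) ∈ Icc _ _ from ⟨by simp only [Pi.add_apply, id]; linarith,
      by simp only [Pi.add_apply, id]; linarith⟩)
  simp only [Pi.add_apply, id] at hx1
  have hZ1 : Z x1 = -x1 := by linarith
  have xm := S.xb1
  obtain ⟨z11, z12, z13⟩ := S.inv1 x1 (xm.trans x11) x12
  obtain ⟨z1, hz1⟩ : ∃ z1, z1 = ZG x1 := ⟨_, rfl⟩
  rw [← hz1] at z11 z12 z13
  have hX1 : X (-x1) = x1 := by rw [← hZ1]; exact S.XZ x1 x11 x12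
  have hx10 : 0 < x1 := by linarith
  have hz10 : 0 < z1 := by linarith
  refine ⟨x1, z1, X, by linarith, x12, hz10, z12, S.cX, S.concX, S.sX, S.Xz, hX1, ?_, ?_, ?_, ?_⟩
  · rw [S.eR, z13]; ring
  · rw [S.eL, hX1, hZ1, ← hz1]; ring
  · rw [intervalIntegral.integral_sub (hF.intervalIntegrable _ _) (S.cX.intervalIntegrable _ _),
      hz1, S.mass hF hj0.le hM x11 x12, hZ1]
    ring
  intro h1 e e' inner he he' hin
  have XGm : ∀ s t, z1 ≤ s → s ≤ t → t ≤ z → 4 / 5 * (t - s) ≤ XG t - XG s :=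
    fun s t c1 c2 c3 => S.sXG s t (z11.trans c1) c2 c3
  have XGr : ∀ s, z1 ≤ s → s ≤ z → x1 ≤ XG s ∧ XG s ≤ x := fun s c1 c2 =>
    ⟨by linarith [XGm z1 s le_rfl c1 c2], by linarith [XGm s z c1 c2 le_rfl, S.XGz]⟩
  have Zm : ∀ s t, x1 ≤ s → s ≤ t → t ≤ x → 10 * (t - s) ≤ Z t - Z s :=
    fun s t c1 c2 c3 => S.sZ s t (x11.trans c1) c2 c3
  have Zr : ∀ s, x1 ≤ s → s ≤ x → -x1 ≤ Z s ∧ Z s ≤ z - j := fun s c1 c2 =>
    ⟨by linarith [Zm x1 s le_rfl c1 c2], by linarith [Zm s x c1 c2 le_rfl]⟩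
  have ZGr : ∀ s, x1 ≤ s → s ≤ x → z1 ≤ ZG s ∧ ZG s ≤ z ∧ XG (ZG s) = s := fun s c1 c2 =>
    ⟨by linarith [(S.sZG x1 s c1).1], (S.inv1 s (by linarith) c2).2⟩
  obtain ⟨g, g0, gm, ge⟩ := exists_pot (a := x1) (b := x) (c := 4 / 5 * j)
    (Θ := fun y => XG (max (Z y) z1)) (φ := fun y => y + Z y) x12 (by positivity)
    (fun y c1 c2 => by
      obtain ⟨d1, d2⟩ := Zr y c1 c2
      refine ⟨(XGr _ (le_max_right _ _) (max_le (by linarith) z12)).1, ?_⟩
      rcases le_total (Z y) z1 with h | h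
      · rw [max_eq_right h, z13]; exact le_max_left _ _
      · rw [max_eq_left h]
        refine le_trans ?_ (le_max_right _ _)
        obtain ⟨d3, d4, d5⟩ := ZGr y c1 c2
        have d6 := (S.sZG y x c2).2
        have d7 := Zm y x c1 c2 le_rfl
        rw [S.ZGx] at d6
        linarith [XGm (Z y) (ZG y) h (by linarith) d4])
    (fun s t c1 c2 c3 => by
      have d1 : max (Z s) z1 ≤ max (Z t) z1 := max_le_max (by linarith [Zm s t c1 c2 c3]) le_rfl
      linarith [XGm _ _ (le_max_right _ _) d1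
        (max_le (by linarith [(Zr t (c1.trans c2) c3).2]) z12)])
    hx1 (fun s t c1 c2 c3 => by linarith [Zm s t c1 c2 c3])
  have gR : ∀ s t, s ≤ t → t ≤ z → g (XG (max s z1)) ≤ g (XG (max t z1)) := by
    intro s t c1 c2
    have d1 : max s z1 ≤ max t z1 := max_le_max c1 le_rfl
    have d2 : max t z1 ≤ z := max_le c2 z12
    exact gm _ _ (XGr _ (le_max_right _ _) (d1.trans d2)).1
      (by linarith [XGm _ _ (le_max_right _ _) d1 d2]) (XGr _ (le_max_right _ _) d2).2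
  have gs : ∀ s t, x1 ≤ s → s < t → t ≤ x → g s < g t := by
    intro s t c1 c2 c3
    rw [ge s c1 (c2.le.trans c3), ge t (c1.trans c2.le) c3]
    have d1 := Zm s t c1 c2.le c3
    linarith [gR (Z s) (Z t) (by linarith) (by linarith [(Zr t (c1.trans c2.le) c3).2])]
  obtain ⟨G, Gl, Gr⟩ : ∃ G : ℝ → ℝ, (∀ t, t ≤ -x1 → G t = g (-t)) ∧
      ∀ t, -x1 ≤ t → G t = g (XG (max t z1)) := by
    refine ⟨fun t => if t ≤ -x1 then g (-t) else g (XG (max t z1)), fun t h => if_pos h,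
      fun t h => ?_⟩
    rcases h.eq_or_lt with h | h
    · subst h
      simp only [le_refl, if_true, neg_neg]
      rw [max_eq_right (by linarith), z13]
    · exact if_neg (not_le.2 h)
  have G0 : ∀ t, -x1 ≤ t → t ≤ z1 → G t = 0 := fun t c1 c2 => by
    rw [Gr t c1, max_eq_right c2, z13, g0]
  have Ganti : ∀ s t, -x ≤ s → s < t → t ≤ -x1 → G t < G s := fun s t c1 c2 c3 => by
    rw [Gl t c3, Gl s (by linarith)]
    exact gs _ _ (by linarith) (by linarith) (by linarith)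
  have Gr' : ∀ t, z1 ≤ t → G t = g (XG t) := fun t c1 => by
    rw [Gr t (by linarith), max_eq_left c1]
  have Gmono : ∀ s t, z1 ≤ s → s < t → t ≤ z → G s < G t := fun s t c1 c2 c3 => by
    rw [Gr' s c1, Gr' t (by linarith)]
    exact gs _ _ (XGr s c1 (by linarith)).1 (by linarith [XGm s t c1 c2.le c3])
      (XGr t (by linarith) c3).2
  have Gpos : ∀ t, -x ≤ t → t ≤ z → (t < -x1 ∨ z1 < t) → 0 < G t := by
    rintro t c1 c2 (h | h)
    · rw [← G0 (-x1) le_rfl (by linarith)]; exact Ganti _ _ c1 h le_rfl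
    · rw [← G0 z1 (by linarith) le_rfl]; exact Gmono _ _ le_rfl h c2
  have Pmono : ∀ s t, -x1 ≤ s → s < t → t ≤ z → G s + 1 * s < G t + 1 * t := by
    intro s t c1 c2 c3
    rw [Gr s c1, Gr t (by linarith)]
    linarith [gR s t c2.le c3]
  have Peq : ∀ s, x1 ≤ s → s ≤ x → G (-s) + 1 * -s = G (Z s) + 1 * Z s := by
    intro s c1 c2
    rw [Gl _ (by linarith), neg_neg, Gr _ (Zr s c1 c2).1, ge s c1 c2]
    ring
  have Panti : ∀ s t, -x ≤ s → s < t → t ≤ -x1 → G t + 1 * t < G s + 1 * s := by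
    intro s t c1 c2 c3
    have d1 := Peq (-t) (by linarith) (by linarith)
    have d2 := Peq (-s) (by linarith) (by linarith)
    rw [neg_neg] at d1 d2
    rw [d1, d2]
    exact Pmono _ _ (Zr _ (by linarith) (by linarith)).1
      (by linarith [Zm (-t) (-s) (by linarith) (by linarith) (by linarith)])
      (by linarith [(Zr (-s) (by linarith) (by linarith)).2])
  refine lift (ι := Unit) inner (by simp) (by linarith) (by linarith) z12 he he' G G0 Gpos
    (fun _ => 1) (fun _ y => if y ≤ -x1 then 1 - (-y + Z (-y)) else 1 - (y + X y))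
    (fun _ y c1 c2 => ?_)
    (fun y => if y ≤ 0 then 1 - (-y + ZG (-y)) else 1 - (y + XG y)) (fun y c1 c2 c3 => ?_)
    (fun y c1 c2 => ?_) fun y c1 c2 c3 => ?_
  · split_ifs with h
    · obtain ⟨d1, d2⟩ := Zr (-y) (by linarith) (by linarith)
      have d3 := Peq (-y) (by linarith) (by linarith)
      rw [neg_neg] at d3
      exact chord_of_V (a1 := -x1) (a2 := -x1) (α := y) (β := Z (-y)) le_rfl Panti
        (fun t a b => by rw [le_antisymm b a]) Pmono c1 h d1 (by linarith) le_rfl d3.ge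
        (fun a => absurd a (lt_irrefl _)) (by linarith) (by ring)
        (Or.inr ⟨Or.inl rfl, Or.inl d3.symm⟩)
    · have h' : -x1 ≤ y := (not_le.1 h).le
      have d1 : x1 ≤ X y := by linarith [(S.sX _ _ h').1]
      have d2 : X y ≤ x := by linarith [(S.sX _ _ c2).1, S.Xz]
      have d3 := Peq (X y) d1 d2
      have d4 : G (-X y) + 1 * -X y ≤ G y + 1 * y ∧
          (G (-X y) + 1 * -X y = G y + 1 * y ∨ -X y = -x) := by
        rcases le_or_gt y (Z x) with k | k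
        · rw [(S.ZX y (by linarith [S.sZ xb x1 le_rfl x11 x12]) k).2] at d3
          exact ⟨d3.le, Or.inl d3⟩
        · have d5 := S.Xtop y k.le
          refine ⟨d3.le.trans ?_, Or.inr (by rw [d5])⟩
          rw [d5]
          exact (Pmono _ _ (Zr x x12 le_rfl).1 k c2).le
      exact chord_of_V (a1 := -x1) (a2 := -x1) (α := -X y) (β := y) le_rfl Panti
        (fun t a b => by rw [le_antisymm b a]) Pmono (by linarith) (by linarith) h' c2 d4.1 le_rfl
        (fun a => absurd a (lt_irrefl _)) (by linarith) (by ring) (Or.inr ⟨d4.2, Or.inl rfl⟩)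
  · have hflat : ∀ t, -x1 ≤ t → t ≤ z1 → G t = G (-x1) := fun t a b => by
      rw [G0 t a b, G0 _ le_rfl (by linarith)]
    have hpos : -x1 < z1 → G (-x1) < G y := fun _ => by
      rw [G0 _ le_rfl (by linarith)]; exact Gpos y c1 c2 c3
    rcases c3 with h | h
    · rw [if_pos (by linarith)]
      obtain ⟨d1, d2, d3⟩ := ZGr (-y) (by linarith) (by linarith)
      have d4 : G (ZG (-y)) = G y := by rw [Gr' _ d1, d3, Gl y h.le]
      exact chord_of_V (a1 := -x1) (a2 := z1) (α := y) (β := ZG (-y)) (by linarith) Ganti hflat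
        Gmono c1 h.le d1 d2 le_rfl d4.le hpos (by linarith) (by ring)
        (Or.inr ⟨Or.inl rfl, Or.inl d4⟩)
    · rw [if_neg (by linarith)]
      obtain ⟨d1, d2⟩ := XGr y h.le c2
      have d4 : G (-XG y) = G y := by rw [Gr' _ h.le, Gl _ (by linarith), neg_neg]
      exact chord_of_V (a1 := -x1) (a2 := z1) (α := -XG y) (β := y) (by linarith) Ganti hflat
        Gmono (by linarith) (by linarith) h.le c2 d4.le le_rfl hpos (by linarith) (by ring)
        (Or.inr ⟨Or.inl d4, Or.inl rfl⟩)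
  · have : (if y ≤ -x1 then 1 - (-y + Z (-y)) else 1 - (y + X y)) = 1 - (y + X y) := by
      split_ifs with h
      · rw [le_antisymm h c1, neg_neg, hZ1, hX1]; ring
      · rfl
    simp only [Finset.univ_unique, Finset.sum_singleton, this]
    convert hin y c1 c2 using 2
    ring
  · simp only [Finset.univ_unique, Finset.sum_singleton]
    rcases c3 with h | h
    · rw [if_pos (by linarith), if_pos h.le]
      have := S.eL (-y)
      rw [neg_neg] at this
      rw [this]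
      ring
    · rw [if_neg (by linarith), if_neg (by linarith), S.eR]
      ring

end Pool.Agent.P.MP_8707bd_ag.Nag
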