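import Pool.Agent.P.MP_8707bd_ag.Nag.DescentB
import Pool.Agent.P.MP_8707bd_ag.Nag.Step

/-!
The block theorem.
-/

namespace Pool.Agent.P.MP_8707bd_ag.Nag

open Set

theorem block {p ν τ x z j : ℝ} {n : ℕ} {F : ℝ → ℝ} (Ω : Set ℝ) (hν : 1000 ≤ ν) (hτ0 : 0 < τ)
    (hτ1 : τ ≤ 1) (hlog : -Real.log τ ≤ ν / 400)
    (hΩ : ∀ t, τ / 2 ≤ t → t ≤ 3 / 5 → ∃ ω ∈ Ω, t / 3 ≤ ω ∧ ω ≤ t)
    (hn1 : 99 / 100 * ν ≤ n) (hn2 : (n : ℝ) ≤ 101 / 100 * ν) (hx1 : τ / 2 ≤ x) (hx2 : x ≤ p)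
    (hx3 : x ≤ 3 / 5) (hz : 0 < z) (hL : x + z ≤ 1) (hj0 : 0 < j) (hj1 : j ≤ x + z)
    (hF : Continuous F)
    (hK : ∀ ω ∈ Ω, ConvexOn ℝ (Icc (-x) z) fun s => F s - 600 * max s 0 - 500 * max (s + ω) 0)
    (hR : Slope F 0 z (995 / 1000 * ν) (1005 / 1000 * ν))
    (hLft : Slope F (-x) 0 (-(3005 / 1000 * ν)) (-(2995 / 1000 * ν)))
    (hFz : F z = n * x) (hFx : F (-x) = n * (2 * x + z) - j)
    (hM : ∫ t in (-x)..z, F t = n * x * (x + z)) :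
    Cov p (-x) z n (fun t => n * (1 - t) - F t) (4 * ν * τ) :=
  block_of_step @step Ω hν hτ0 hτ1 hlog hΩ hn1 hn2 hx1 hx2 hx3 hz hL hj0 hj1 hF hK hR hLft hFz
    hFx hM

end Pool.Agent.P.MP_8707bd_ag.Nag
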