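import Pool.Agent.P.MP_8707bd_ag.Nag.Defs

/-!
Elementary inequalities for the descent.
-/

namespace Pool.Agent.P.MP_8707bd_ag.Nag

open Set

lemma desc_affine_convex (a b : ℝ) (s : Set ℝ) (hs : Convex ℝ s) :
    ConvexOn ℝ s fun t => a * t + b :=
  ⟨hs, fun x _ y _ u v _ _ huv => by
    simp only [smul_eq_mul]
    exact le_of_eq (by linear_combination (-b) * huv)⟩

lemma desc_kink_convex (c ω : ℝ) (hc : 0 ≤ c) (s : Set ℝ) (hs : Convex ℝ s) :
    ConvexOn ℝ s fun t => c * max (t + ω) 0 := by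
  have h := ((desc_affine_convex 1 ω s hs).sup (convexOn_const 0 hs)).smul hc
  refine h.congr fun t _ => ?_
  simp

lemma desc_convex {F : ℝ → ℝ} {u v ω : ℝ}
    (h : ConvexOn ℝ (Icc u v) fun s => F s - 600 * max s 0 - 500 * max (s + ω) 0) :
    ConvexOn ℝ (Icc u v) F := by
  have h1 := (h.add (desc_kink_convex 600 0 (by norm_num) _ h.1)).add
    (desc_kink_convex 500 ω (by norm_num) _ h.1)
  refine h1.congr fun t _ => ?_
  simp only [Pi.add_apply, add_zero]
  ring

lemma desc_chord {F : ℝ → ℝ} {s : Set ℝ} (h : ConvexOn ℝ s F) {a b t : ℝ} (ha : a ∈ s)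
    (hb : b ∈ s) (hab : a < b) (h1 : a ≤ t) (h2 : t ≤ b) :
    F t ≤ F a + (F b - F a) / (b - a) * (t - a) := by
  have hd : 0 < b - a := by linarith
  have := h.2 ha hb (div_nonneg (sub_nonneg.2 h2) hd.le) (div_nonneg (sub_nonneg.2 h1) hd.le)
    (by field_simp; ring)
  simp only [smul_eq_mul] at this
  have e1 : (b - t) / (b - a) * a + (t - a) / (b - a) * b = t := by field_simp; ring
  rw [e1] at this
  refine this.trans (le_of_eq ?_)
  field_simp; ring

lemma desc_trapezoid {F : ℝ → ℝ} (hF : Continuous F) {s : Set ℝ} (h : ConvexOn ℝ s F) {a b : ℝ}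
    (ha : a ∈ s) (hb : b ∈ s) (hab : a < b) :
    ∫ t in a..b, F t ≤ (b - a) * (F a + F b) / 2 := by
  have hd : b - a ≠ 0 := by linarith
  have h1 := intervalIntegral.integral_mono_on (μ := MeasureTheory.volume) hab.le
    (hF.intervalIntegrable a b)
    ((by fun_prop : Continuous fun t => F a + (F b - F a) / (b - a) * (t - a)).intervalIntegrable
      a b) fun t ht => desc_chord h ha hb hab ht.1 ht.2
  refine h1.trans (le_of_eq ?_)
  rw [intervalIntegral.integral_add (by simp) (Continuous.intervalIntegrable (by fun_prop) _ _),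
    intervalIntegral.integral_const_mul,
    intervalIntegral.integral_sub (Continuous.intervalIntegrable (by fun_prop) _ _) (by simp),
    integral_id]
  simp only [intervalIntegral.integral_const, smul_eq_mul]
  field_simp; ring

lemma desc_ratio {ν n x z j lam Gam bet Bet A B : ℝ} (hν : 1000 ≤ ν) (hn1 : 9 / 10 * ν ≤ n)
    (hn2 : n ≤ 11 / 10 * ν) (h1 : 9 / 10 * ν ≤ lam) (h2 : Gam ≤ 11 / 10 * ν)
    (h3 : 29 / 10 * ν ≤ bet) (h4 : Bet ≤ 31 / 10 * ν) (hx : 0 < x) (hz : 0 < z) (hj0 : 0 < j)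
    (hj1 : j ≤ x + z) (hA1 : lam * z ≤ A) (hA2 : A ≤ Gam * z) (hB1 : bet * x ≤ B)
    (hB2 : B ≤ Bet * x) (h : n * x + n * z - j = B - A) : 4 / 5 * x ≤ z ∧ z ≤ 5 / 4 * x := by
  have e1 := mul_le_mul_of_nonneg_right hn1 hx.le
  have e2 := mul_le_mul_of_nonneg_right hn2 hx.le
  have e3 := mul_le_mul_of_nonneg_right hn1 hz.le
  have e4 := mul_le_mul_of_nonneg_right hn2 hz.le
  have e5 := mul_le_mul_of_nonneg_right h1 hz.le
  have e6 := mul_le_mul_of_nonneg_right h2 hz.le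
  have e7 := mul_le_mul_of_nonneg_right h3 hx.le
  have e8 := mul_le_mul_of_nonneg_right h4 hx.le
  have e9 := mul_le_mul_of_nonneg_right hν hx.le
  have e10 := mul_le_mul_of_nonneg_right hν hz.le
  have hν0 : 0 < ν := by linarith
  constructor
  · refine le_of_mul_le_mul_left ?_ hν0
    linarith
  · refine le_of_mul_le_mul_left ?_ hν0
    linarith

/-- The key inequality for the drop of the potential. -/
lemma desc_key {ν N x x1 b z1 j χ A0 A1 B0 B1 D : ℝ} (hν : 1000 ≤ ν)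
    (hN : N ≤ 11 / 10 * ν) (hx : 0 < x) (hx1 : x1 ≤ x) (hb1 : 4 / 5 ≤ b) (hb2 : b ≤ 5 / 4)
    (hz1 : z1 ≤ b * x) (hj : 0 ≤ j) (hχ0 : 0 ≤ χ) (hχ1 : χ ≤ (b * x - z1) / 10)
    (hD : -(x / 625) ≤ D) (hB : B1 ≤ B0) (hA : A1 ≤ A0)
    (eB0 : x * B0 = (N + 1) * (2 * x + b * x) - j - D) (eA0 : b * x * A0 = (N + 1) * x - D)
    (eB1 : x1 * B1 = N * (2 * x1 + z1) + x1 - D) (eA1 : z1 * A1 = N * x1 + (x - χ) - D)
    (hR : 9 / 10 * ν * (b * x - z1) ≤ N * (x - x1) + χ) :
    x + b * x - j ≤ 4 * (x - x1) + x * (B0 - B1) + 2 * (x * (A0 - A1)) := by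
  set dx := x - x1 with hdx
  set dz := b * x - z1 with hdz
  have d0 : 0 ≤ dx := by linarith
  have d1 : 0 ≤ dz := by linarith
  have hν0 : 0 < ν := by linarith
  have d2 : dz ≤ 5 / 4 * dx := by
    have e1 := mul_le_mul_of_nonneg_right hN d0
    have e2 := mul_le_mul_of_nonneg_right hν d1
    refine le_of_mul_le_mul_left ?_ hν0
    linarith
  have hb0 : 0 < b := by linarith
  have b0 : B0 ≤ (N + 1) * (2 + b) + 1 / 500 := by
    refine le_of_mul_le_mul_left ?_ hx
    linarith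
  have a0 : b * A0 ≤ N + 1 + 1 / 500 := by
    refine le_of_mul_le_mul_left ?_ hx
    linarith
  have p1 : x + b * x - j + dx = B0 * dx + x1 * (B0 - B1) - 2 * (N * dx) - N * dz := by
    rw [hdx, hdz]; linear_combination eB1 - eB0
  have p2 : N * dx + χ = A0 * dz + z1 * (A0 - A1) := by
    rw [hdx, hdz]; linear_combination eA1 - eA0
  have q1 : B0 * dx ≤ ((N + 1) * (2 + b) + 1 / 500) * dx := mul_le_mul_of_nonneg_right b0 d0
  have q2 : b * A0 * dz ≤ (N + 1 + 1 / 500) * dz := mul_le_mul_of_nonneg_right a0 d1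
  have q3 : b * (N * dx) ≤ b * A0 * dz + b * z1 * (A0 - A1) := by
    have := mul_le_mul_of_nonneg_left (show N * dx ≤ A0 * dz + z1 * (A0 - A1) by linarith) hb0.le
    linarith
  have q4 : x1 * (B0 - B1) ≤ x * (B0 - B1) := mul_le_mul_of_nonneg_right hx1 (by linarith)
  have q5 : b * z1 * (A0 - A1) ≤ 2 * x * (A0 - A1) := by
    refine mul_le_mul_of_nonneg_right ?_ (by linarith)
    have e1 := mul_le_mul_of_nonneg_left hz1 hb0.le
    have e2 : b * b ≤ 2 := by nlinarith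
    have e3 := mul_le_mul_of_nonneg_right e2 hx.le
    linarith
  have q6 : b * dx ≤ 5 / 4 * dx := mul_le_mul_of_nonneg_right hb2 d0
  linarith

end Pool.Agent.P.MP_8707bd_ag.Nag
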