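import Pool.Agent.P.MP_8707bd_ag.Nag.DescentA
import Pool.Agent.P.MP_8707bd_ag.Nag.Lift

/-!
The descent: induction on a budget with a logarithmic potential.
-/

namespace Pool.Agent.P.MP_8707bd_ag.Nag

open Set

/-- The statement of the one-point step. -/
def StepProp : Prop :=
  ∀ {p ν x z j σ : ℝ} {N : ℕ} {F : ℝ → ℝ} (_hν : 1000 ≤ ν) (_hN1 : 0 < N)
    (_hN2 : (N : ℝ) ≤ 11 / 10 * ν) (_hx : 0 < x) (_hb1 : 4 / 5 * x ≤ z) (_hb2 : z ≤ 5 / 4 * x)
    (_hL : x + z ≤ 1) (_hp : x ≤ p) (_hj0 : 0 < j) (_hj1 : j ≤ x + z) (_hσ : σ ≤ 0)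
    (_hF : Continuous F)
    (_hK : ∀ t, x / 2 ≤ t → t ≤ x → ∃ ω, t / 3 ≤ ω ∧ ω ≤ t ∧
      ConvexOn ℝ (Icc (-x) z) fun s => F s - 600 * max s 0 - 500 * max (s + ω) 0)
    (_hR : ∀ s t, 0 ≤ s → s ≤ t → t ≤ z → 9 / 10 * ν * (t - s) ≤ F t - F s)
    (_hFz : F z = (N + 1) * x) (_hFx : F (-x) = (N + 1) * (2 * x + z) - j)
    (_hM : ∫ t in (-x)..z, F t = (N + 1) * x * (x + z) + σ),
    ∃ (x1 z1 : ℝ) (X : ℝ → ℝ), 3 / 4 * x ≤ x1 ∧ x1 ≤ x ∧ 0 < z1 ∧ z1 ≤ z ∧ Continuous X ∧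
      ConcaveOn ℝ univ X ∧ (∀ s t, s ≤ t → 0 ≤ X t - X s ∧ X t - X s ≤ (t - s) / 10) ∧
      X z = x ∧ X (-x1) = x1 ∧ F z1 - X z1 = N * x1 ∧
      F (-x1) - X (-x1) = N * (2 * x1 + z1) ∧
      (∫ t in (-x1)..z1, (F t - X t)) = N * x1 * (x1 + z1) + σ ∧
      ∀ (h1 : ℝ → ℝ) (e e' : ℝ), Cov p (-x1) z1 N h1 e → 0 ≤ e → 0 ≤ e' →
        (∀ t, -x1 ≤ t → t ≤ z1 → |N * (1 - t) - (F t - X t) - h1 t| ≤ e') →
        Cov p (-x) z (N + 1) (fun t => (N + 1) * (1 - t) - F t) (e + e')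

/-- The invariant of the descent. -/
structure DState (p ν τ ζ : ℝ) (Ω : Set ℝ) (k n : ℕ) (x z j σ lam Gam bet Bet : ℝ)
    (F : ℝ → ℝ) : Prop where
  n1 : 9 / 10 * ν + k ≤ n
  n2 : (n : ℝ) ≤ 11 / 10 * ν
  s1 : 9 / 10 * ν + k / 5 ≤ lam
  s2 : Gam + k / 5 ≤ 11 / 10 * ν
  s3 : 29 / 10 * ν + k / 5 ≤ bet
  s4 : Bet + k / 5 ≤ 31 / 10 * ν
  x1 : τ / 2 ≤ x
  x2 : x ≤ p
  x3 : x ≤ 3 / 5
  z0 : 0 < z
  len : x + z ≤ 1
  j0 : 0 < j
  j1 : j ≤ x + z
  σ1 : -(τ ^ 2 / 1000) + k * ζ ≤ σ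
  σ2 : σ ≤ 0
  cont : Continuous F
  kink : ∀ ω ∈ Ω, ConvexOn ℝ (Icc (-x) z) fun s => F s - 600 * max s 0 - 500 * max (s + ω) 0
  sR : Slope F 0 z lam Gam
  sL : Slope F (-x) 0 (-Bet) (-bet)
  Fz : F z = n * x
  Fx : F (-x) = n * (2 * x + z) - j
  mass : ∫ t in (-x)..z, F t = n * x * (x + z) + σ
  pot : 4 * Real.log (x / τ) + ((F (-x) - F 0) / x - bet) + 2 * ((F z - F 0) / z - lam) +
    j / x ≤ k

variable {p ν τ ζ : ℝ} {Ω : Set ℝ} {k n : ℕ} {x z j σ lam Gam bet Bet : ℝ} {F : ℝ → ℝ}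

lemma DState.ratio (h : DState p ν τ ζ Ω k n x z j σ lam Gam bet Bet F) (hν : 1000 ≤ ν)
    (hτ0 : 0 < τ) : 4 / 5 * x ≤ z ∧ z ≤ 5 / 4 * x := by
  have hk : (0 : ℝ) ≤ k := Nat.cast_nonneg k
  have hx : 0 < x := by linarith [h.x1]
  have e1 := h.sR 0 z le_rfl h.z0.le le_rfl
  have e2 := h.sL (-x) 0 le_rfl (by linarith) le_rfl
  refine desc_ratio (n := n) (lam := lam) (Gam := Gam) (bet := bet) (Bet := Bet)
    (A := F z - F 0) (B := F (-x) - F 0) hν (by linarith [h.n1]) h.n2 (by linarith [h.s1])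
    (by linarith [h.s2]) (by linarith [h.s3]) (by linarith [h.s4]) hx h.z0 h.j0 h.j1
    (by linarith [e1.1]) (by linarith [e1.2]) (by linarith [e2.2]) (by linarith [e2.1]) ?_
  rw [h.Fz, h.Fx]; ring

lemma DState.convex (h : DState p ν τ ζ Ω k n x z j σ lam Gam bet Bet F)
    (hΩ : ∀ t, τ / 2 ≤ t → t ≤ 3 / 5 → ∃ ω ∈ Ω, t / 3 ≤ ω ∧ ω ≤ t) :
    ConvexOn ℝ (Icc (-x) z) F := by
  obtain ⟨ω, hω, -⟩ := hΩ x h.x1 h.x3
  exact desc_convex (h.kink ω hω)

lemma DState.centre (h : DState p ν τ ζ Ω k n x z j σ lam Gam bet Bet F) (hτ0 : 0 < τ)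
    (hζ : 0 ≤ ζ) (hΩ : ∀ t, τ / 2 ≤ t → t ≤ 3 / 5 → ∃ ω ∈ Ω, t / 3 ≤ ω ∧ ω ≤ t) :
    -(τ ^ 2 / 500) ≤ (x + z) * F 0 := by
  have hx : 0 < x := by linarith [h.x1]
  have hz := h.z0
  have hc := h.convex hΩ
  have m0 : (0 : ℝ) ∈ Icc (-x) z := ⟨by linarith, hz.le⟩
  have e1 := desc_trapezoid h.cont hc (a := -x) (b := 0) ⟨le_rfl, by linarith⟩ m0 (by linarith)
  have e2 := desc_trapezoid h.cont hc (a := 0) (b := z) m0 ⟨by linarith, le_rfl⟩ hz
  have e3 := intervalIntegral.integral_add_adjacent_intervals (μ := MeasureTheory.volume)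
    (h.cont.intervalIntegrable (-x) 0) (h.cont.intervalIntegrable 0 z)
  rw [h.mass] at e3
  rw [h.Fx] at e1
  rw [h.Fz] at e2
  have e4 : 0 ≤ (k : ℝ) * ζ := by positivity
  have e5 : 0 ≤ x * j := mul_nonneg hx.le h.j0.le
  linarith [h.σ1]

lemma DState.small (h : DState p ν τ ζ Ω k n x z j σ lam Gam bet Bet F) (hν : 1000 ≤ ν)
    (hτ0 : 0 < τ) (hζ : 0 ≤ ζ) (hΩ : ∀ t, τ / 2 ≤ t → t ≤ 3 / 5 → ∃ ω ∈ Ω, t / 3 ≤ ω ∧ ω ≤ t)
    (hxτ : x ≤ τ) : Cov p (-x) z n (fun t => n * (1 - t) - F t) (3 * ν * τ + τ + k * ζ) := by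
  have hk : (0 : ℝ) ≤ k := Nat.cast_nonneg k
  have hn0 : (0 : ℝ) ≤ n := Nat.cast_nonneg n
  have hx : 0 < x := by linarith [h.x1]
  have hz := h.z0
  obtain ⟨r1, r2⟩ := h.ratio hν hτ0
  have hD : -τ ≤ F 0 := by
    by_contra hcon
    have e1 := h.centre hτ0 hζ hΩ
    have e2 : (x + z) * F 0 ≤ (x + z) * -τ :=
      mul_le_mul_of_nonneg_left (not_le.1 hcon).le (by linarith)
    have e3 : τ / 2 * τ ≤ (x + z) * τ := mul_le_mul_of_nonneg_right (by linarith [h.x1]) hτ0.le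
    nlinarith
  have hnL : n * (x + z) ≤ 3 * ν * τ := by
    calc n * (x + z) ≤ 11 / 10 * ν * (9 / 4 * τ) := by
          gcongr
          exacts [h.n2, by linarith]
      _ ≤ _ := by nlinarith
  have e0 : 0 ≤ (k : ℝ) * ζ := by positivity
  have := lift_U (h := fun t => n * (1 - t) - F t) (e' := 3 * ν * τ + τ + k * ζ) (k := n) (n := n)
    (cov_zero p (-x) z) (by simp) (by linarith [h.x2]) (by linarith [h.len]) le_rfl
    (by positivity) fun y h1 h2 => by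
      have e1 : (n : ℝ) * (1 - y) - F y - 0 - n * (1 - (y - -x)) = n * x - F y := by ring
      rw [e1, abs_le]
      have f1 : 0 ≤ n * (y + x) := mul_nonneg hn0 (by linarith)
      have f2 : 0 ≤ n * (z - y) := mul_nonneg hn0 (by linarith)
      rcases le_total y 0 with hy | hy
      · have g1 := (h.sL (-x) y le_rfl h1 hy).2
        have g2 := (h.sL y 0 h1 hy le_rfl).2
        have g3 : (n - bet) * (y - -x) ≤ 0 :=
          mul_nonpos_of_nonpos_of_nonneg (by linarith [h.n2, h.s3]) (by linarith)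
        have g4 : (n - bet) * (0 - y) ≤ 0 :=
          mul_nonpos_of_nonpos_of_nonneg (by linarith [h.n2, h.s3]) (by linarith)
        rw [h.Fx] at g1
        constructor <;> linarith [h.j0]
      · have g1 := (h.sR 0 y le_rfl hy h2).1
        have g2 := (h.sR y z hy h2 le_rfl).1
        have g3 : 0 ≤ (n + lam) * (y - 0) := mul_nonneg (by linarith [h.s1]) (by linarith)
        have g4 : 0 ≤ (n + lam) * (z - y) := mul_nonneg (by linarith [h.s1]) (by linarith)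
        rw [h.Fz] at g2
        constructor <;> linarith
  rwa [zero_add] at this

lemma DState.pos (h : DState p ν τ ζ Ω k n x z j σ lam Gam bet Bet F) (hτ0 : 0 < τ)
    (hxτ : τ < x) : 0 < k := by
  have hx : 0 < x := by linarith
  have hz := h.z0
  have e1 := (h.sR 0 z le_rfl hz.le le_rfl).1
  have e2 := (h.sL (-x) 0 le_rfl (by linarith) le_rfl).2
  have e3 : lam ≤ (F z - F 0) / z := (le_div_iff₀ hz).2 (by linarith)
  have e4 : bet ≤ (F (-x) - F 0) / x := (le_div_iff₀ hx).2 (by linarith)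
  have e5 : 0 < Real.log (x / τ) := Real.log_pos ((one_lt_div hτ0).2 hxτ)
  have e6 : 0 < j / x := div_pos h.j0 hx
  have : (0 : ℝ) < k := by linarith [h.pot]
  exact_mod_cast this

lemma DState.next {N : ℕ} (h : DState p ν τ ζ Ω (k + 1) (N + 1) x z j σ lam Gam bet Bet F)
    (hν : 1000 ≤ ν) (hτ0 : 0 < τ) (hτ1 : τ ≤ 1) (hζ0 : 0 < ζ) (hζ : ζ ≤ τ ^ 2 / 1000)
    (hΩ : ∀ t, τ / 2 ≤ t → t ≤ 3 / 5 → ∃ ω ∈ Ω, t / 3 ≤ ω ∧ ω ≤ t) (hxτ : τ < x)
    {x1 z1 : ℝ} {X : ℝ → ℝ} (a1 : 3 / 4 * x ≤ x1) (a2 : x1 ≤ x) (a3 : 0 < z1) (a4 : z1 ≤ z)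
    (a5 : Continuous X) (a6 : ConcaveOn ℝ univ X)
    (a7 : ∀ s t, s ≤ t → 0 ≤ X t - X s ∧ X t - X s ≤ (t - s) / 10) (a8 : X z = x)
    (a9 : X (-x1) = x1) (a10 : F z1 - X z1 = N * x1)
    (a11 : F (-x1) - X (-x1) = N * (2 * x1 + z1))
    (a12 : (∫ t in (-x1)..z1, (F t - X t)) = N * x1 * (x1 + z1) + σ) :
    DState p ν τ ζ Ω k N x1 z1 ζ (σ - ζ * (x1 + z1) / 2) (lam - 1 / 10) (Gam + ζ / (x1 + z1))
      (bet - ζ / (x1 + z1)) (Bet + 1 / 10) fun t => F t - X t - ζ / (x1 + z1) * (z1 - t) := by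
  have hk : (0 : ℝ) ≤ k := Nat.cast_nonneg k
  have hN0 : (0 : ℝ) ≤ N := Nat.cast_nonneg N
  have hx : 0 < x := by linarith
  have hz := h.z0
  have hx1 : 0 < x1 := by linarith
  have hL : 0 < x1 + z1 := by linarith
  obtain ⟨r1, r2⟩ := h.ratio hν hτ0
  have hζτ : ζ ≤ τ / 1000 := by nlinarith
  set γ := ζ / (x1 + z1) with hγ
  have γ0 : 0 ≤ γ := by positivity
  have γ1 : γ ≤ 1 / 100 := (div_le_iff₀ hL).2 (by linarith)
  have γ2 : ζ / x1 ≤ 1 / 100 := (div_le_iff₀ hx1).2 (by linarith)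
  have γ3 : γ * (x1 + z1) = ζ := by rw [hγ]; field_simp
  have n1 := h.n1
  have n2 := h.n2
  have s1 := h.s1
  have s2 := h.s2
  have s3 := h.s3
  have s4 := h.s4
  have σ1 := h.σ1
  have Fz := h.Fz
  have Fx := h.Fx
  have pot := h.pot
  push_cast at n1 n2 s1 s2 s3 s4 σ1 Fz Fx pot
  have hL1 : x1 + z1 ≤ 1 := by linarith [h.len]
  have hζL : ζ * (x1 + z1) ≤ ζ := mul_le_of_le_one_right hζ0.le hL1
  have hζL0 : 0 ≤ ζ * (x1 + z1) := by positivity
  refine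
    { n1 := by linarith
      n2 := by linarith
      s1 := by linarith
      s2 := by linarith
      s3 := by linarith
      s4 := by linarith
      x1 := by linarith
      x2 := by linarith [h.x2]
      x3 := by linarith [h.x3]
      z0 := a3
      len := hL1
      j0 := hζ0
      j1 := by linarith
      σ1 := by linarith
      σ2 := by linarith [h.σ2]
      cont := by have := h.cont; fun_prop
      kink := fun ω hω => ?_
      sR := fun s t h1 h2 h3 => ?_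
      sL := fun s t h1 h2 h3 => ?_
      Fz := by simp only [sub_self, mul_zero, sub_zero]; exact a10
      Fx := by linarith
      mass := ?_
      pot := ?_ }
  · have c1 := (h.kink ω hω).subset (Icc_subset_Icc (by linarith) a4 : Icc (-x1) z1 ⊆ _)
      (convex_Icc _ _)
    have c2 := (c1.sub (a6.subset (subset_univ _) (convex_Icc _ _))).add
      (desc_affine_convex γ (-(γ * z1)) _ (convex_Icc (-x1) z1))
    refine c2.congr fun t _ => ?_
    simp only [Pi.add_apply, Pi.sub_apply]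
    ring
  · obtain ⟨e1, e2⟩ := h.sR s t h1 h2 (h3.trans a4)
    obtain ⟨e3, e4⟩ := a7 s t h2
    have e5 : 0 ≤ γ * (t - s) := mul_nonneg γ0 (by linarith)
    constructor <;> simp only <;> linarith
  · obtain ⟨e1, e2⟩ := h.sL s t (by linarith) h2 h3
    obtain ⟨e3, e4⟩ := a7 s t h2
    have e5 : 0 ≤ γ * (t - s) := mul_nonneg γ0 (by linarith)
    constructor <;> simp only <;> linarith
  · have hc := h.cont
    rw [intervalIntegral.integral_sub (Continuous.intervalIntegrable (by fun_prop) _ _)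
      (Continuous.intervalIntegrable (by fun_prop) _ _), a12, intervalIntegral.integral_const_mul,
      intervalIntegral.integral_sub (by simp) (Continuous.intervalIntegrable (by fun_prop) _ _),
      integral_id]
    simp only [intervalIntegral.integral_const, smul_eq_mul]
    rw [← γ3]; ring
  · have hc := h.convex hΩ
    have m0 : (0 : ℝ) ∈ Icc (-x) z := ⟨by linarith, hz.le⟩
    have hB := hc.secant_mono (a := 0) (x := -x) (y := -x1) m0 ⟨le_rfl, by linarith⟩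
      ⟨by linarith, by linarith⟩ (by linarith) (by linarith) (by linarith)
    have hA := hc.secant_mono (a := 0) (x := z1) (y := z) m0 ⟨by linarith, a4⟩
      ⟨by linarith, le_rfl⟩ a3.ne' hz.ne' a4
    rw [sub_zero, sub_zero, div_neg, div_neg, neg_le_neg_iff] at hB
    rw [sub_zero, sub_zero] at hA
    set B0 := (F (-x) - F 0) / x with hB0
    set B1 := (F (-x1) - F 0) / x1 with hB1
    set A0 := (F z - F 0) / z with hA0
    set A1 := (F z1 - F 0) / z1 with hA1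
    have hD : -(x / 625) ≤ F 0 := by
      by_contra hcon
      have e1 := h.centre hτ0 hζ0.le hΩ
      have e2 : (x + z) * F 0 ≤ (x + z) * -(x / 625) :=
        mul_le_mul_of_nonneg_left (not_le.1 hcon).le (by linarith)
      have e3 : 9 / 5 * x * x ≤ (x + z) * x := mul_le_mul_of_nonneg_right (by linarith) hx.le
      have e4 : τ ^ 2 ≤ x ^ 2 := by gcongr
      nlinarith
    have hbx : z / x * x = z := by field_simp
    have hχ := a7 z1 z a4
    have hR := (h.sR z1 z a3.le a4 le_rfl).1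
    have hR' : 9 / 10 * ν * (z - z1) ≤ lam * (z - z1) :=
      mul_le_mul_of_nonneg_right (by linarith) (by linarith)
    have key := desc_key (ν := ν) (N := N) (x := x) (x1 := x1) (b := z / x) (z1 := z1) (j := j)
      (χ := X z - X z1) (A0 := A0) (A1 := A1) (B0 := B0) (B1 := B1) (D := F 0) hν
      (by linarith) hx a2 ((le_div_iff₀ hx).2 r1) ((div_le_iff₀ hx).2 r2) (by rwa [hbx])
      h.j0.le hχ.1 (by rw [hbx]; exact hχ.2) hD hB hA
      (by rw [hbx, hB0, mul_div_cancel₀ _ hx.ne', Fx])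
      (by rw [hbx, hA0, mul_div_cancel₀ _ hz.ne', Fz])
      (by rw [hB1, mul_div_cancel₀ _ hx1.ne']; linarith)
      (by rw [hA1, mul_div_cancel₀ _ a3.ne']; linarith)
      (by rw [hbx]; linarith)
    rw [hbx] at key
    have k1 : 9 / 5 - j / x ≤ 4 * (1 - x1 / x) + (B0 - B1) + 2 * (A0 - A1) := by
      refine le_of_mul_le_mul_left ?_ hx
      have e1 : x * (j / x) = j := by field_simp
      have e2 : x * (x1 / x) = x1 := by field_simp
      linarith
    have k2 : Real.log (x1 / τ) ≤ Real.log (x / τ) - (1 - x1 / x) := by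
      have e1 := Real.log_le_sub_one_of_pos (div_pos hx1 hx)
      rw [Real.log_div hx1.ne' hx.ne'] at e1
      rw [Real.log_div hx1.ne' hτ0.ne', Real.log_div hx.ne' hτ0.ne']
      linarith
    have k3 : (F (-x1) - X (-x1) - γ * (z1 - -x1) - (F 0 - X 0 - γ * (z1 - 0))) / x1 ≤
        B1 + 1 / 10 - γ := by
      rw [div_le_iff₀ hx1]
      have e1 : B1 * x1 = F (-x1) - F 0 := by rw [hB1]; field_simp
      linarith [(a7 (-x1) 0 (by linarith)).2]
    have k4 : (F z1 - X z1 - γ * (z1 - z1) - (F 0 - X 0 - γ * (z1 - 0))) / z1 ≤ A1 + γ := by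
      rw [div_le_iff₀ a3]
      have e1 : A1 * z1 = F z1 - F 0 := by rw [hA1]; field_simp
      linarith [(a7 0 z1 a3.le).1]
    linarith

lemma descent (step : StepProp) (hν : 1000 ≤ ν) (hτ0 : 0 < τ) (hτ1 : τ ≤ 1) (hζ0 : 0 < ζ) (hζ : ζ ≤ τ ^ 2 / 1000)
    (hΩ : ∀ t, τ / 2 ≤ t → t ≤ 3 / 5 → ∃ ω ∈ Ω, t / 3 ≤ ω ∧ ω ≤ t) (k : ℕ) :
    ∀ (n : ℕ) (x z j σ lam Gam bet Bet : ℝ) (F : ℝ → ℝ),
      DState p ν τ ζ Ω k n x z j σ lam Gam bet Bet F →
      Cov p (-x) z n (fun t => n * (1 - t) - F t) (3 * ν * τ + τ + k * ζ) := by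
  induction k with
  | zero =>
    intro n x z j σ lam Gam bet Bet F h
    exact h.small hν hτ0 hζ0.le hΩ (not_lt.1 fun hx => lt_irrefl _ (h.pos hτ0 hx))
  | succ k ih =>
    intro n x z j σ lam Gam bet Bet F h
    rcases le_or_gt x τ with hx | hx
    · exact h.small hν hτ0 hζ0.le hΩ hx
    have hk : (0 : ℝ) ≤ k := Nat.cast_nonneg k
    have n1 := h.n1
    push_cast at n1
    obtain ⟨N, rfl⟩ : ∃ N, n = N + 1 := Nat.exists_eq_succ_of_ne_zero (by
      rintro rfl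
      simp only [Nat.cast_zero] at n1
      linarith)
    have n2 := h.n2
    have s1 := h.s1
    have Fz := h.Fz
    have Fx := h.Fx
    have hM := h.mass
    push_cast at n1 n2 s1 Fz Fx hM
    have hN : 0 < N := by
      have : (0 : ℝ) < N := by linarith
      exact_mod_cast this
    obtain ⟨r1, r2⟩ := h.ratio hν hτ0
    obtain ⟨x1, z1, X, a1, a2, a3, a4, a5, a6, a7, a8, a9, a10, a11, a12, a13⟩ :=
      step (p := p) (N := N) (F := F) hν hN (by linarith) (by linarith) r1 r2 h.len h.x2 h.j0 h.j1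
        h.σ2 h.cont
        (fun t h1 h2 => by
          obtain ⟨ω, o1, o2, o3⟩ := hΩ t (by linarith) (h2.trans h.x3)
          exact ⟨ω, o2, o3, h.kink ω o1⟩)
        (fun s t h1 h2 h3 => le_trans (mul_le_mul_of_nonneg_right (by linarith) (by linarith))
          (h.sR s t h1 h2 h3).1) Fz Fx hM
    have hnext := h.next hν hτ0 hτ1 hζ0 hζ hΩ hx a1 a2 a3 a4 a5 a6 a7 a8 a9 a10 a11 a12
    have hL : 0 < x1 + z1 := by linarith
    have := a13 _ _ ζ (ih _ _ _ _ _ _ _ _ _ _ hnext) (by positivity) hζ0.le fun t h1 h2 => by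
      have e1 : N * (1 - t) - (F t - X t) - (N * (1 - t) - (F t - X t - ζ / (x1 + z1) * (z1 - t)))
          = -(ζ * ((z1 - t) / (x1 + z1))) := by ring
      rw [e1, abs_neg, abs_of_nonneg (mul_nonneg hζ0.le (div_nonneg (by linarith) hL.le))]
      exact mul_le_of_le_one_right hζ0.le ((div_le_one hL).2 (by linarith))
    push_cast
    convert this using 1
    ring

theorem block_of_step (step : StepProp) {p ν τ x z j : ℝ} {n : ℕ} {F : ℝ → ℝ} (Ω : Set ℝ) (hν : 1000 ≤ ν) (hτ0 : 0 < τ)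
    (hτ1 : τ ≤ 1) (hlog : -Real.log τ ≤ ν / 400)
    (hΩ : ∀ t, τ / 2 ≤ t → t ≤ 3 / 5 → ∃ ω ∈ Ω, t / 3 ≤ ω ∧ ω ≤ t)
    (hn1 : 99 / 100 * ν ≤ n) (hn2 : (n : ℝ) ≤ 101 / 100 * ν) (hx1 : τ / 2 ≤ x) (hx2 : x ≤ p)
    (hx3 : x ≤ 3 / 5) (hz : 0 < z) (hL : x + z ≤ 1) (hj0 : 0 < j) (hj1 : j ≤ x + z)
    (hF : Continuous F)
    (hK : ∀ ω ∈ Ω, ConvexOn ℝ (Icc (-x) z) fun s => F s - 600 * max s 0 - 500 * max (s + ω) 0)
    (hR : Slope F 0 z (995 / 1000 * ν) (1005 / 1000 * ν))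
    (hLft : Slope F (-x) 0 (-(3005 / 1000 * ν)) (-(2995 / 1000 * ν)))
    (hFz : F z = n * x) (hFx : F (-x) = n * (2 * x + z) - j)
    (hM : ∫ t in (-x)..z, F t = n * x * (x + z)) :
    Cov p (-x) z n (fun t => n * (1 - t) - F t) (4 * ν * τ) := by
  have hν0 : 0 < ν := by linarith
  have hx : 0 < x := by linarith
  set k := ⌊ν / 20⌋₊ with hk
  have k1 : (k : ℝ) ≤ ν / 20 := Nat.floor_le (by positivity)
  have k2 : ν / 20 < k + 1 := Nat.lt_floor_add_one _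
  set ζ := τ ^ 2 / 1000 / ν with hζ
  have hζ0 : 0 < ζ := by positivity
  have hζ1 : ν * ζ = τ ^ 2 / 1000 := by rw [hζ]; field_simp
  have hkζ : k * ζ ≤ τ ^ 2 / 1000 := by
    rw [← hζ1]; exact mul_le_mul_of_nonneg_right (by linarith) hζ0.le
  have e1 := hR 0 z le_rfl hz.le le_rfl
  have e2 := hLft (-x) 0 le_rfl (by linarith) le_rfl
  obtain ⟨-, r2⟩ := desc_ratio (n := n) (A := F z - F 0) (B := F (-x) - F 0)
    (lam := 995 / 1000 * ν) (Gam := 1005 / 1000 * ν) (bet := 2995 / 1000 * ν)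
    (Bet := 3005 / 1000 * ν) hν (by linarith) (by linarith) (by linarith) (by linarith)
    (by linarith) (by linarith) hx hz hj0 hj1 (by linarith [e1.1]) (by linarith [e1.2])
    (by linarith [e2.2]) (by linarith [e2.1]) (by rw [hFz, hFx]; ring)
  have p1 : Real.log (x / τ) ≤ ν / 400 := by
    rw [Real.log_div hx.ne' hτ0.ne']
    linarith [Real.log_nonpos hx.le (by linarith : x ≤ 1)]
  have p2 : (F (-x) - F 0) / x ≤ 3005 / 1000 * ν := (div_le_iff₀ hx).2 (by linarith [e2.1])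
  have p3 : (F z - F 0) / z ≤ 1005 / 1000 * ν := (div_le_iff₀ hz).2 (by linarith [e1.2])
  have p4 : j / x ≤ 9 / 4 := (div_le_iff₀ hx).2 (by linarith)
  have hS : DState p ν τ ζ Ω k n x z j 0 (995 / 1000 * ν) (1005 / 1000 * ν) (2995 / 1000 * ν)
      (3005 / 1000 * ν) F :=
    { n1 := by linarith
      n2 := by linarith
      s1 := by linarith
      s2 := by linarith
      s3 := by linarith
      s4 := by linarith
      x1 := hx1
      x2 := hx2
      x3 := hx3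
      z0 := hz
      len := hL
      j0 := hj0
      j1 := hj1
      σ1 := by linarith
      σ2 := le_rfl
      cont := hF
      kink := hK
      sR := hR
      sL := hLft
      Fz := hFz
      Fx := hFx
      mass := by rw [hM, add_zero]
      pot := by linarith }
  refine CovTop.mono (descent step hν hτ0 hτ1 hζ0 (div_le_self (by positivity) (by linarith)) hΩ k
    _ _ _ _ _ _ _ _ _ _ hS) (fun _ _ _ => rfl) ?_
  have q1 : τ ^ 2 ≤ τ := by nlinarith
  have q2 : 1000 * τ ≤ ν * τ := mul_le_mul_of_nonneg_right hν hτ0.le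
  linarith

end Pool.Agent.P.MP_8707bd_ag.Nag
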