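import Mathlib
import Pool.Agent.P.MP_8707bd_ag.Nag.FinalA

/-!
The choice of the parameters, and the final statement from the covering theorem.
-/

namespace Pool.Agent.P.MP_8707bd_ag.Nag

open Finset

theorem params (r : ℕ) (hr : 10 ^ 11 ≤ r) : ∃ (δ K : ℕ) (p : ℝ), 210000 ≤ δ ∧
    √r = δ * (1 + p) ∧ 1 / 2 ≤ p ∧ p ≤ 1 / 2 + 1 / 10 ^ 5 ∧ 1 ≤ K ∧
    5 * 10 ^ 6 * (K : ℝ) ≤ (δ : ℝ) ^ 2 ∧
    2 * (δ : ℝ) ^ 2 / 2 ^ K ≤ δ * Real.exp (-(r / 10 ^ 8)) := by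
  have hr' : (10 : ℝ) ^ 11 ≤ r := by exact_mod_cast hr
  have hs : (316000 : ℝ) ≤ √r := Real.le_sqrt_of_sq_le (by linarith)
  have hss : √(r : ℝ) ^ 2 = r := Real.sq_sqrt (by positivity)
  obtain ⟨δ, hδ1, hδ2⟩ : ∃ δ : ℕ, (δ : ℝ) ≤ 2 * √r / 3 ∧ 2 * √r / 3 < δ + 1 :=
    ⟨⌊2 * √r / 3⌋₊, Nat.floor_le (by positivity), Nat.lt_floor_add_one _⟩
  have hδ3 : (210000 : ℝ) ≤ δ := by linarith
  have hδ0 : (0 : ℝ) < δ := by linarith
  obtain ⟨K, hK1, hK2⟩ : ∃ K : ℕ, (K : ℝ) ≤ (δ : ℝ) ^ 2 / (5 * 10 ^ 6) ∧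
      (δ : ℝ) ^ 2 / (5 * 10 ^ 6) < K + 1 :=
    ⟨⌊(δ : ℝ) ^ 2 / (5 * 10 ^ 6)⌋₊, Nat.floor_le (by positivity), Nat.lt_floor_add_one _⟩
  rw [le_div_iff₀ (by norm_num)] at hK1
  rw [div_lt_iff₀ (by norm_num)] at hK2
  have hE : 210000 * (δ : ℝ) ≤ (δ : ℝ) ^ 2 := by nlinarith
  refine ⟨δ, K, √r / δ - 1, by exact_mod_cast hδ3, by field_simp; ring, ?_, ?_, ?_, by linarith,
    ?_⟩
  · rw [le_sub_iff_add_le, le_div_iff₀ hδ0]; linarith
  · rw [sub_le_iff_le_add, div_le_iff₀ hδ0]; linarith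
  · have : (0 : ℝ) < K := by linarith
    exact_mod_cast this
  · have h1 : √(r : ℝ) ≤ 151 / 100 * δ := by linarith
    have h2 : (r : ℝ) ≤ (151 / 100 * δ) ^ 2 := by
      rw [← hss]
      exact pow_le_pow_left₀ (by positivity) h1 2
    have h3 : (2 : ℝ) ^ K = Real.exp (K * Real.log 2) := by
      rw [Real.exp_nat_mul, Real.exp_log (by norm_num)]
    have h4 : (K : ℝ) * (69 / 100) ≤ K * Real.log 2 :=
      mul_le_mul_of_nonneg_left (by linarith [Real.log_two_gt_d9]) (by positivity)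
    have h5 : 2 * (δ : ℝ) ≤ Real.exp (1000 + 2 * δ / 1000) := by
      rw [Real.exp_add]
      have a1 := Real.add_one_le_exp 1000
      have a2 := Real.add_one_le_exp (2 * δ / 1000)
      calc 2 * (δ : ℝ) = 1000 * (2 * δ / 1000) := by ring
        _ ≤ _ := mul_le_mul (by linarith) (by linarith) (by positivity) (by positivity)
    have h6 : Real.exp (1000 + 2 * δ / 1000) ≤
        Real.exp (-(r / 10 ^ 8)) * Real.exp (K * Real.log 2) := by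
      rw [← Real.exp_add]
      refine Real.exp_le_exp.2 ?_
      nlinarith
    rw [div_le_iff₀ (by positivity), h3]
    nlinarith

theorem final_of_whole
    (whole : ∀ {E p v : ℝ} {r K : ℕ}, 10 ^ 10 ≤ E → 1 / 2 ≤ p → p ≤ 1 / 2 + 1 / 10 ^ 5 →
      (r : ℝ) = E * (1 + p) ^ 2 → 1 ≤ K → 5 * 10 ^ 6 * (K : ℝ) ≤ E → 1 ≤ v →
      CovTop p (-p) v r (fun t => E * max (1 - t) 0) (2 * E / 2 ^ K) 1)
    (r m d : ℕ) (hr : 10 ^ 11 ≤ r) (hm : 1 ≤ m)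
    (hd : (d : ℝ) < (√r - Real.exp (-(r / 10 ^ 8))) * m ∨
      (√r + Real.exp (-(r / 10 ^ 8))) * m + 2 * √r ≤ d) : Body r m d := by
  obtain ⟨δ, K, p, hδ, hs, hp1, hp2, hK1, hK2, he⟩ := params r hr
  have hδ3 : (210000 : ℝ) ≤ δ := by exact_mod_cast hδ
  have hss : (r : ℝ) = (δ : ℝ) ^ 2 * (1 + p) ^ 2 := by
    rw [← mul_pow, ← hs, Real.sq_sqrt (by positivity)]
  generalize √(r : ℝ) = s at hs hd
  generalize Real.exp (-(r / 10 ^ 8)) = ε at he hd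
  have he0 : 0 ≤ 2 * (δ : ℝ) ^ 2 / 2 ^ K := by positivity
  have rows : ∀ m d : ℕ, 1 ≤ m → ∃ J, d < (J + 1) * δ ∧ m ≤ J ∧ ∃ (π : ℕ → ℝ) (h : Fin r → ℝ),
      (∀ i, ∀ j ≤ J, ∀ j' ≤ J, h i * j + π j = h i * j' + π j' → j = j') ∧
      (∀ j ≤ J, |((∑ i, (m - rk J π (h i) j) : ℕ) : ℝ) - max (m * δ * s - (δ : ℝ) ^ 2 * j) 0| ≤
        r + m * (2 * (δ : ℝ) ^ 2 / 2 ^ K)) ∧
      ∀ j ≤ J, m * s < δ * j → ∑ i, (m - rk J π (h i) j) = 0 := by
    intro m d hm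
    have hm0 : (0 : ℝ) < m := by exact_mod_cast hm
    refine ⟨d + 2 * m, by nlinarith, by omega,
      rows_of_cov hm hs (by omega) (whole (by nlinarith) hp1 hp2 hss hK1 hK2 ?_)⟩
    rw [le_sub_iff_add_le, le_div_iff₀ hm0]
    push_cast
    have : (0 : ℝ) ≤ d := by positivity
    nlinarith
  generalize 2 * (δ : ℝ) ^ 2 / 2 ^ K = e at he he0 rows
  have hm0 : (0 : ℝ) < m := by exact_mod_cast hm
  have hem : e * m ≤ δ * ε * m := mul_le_mul_of_nonneg_right he hm0.le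
  rcases hd with hd | hd
  · have hg : 0 < δ * s * m - e * m - δ * d := by nlinarith
    obtain ⟨t, ht⟩ := exists_nat_gt ((δ + r) / (δ * s * m - e * m - δ * d))
    rw [div_lt_iff₀ hg] at ht
    have ht1 : 1 ≤ t := by
      rcases Nat.eq_zero_or_pos t with rfl | h
      · have : (0 : ℝ) ≤ r := by positivity
        simp only [Nat.cast_zero, zero_mul] at ht
        linarith
      · exact h
    obtain ⟨J, hJ, -, π, h, -, h2, -⟩ := rows (t * m) (t * d) (Nat.mul_pos ht1 hm)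
    refine body_of_empty r m d t δ J π h ht1 (by omega) hJ fun j hj => ?_
    rcases rowLen_le (t * d) δ j with h0 | h0
    · omega
    · have h3 := (abs_le.1 (h2 j hj)).1
      have h4 := le_max_left (((t * m : ℕ) : ℝ) * δ * s - (δ : ℝ) ^ 2 * j) 0
      rw [← Nat.cast_le (α := ℝ)]
      generalize ((∑ i, (t * m - rk J π (h i) j) : ℕ) : ℝ) = c at h3 ⊢
      push_cast at h0 h3 h4
      nlinarith
  · obtain ⟨J, hJ, hmJ, π, h, h1, h2, h3⟩ := rows m d hm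
    refine body_of_cover r m d δ J π h (by omega) hJ hmJ h1 fun j hj => ?_
    rcases lt_or_ge (m * s) (δ * j) with h0 | h0
    · rw [h3 j hj h0]; exact Nat.zero_le _
    · have h4 := (abs_le.1 (h2 j hj)).2
      rw [max_eq_left (by nlinarith)] at h4
      have h5 := le_rowLen d δ j
      rw [← Nat.cast_le (α := ℝ)]
      generalize ((∑ i, (m - rk J π (h i) j) : ℕ) : ℝ) = c at h4 ⊢
      have h6 : δ * ((s + ε) * m + 2 * s) ≤ (δ : ℝ) * d :=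
        mul_le_mul_of_nonneg_left hd (by positivity)
      have h7 : (r : ℝ) + (δ : ℝ) ^ 2 / 2 ≤ 2 * s * δ := by
        have : (1 + p) ^ 2 + 1 / 2 ≤ 2 * (1 + p) := by nlinarith
        have := mul_le_mul_of_nonneg_left this (sq_nonneg (δ : ℝ))
        rw [hss, hs]
        nlinarith
      nlinarith

end Pool.Agent.P.MP_8707bd_ag.Nag
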