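import Mathlib
import Pool.Agent.P.MP_8707bd_ag.Nag.Inv
import Pool.Agent.P.MP_8707bd_ag.Nag.Lift

/-!
The coverage of one top point (helper file only).
-/

namespace Pool.Agent.P.MP_8707bd_ag.Nag

open Set

theorem top {G : ℝ → ℝ} {u a b v s1 s2 V : ℝ} (hG : Continuous G) (hG0 : ∀ t, t ≤ a → G t = 0)
    (hconv : ConvexOn ℝ (Icc a v) G) (hs : Slope G a v s1 s2) (hV0 : 0 < V) (hV : V < s1)
    (hab : a ≤ b) (hbv : b ≤ v) (hb : G b = V) (hu : u ≤ b - 1) :
    ∃ c : ℝ → ℝ, Continuous c ∧ b - 1 ≤ a ∧
      (∀ y, u ≤ y → y ≤ v → Chord (fun t => G t + -V * t) u v y (c y)) ∧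
      (∀ t, a ≤ t → c t = max (1 - G t / V) 0) ∧ (∀ t, t ≤ b - 1 → c t = 0) ∧
      ConvexOn ℝ (Iic a) (fun t => c t - max (t - (b - 1)) 0) ∧
      Slope c (b - 1) a (s2 / (s2 - V)) (s1 / (s1 - V)) ∧
      (∫ t in u..v, c t) = 1 / 2 ∧
      ∀ t y, b - 1 < t → t < y → b ≤ y → y ≤ v → G t + -V * t < G y + -V * y := by
  have Ga : G a = 0 := hG0 a le_rfl
  have hab' : a < b := by
    rcases hab.eq_or_lt with h | h
    · rw [← h, Ga] at hb
      linarith
    · exact h
  obtain ⟨q1, q2⟩ := hs a b le_rfl hab hbv
  rw [hb, Ga, sub_zero] at q1 q2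
  have h12 : s1 ≤ s2 := le_of_mul_le_mul_right (q1.trans q2) (by linarith)
  have hba : b - 1 < a := by
    by_contra hc
    have : 1 ≤ b - a := by linarith
    nlinarith
  obtain ⟨f, hf⟩ : ∃ f : ℝ → ℝ, ∀ y, f y = G y / V - (y - a) := ⟨_, fun _ => rfl⟩
  have fa : f a = 0 := by simp [hf, Ga]
  have fb : f b = a - (b - 1) := by
    rw [hf, hb, div_self hV0.ne']
    ring
  have fsl : ∀ s t, a ≤ s → s ≤ t → t ≤ v → (s1 - V) / V * (t - s) ≤ f t - f s ∧
      f t - f s ≤ (s2 - V) / V * (t - s) := fun s t h1 h2 h3 => by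
    obtain ⟨k1, k2⟩ := hs s t h1 h2 h3
    have e : f t - f s = (G t - G s - V * (t - s)) / V := by
      rw [hf, hf]
      field_simp
      ring
    rw [e, div_mul_eq_mul_div, div_mul_eq_mul_div]
    constructor
    · apply div_le_div_of_nonneg_right _ hV0.le
      linarith
    · apply div_le_div_of_nonneg_right _ hV0.le
      linarith
  have hlo : 0 < (s1 - V) / V := div_pos (by linarith) hV0
  have fmono : ∀ s t, a ≤ s → s ≤ t → t ≤ v → f s ≤ f t := fun s t h1 h2 h3 => by
    have := (fsl s t h1 h2 h3).1
    have : 0 ≤ (s1 - V) / V * (t - s) := mul_nonneg hlo.le (by linarith)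
    linarith
  have fcont : Continuous f := by
    have : f = fun y => G y / V - (y - a) := funext hf
    rw [this]
    fun_prop
  have fconv : ConvexOn ℝ (Icc a b) f := by
    refine ⟨convex_Icc _ _, fun x hx y hy p q hp hq hpq => ?_⟩
    have h := hconv.2 (x := x) ⟨hx.1, hx.2.trans hbv⟩ (y := y) ⟨hy.1, hy.2.trans hbv⟩ hp hq hpq
    simp only [smul_eq_mul] at h ⊢
    rw [hf, hf, hf]
    have hq' : q = 1 - p := by linarith
    subst hq'
    have e : p * (G x / V - (x - a)) + (1 - p) * (G y / V - (y - a)) -
        (G (p * x + (1 - p) * y) / V - (p * x + (1 - p) * y - a)) =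
        (p * G x + (1 - p) * G y - G (p * x + (1 - p) * y)) / V := by
      field_simp
      ring
    have : 0 ≤ (p * G x + (1 - p) * G y - G (p * x + (1 - p) * y)) / V :=
      div_nonneg (by linarith) hV0.le
    linarith
  obtain ⟨Y, Ycont, Yconc, Ysl, Ytop, Yinv, Yran⟩ := exists_inv (f := f) hab hlo fcont fconv
    fun s t h1 h2 h3 => (fsl s t h1 h2 (h3.trans hbv)).1
  rw [fb] at Ytop
  rw [fa, fb] at Yran
  have Y0 : Y 0 = a := by
    have := Yinv a le_rfl hab
    rwa [fa] at this
  obtain ⟨c, hc⟩ : ∃ c : ℝ → ℝ, ∀ t, c t =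
      if t ≤ a then max (t - (b - 1)) 0 + (b - Y (a - t)) else max (1 - G t / V) 0 :=
    ⟨_, fun _ => rfl⟩
  have hjoin : max (a - (b - 1)) 0 + (b - Y (a - a)) = max (1 - G a / V) 0 := by
    rw [sub_self, Y0, Ga, zero_div, sub_zero, max_eq_left (by linarith),
      max_eq_left (by norm_num)]
    ring
  have ccont : Continuous c := by
    have : c = fun t => if t ≤ a then max (t - (b - 1)) 0 + (b - Y (a - t))
        else max (1 - G t / V) 0 := funext hc
    rw [this]
    refine Continuous.if_le (by fun_prop) (by fun_prop) continuous_id continuous_const ?_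
    rintro x rfl
    exact hjoin
  have cL : ∀ t, t ≤ a → c t = max (t - (b - 1)) 0 + (b - Y (a - t)) := fun t ht => by
    rw [hc, if_pos ht]
  have cR : ∀ t, a ≤ t → c t = max (1 - G t / V) 0 := fun t ht => by
    rcases ht.eq_or_lt with h | h
    · rw [← h, cL a le_rfl, hjoin]
    · rw [hc, if_neg (not_le.2 h)]
  have c0 : ∀ t, t ≤ b - 1 → c t = 0 := fun t ht => by
    rw [cL t (by linarith), Ytop (a - t) (by linarith), max_eq_right (by linarith)]
    ring
  have cM : ∀ t, b - 1 ≤ t → t ≤ a → c t = 1 + t - Y (a - t) := fun t h1 h2 => by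
    rw [cL t h2, max_eq_left (by linarith)]
    ring
  have Gmono : ∀ s t, a ≤ s → s ≤ t → t ≤ v → G s ≤ G t := fun s t h1 h2 h3 => by
    have := (hs s t h1 h2 h3).1
    have : 0 ≤ s1 * (t - s) := mul_nonneg (by linarith) (by linarith)
    linarith
  have cN : ∀ t, a ≤ t → t ≤ b → c t = 1 - G t / V := fun t h1 h2 => by
    rw [cR t h1]
    apply max_eq_left
    have := Gmono t b h1 h2 hbv
    have : G t / V ≤ 1 := by
      rw [div_le_one hV0]
      linarith
    linarith
  have c1 : ∀ t, b ≤ t → t ≤ v → c t = 0 := fun t h1 h2 => by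
    rw [cR t (hab.trans h1)]
    apply max_eq_right
    have := Gmono b t hab h1 h2
    have : 1 ≤ G t / V := by
      rw [one_le_div hV0]
      linarith
    linarith
  have panti : ∀ s t, s < t → t ≤ a → G t + -V * t < G s + -V * s := fun s t h1 h2 => by
    rw [hG0 t h2, hG0 s (by linarith)]
    nlinarith
  have pmono : ∀ s t, a ≤ s → s < t → t ≤ v → G s + -V * s < G t + -V * t :=
    fun s t h1 h2 h3 => by
      have := (hs s t h1 h2.le h3).1
      nlinarith
  have pb : G (b - 1) + -V * (b - 1) = G b + -V * b := by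
    rw [hG0 _ hba.le, hb]
    ring
  have pge : ∀ y, b ≤ y → y ≤ v → G b + -V * b ≤ G y + -V * y := fun y h1 h2 => by
    rcases h1.eq_or_lt with h | h
    · rw [h]
    · exact (pmono b y hab h h2).le
  have ple : ∀ y, y ≤ b - 1 → G (b - 1) + -V * (b - 1) ≤ G y + -V * y := fun y h1 => by
    rcases h1.eq_or_lt with h | h
    · rw [h]
    · exact (panti y (b - 1) h hba.le).le
  have key : ∀ y α β, u ≤ α → α ≤ a → a ≤ β → β ≤ v → G α + -V * α ≤ G y + -V * y →
      G β + -V * β ≤ G y + -V * y → 0 ≤ c y → β - α = 1 - c y →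
      (c y = 0 ∨ (G α + -V * α = G y + -V * y ∧ G β + -V * β = G y + -V * y)) →
      Chord (fun t => G t + -V * t) u v y (c y) := by
    intro y α β k1 k2 k3 k4 k5 k6 k7 k8 k9
    refine chord_of_V (ψ := fun t => G t + -V * t) (a1 := a) (a2 := a) (α := α) (β := β) le_rfl
      (fun s t _ h1 h2 => panti s t h1 h2) (fun t h1 h2 => by rw [le_antisymm h2 h1])
      (fun s t h1 h2 h3 => pmono s t h1 h2 h3) k1 k2 k3 k4 k5 k6
      (fun h => absurd h (lt_irrefl _)) k7 k8 ?_
    rcases k9 with h | h
    · exact Or.inl h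
    · exact Or.inr ⟨Or.inl h.1, Or.inl h.2⟩
  refine ⟨c, ccont, hba.le, ?_, cR, c0, ?_, ?_, ?_, ?_⟩
  · intro y hy1 hy2
    rcases le_total y (b - 1) with h1 | h1
    · have := ple y h1
      exact key y (b - 1) b hu hba.le hab hbv this (by linarith) (c0 y h1).ge
        (by rw [c0 y h1]; ring) (Or.inl (c0 y h1))
    rcases le_total y a with h2 | h2
    · obtain ⟨r1, r2, r3⟩ := Yran (a - y) (by linarith) (by linarith)
      have e : G (Y (a - y)) + -V * Y (a - y) = G y + -V * y := by
        rw [hf] at r3
        have : G (Y (a - y)) / V = Y (a - y) - y := by linarith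
        rw [div_eq_iff hV0.ne'] at this
        rw [hG0 y h2, this]
        ring
      exact key y y (Y (a - y)) hy1 h2 r1 (r2.trans hbv) le_rfl e.le
        (by rw [cM y h1 h2]; linarith) (by rw [cM y h1 h2]; ring) (Or.inr ⟨rfl, e⟩)
    rcases le_total y b with h3 | h3
    · have r1 := fmono a y le_rfl h2 hy2
      have r2 := fmono y b h2 h3 hbv
      rw [fa, hf] at r1
      rw [fb, hf] at r2
      have e : G (y - G y / V) + -V * (y - G y / V) = G y + -V * y := by
        rw [hG0 _ (by linarith)]
        field_simp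
        ring
      have r3 : 0 ≤ c y := by
        rw [cR y h2]
        exact le_max_right _ _
      exact key y (y - G y / V) y (by linarith) (by linarith) h2 hy2 e.le le_rfl r3
        (by rw [cN y h2 h3]; ring) (Or.inr ⟨e, rfl⟩)
    · have := pge y h3 hy2
      exact key y (b - 1) b hu hba.le hab hbv (by linarith) this (c1 y h3 hy2).ge
        (by rw [c1 y h3 hy2]; ring) (Or.inl (c1 y h3 hy2))
  · refine ConvexOn.congr (f := fun t => b - Y (a - t)) ?_ fun t ht => ?_
    · refine ⟨convex_Iic _, fun x _ y _ p q hp hq hpq => ?_⟩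
      have h := Yconc.2 (mem_univ (a - x)) (mem_univ (a - y)) hp hq hpq
      simp only [smul_eq_mul] at h ⊢
      have hq' : q = 1 - p := by linarith
      subst hq'
      have e : a - (p * x + (1 - p) * y) = p * (a - x) + (1 - p) * (a - y) := by ring
      rw [e]
      linarith
    · simp only
      rw [cL t ht]
      ring
  · intro s t h1 h2 h3
    rw [cM t (h1.trans h2) h3, cM s h1 (h2.trans h3)]
    obtain ⟨k1, k2⟩ := Ysl (a - t) (a - s) (by linarith)
    obtain ⟨r1, r2, r3⟩ := Yran (a - t) (by linarith) (by linarith)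
    obtain ⟨r4, r5, r6⟩ := Yran (a - s) (by linarith) (by linarith)
    have k3 := (fsl (Y (a - t)) (Y (a - s)) r1 (by linarith) (r5.trans hbv)).2
    rw [r3, r6] at k3
    have p1 : 0 < s1 - V := by linarith
    have p2 : 0 < s2 - V := by linarith
    constructor
    · rw [div_mul_eq_mul_div, le_div_iff₀ hV0] at k3
      rw [div_mul_eq_mul_div, div_le_iff₀ p2]
      nlinarith
    · have e : (a - s - (a - t)) / ((s1 - V) / V) = s1 / (s1 - V) * (t - s) - (t - s) := by
        field_simp
        ring
      linarith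
  · have ci : ∀ x y, IntervalIntegrable c MeasureTheory.volume x y :=
      fun x y => ccont.intervalIntegrable x y
    have I1 : ∫ t in u..(b - 1), c t = 0 := by
      rw [intervalIntegral.integral_congr (g := fun _ => (0 : ℝ))]
      · simp
      · intro t ht
        rw [uIcc_of_le hu] at ht
        exact c0 t ht.2
    have I4 : ∫ t in b..v, c t = 0 := by
      rw [intervalIntegral.integral_congr (g := fun _ => (0 : ℝ))]
      · simp
      · intro t ht
        rw [uIcc_of_le hbv] at ht
        exact c1 t ht.1 ht.2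
    have I2 : ∫ t in (b - 1)..a, c t = (a - (b - 1)) + (a ^ 2 - (b - 1) ^ 2) / 2 -
        ∫ t in (0 : ℝ)..(a - (b - 1)), Y t := by
      rw [intervalIntegral.integral_congr (g := fun t => (1 + t) - Y (a - t))]
      · rw [intervalIntegral.integral_sub (by
            apply Continuous.intervalIntegrable
            fun_prop) (by
            apply Continuous.intervalIntegrable
            fun_prop), intervalIntegral.integral_comp_sub_left (fun x => Y x) a, sub_self,
          intervalIntegral.integral_add (by
            apply Continuous.intervalIntegrable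
            fun_prop) (by
            apply Continuous.intervalIntegrable
            fun_prop), integral_id]
        simp
      · intro t ht
        rw [uIcc_of_le hba.le] at ht
        exact cM t ht.1 ht.2
    have I3 : ∫ t in a..b, c t = (1 + a) * (b - a) - (b ^ 2 - a ^ 2) / 2 -
        ∫ t in a..b, f t := by
      rw [intervalIntegral.integral_congr (g := fun t => ((1 + a) - t) - f t)]
      · rw [intervalIntegral.integral_sub (by
            apply Continuous.intervalIntegrable
            fun_prop) (fcont.intervalIntegrable _ _),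
          intervalIntegral.integral_sub (by
            apply Continuous.intervalIntegrable
            fun_prop) (by
            apply Continuous.intervalIntegrable
            fun_prop), integral_id]
        simp
        ring
      · intro t ht
        rw [uIcc_of_le hab] at ht
        simp only
        rw [cN t ht.1 ht.2, hf]
        ring
    have Ymono : Monotone Y := fun s t hst => by
      have := (Ysl s t hst).1
      linarith
    have hy := young hab fcont (fun s t h1 h2 h3 => fmono s t h1 h2 (h3.trans hbv)) Ycont Ymono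
      Yinv
    rw [fa, fb] at hy
    rw [← intervalIntegral.integral_add_adjacent_intervals (ci u (b - 1)) (ci (b - 1) v),
      ← intervalIntegral.integral_add_adjacent_intervals (ci (b - 1) a) (ci a v),
      ← intervalIntegral.integral_add_adjacent_intervals (ci a b) (ci b v), I1, I2, I3, I4]
    linarith
  · intro t y h1 h2 h3 h4
    rcases le_total t a with h | h
    · have := panti (b - 1) t h1 h
      have := pge y h3 h4
      linarith
    · exact pmono t y h h2 h4

end Pool.Agent.P.MP_8707bd_ag.Nag
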