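import Pool.Agent.P.MP_8707bd_ag.Nag.WholeA
import Pool.Agent.P.MP_8707bd_ag.Nag.Lift
import Pool.Agent.P.MP_8707bd_ag.Nag.Top

/-!
The three correcting points of the whole covering (helper file only).
-/

namespace Pool.Agent.P.MP_8707bd_ag.Nag

open Set

theorem midData {E p a : ℝ} {nG : ℕ} {CT : ℝ → ℝ} (hE : 10 ^ 10 ≤ E) (hp1 : 1 / 2 ≤ p)
    (hp2 : p ≤ 3 / 5) (hpa : 1 - p ≤ a) (hpa2 : E * (a - (1 - p)) ≤ 1)
    (hnG : (nG : ℝ) ≤ 175003 / 100000 * E) (hCT : Continuous CT) (hCa : CT a = E * (1 - a))
    (hs : Slope CT 0 a (9992 / 10000 * E) (10008 / 10000 * E)) (hconv : ConvexOn ℝ (Iic a) CT) :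
    ∃ (t2 : ℝ) (c2 : ℝ → ℝ), 0 ≤ t2 ∧ t2 ≤ 1 - p ∧ E * (1 - p - t2) ≤ 13 ∧ Continuous c2 ∧
      c2 (-p) = 0 ∧ E * (1 - t2) - CT t2 - nG * (1 - p - t2) = 3 * c2 t2 ∧
      ConvexOn ℝ (Iic t2) c2 ∧ (∀ u, Slope c2 u t2 0 2) ∧
      3 * (∫ t in (-p)..t2, c2 t) = 3 / 2 - E * (((1 - t2) ^ 2 - (1 - a) ^ 2) / 2) +
        (∫ t in t2..a, CT t) + nG * ((1 - p - t2) ^ 2 / 2) ∧
      ∀ e : ℝ, 0 ≤ e → Cov p (-p) t2 nG (fun y => E * (1 - y) - CT y - 3 * c2 y) e →
        Cov p (-p) a (nG + 3) (fun y => E * (1 - y) - CT y) e := by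
  have hE0 : 0 < E := by linarith [show (0 : ℝ) < 10 ^ 10 by norm_num]
  have hnG0 : (0 : ℝ) ≤ nG := Nat.cast_nonneg nG
  obtain ⟨R, hR⟩ : ∃ R : ℝ → ℝ, R = fun t => E * (1 - t) - CT t - nG * max (1 - p - t) 0 :=
    ⟨_, rfl⟩
  have hRc : Continuous R := by rw [hR]; fun_prop
  have hRa : R a = 0 := by
    rw [hR]
    simp only
    rw [hCa, max_eq_right (by linarith)]
    ring
  have hRs : Slope R 0 a (-(2001 / 1000 * E)) (-(249 / 1000 * E)) := by
    intro s t h0 hst hta
    obtain ⟨h1, h2⟩ := hs s t h0 hst hta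
    have hts : 0 ≤ t - s := by linarith
    have h3 : 0 ≤ max (1 - p - s) 0 - max (1 - p - t) 0 :=
      sub_nonneg.2 (max_le_max (by linarith) le_rfl)
    have h4 : max (1 - p - s) 0 - max (1 - p - t) 0 ≤ t - s := by
      rcases le_total (1 - p - s) 0 with h | h
      · rw [max_eq_right h]
        linarith [le_max_right (1 - p - t) 0]
      · rw [max_eq_left h]
        linarith [le_max_left (1 - p - t) 0]
    have h5 := mul_nonneg hnG0 h3
    have h6 := mul_le_mul_of_nonneg_left h4 hnG0
    have h7 := mul_le_mul_of_nonneg_right hnG hts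
    have h8 := mul_nonneg hE0.le hts
    rw [hR]
    simp only
    constructor
    · linarith
    · linarith
  have hRconv : ConvexOn ℝ (Iic a) fun t => -R t := by
    have := wa_add (wa_add (wa_affine E (-E) (convex_Iic a)) hconv)
      (wa_mul hnG0 (wa_max (-1) (1 - p) (convex_Iic a)))
    refine this.congr fun t _ => ?_
    rw [hR]
    simp only
    have e : -1 * t + (1 - p) = 1 - p - t := by ring
    rw [e]
    ring
  have hp0 : 0 ≤ 1 - p := by linarith
  have hR1 : R (1 - p) ≤ 3 := by
    have := (hRs (1 - p) a hp0 hpa le_rfl).1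
    rw [hRa] at this
    nlinarith
  have hR0 : 3 ≤ R 0 := by
    have := (hRs 0 a le_rfl (by linarith) le_rfl).2
    rw [hRa] at this
    nlinarith
  obtain ⟨t2, ⟨ht0, ht1⟩, ht3⟩ := intermediate_value_Icc' hp0 hRc.continuousOn ⟨hR1, hR0⟩
  have hta : t2 ≤ a := ht1.trans hpa
  have hgap : E * (a - t2) ≤ 13 := by
    have := (hRs t2 a ht0 hta le_rfl).2
    rw [hRa, ht3] at this
    nlinarith
  obtain ⟨G, hG⟩ : ∃ G : ℝ → ℝ, G = fun t => 1 - R (max t t2) / 3 := ⟨_, rfl⟩
  have hGc : Continuous G := by rw [hG]; fun_prop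
  have hG0 : ∀ t, t ≤ t2 → G t = 0 := by
    intro t ht
    rw [hG]
    simp only
    rw [max_eq_right ht, ht3]
    norm_num
  have hGr : ∀ t, t2 ≤ t → G t = 1 - R t / 3 := by
    intro t ht
    rw [hG]
    simp only
    rw [max_eq_left ht]
  have hGconv : ConvexOn ℝ (Icc t2 a) G := by
    have h1 : ConvexOn ℝ (Icc t2 a) fun t => -R t :=
      hRconv.subset (fun t ht => ht.2) (convex_Icc t2 a)
    have := wa_add (wa_mul (c := 1 / 3) (by norm_num) h1) (convexOn_const 1 (convex_Icc t2 a))
    refine this.congr fun t ht => ?_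
    simp only
    rw [hGr t ht.1]
    ring
  have hGs : Slope G t2 a 2 E := by
    intro s t h1 hst h2
    obtain ⟨h3, h4⟩ := hRs s t (ht0.trans h1) hst h2
    rw [hGr s h1, hGr t (h1.trans hst)]
    have hts : 0 ≤ t - s := by linarith
    have h8 := mul_nonneg hE0.le hts
    have h9 := mul_le_mul_of_nonneg_right hE hts
    constructor
    · linarith
    · linarith
  have hGa : G a = 1 := by
    rw [hGr a hta, hRa]
    norm_num
  obtain ⟨c2, hc, -, hch, hcr, hcl, hck, hcs, hci, -⟩ :=
    top (u := -p) (V := 1) (b := a) (v := a) hGc hG0 hGconv hGs one_pos (by norm_num) hta le_rfl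
      hGa (by linarith)
  have hc3 : ∀ t, t2 ≤ t → t ≤ a → 3 * c2 t = R t := by
    intro t h1 h2
    have h3 := (hRs t a (ht0.trans h1) h2 le_rfl).2
    rw [hRa] at h3
    have h4 : 0 ≤ R t := by nlinarith [mul_nonneg hE0.le (sub_nonneg.2 h2)]
    rw [hcr t h1, hGr t h1, max_eq_left (by linarith)]
    ring
  have hGpos : ∀ s t, t2 ≤ s → s < t → t ≤ a → G s < G t := by
    intro s t h1 h2 h3
    have := (hGs s t h1 h2.le h3).1
    linarith
  refine ⟨t2, c2, ht0, ht1, by nlinarith, hc, hcl _ (by linarith), ?_, wa_kink hck, ?_, ?_, ?_⟩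
  · rw [hc3 t2 le_rfl hta, hR]
    simp only
    rw [max_eq_left (by linarith)]
  · intro u
    exact wa_slope_ext hcl hcs (div_nonneg hE0.le (by linarith)) (by norm_num) (by norm_num) u
  · have hadd := intervalIntegral.integral_add_adjacent_intervals (μ := MeasureTheory.volume)
      (a := -p) (b := t2) (c := a) (hc.intervalIntegrable _ _) (hc.intervalIntegrable _ _)
    have h1 : 3 * (∫ t in t2..a, c2 t) = ∫ t in t2..a, R t := by
      rw [← intervalIntegral.integral_const_mul]
      refine intervalIntegral.integral_congr fun t ht => ?_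
      rw [uIcc_of_le hta] at ht
      exact hc3 t ht.1 ht.2
    have h2 : (∫ t in t2..a, R t) = E * (((1 - t2) ^ 2 - (1 - a) ^ 2) / 2) -
        (∫ t in t2..a, CT t) - nG * ((1 - p - t2) ^ 2 / 2) := by
      rw [hR]
      simp only
      rw [intervalIntegral.integral_sub
          ((by fun_prop : Continuous fun t => E * (1 - t) - CT t).intervalIntegrable _ _)
          ((by fun_prop : Continuous fun t => (nG : ℝ) * max (1 - p - t) 0).intervalIntegrable _ _),
        intervalIntegral.integral_sub
          ((by fun_prop : Continuous fun t => E * (1 - t)).intervalIntegrable _ _)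
          (hCT.intervalIntegrable _ _),
        intervalIntegral.integral_const_mul, intervalIntegral.integral_const_mul, wa_int_one_sub,
        wa_int_max ht1 hpa]
    rw [hci] at hadd
    linarith
  · intro e he inner
    have key := lift (ι := Fin 3) (n := nG + 3) (u0 := -p) (v0 := a)
      (h := fun y => E * (1 - y) - CT y) (e' := 0) inner (by simp) le_rfl le_rfl hta he le_rfl G
      (fun t _ h => hG0 t h)
      (fun t h1 h2 h3 => by
        rcases h3 with h3 | h3
        · exact absurd h1 (not_le.2 h3)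
        · have := hGpos t2 t le_rfl h3 h2
          rwa [hG0 t2 le_rfl] at this)
      (fun _ => -1) (fun _ => c2) (fun _ y h1 h2 => hch y h1 h2)
      (fun y => max (1 - p - y) 0)
      (fun y h1 h2 h3 => by
        rcases h3 with h3 | h3
        · exact absurd h1 (not_le.2 h3)
        · refine ⟨le_max_right _ _, -p, min y (1 - p), le_rfl, (min_le_left _ _).trans h2, ?_,
            fun t _ ht => ?_, ?_⟩
          · rcases le_total y (1 - p) with h | h
            · rw [min_eq_left h, max_eq_left (by linarith)]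
              ring
            · rw [min_eq_right h, max_eq_right (by linarith)]
              ring
          · have hty : t < y := lt_of_lt_of_le ht (min_le_left _ _)
            rcases le_total t t2 with h | h
            · have := hGpos t2 y le_rfl h3 h2
              rw [hG0 t2 le_rfl] at this
              rwa [hG0 t h]
            · exact hGpos t y h hty h2
          · rcases le_total y (1 - p) with h | h
            · right
              intro t h4 h5 h6
              rcases h6 with h6 | h6
              · exact absurd h4 (not_le.2 h6)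
              · rw [min_eq_left h] at h6
                exact hGpos y t h3.le h6 h5
            · left
              exact max_eq_right (by linarith))
      (fun y _ _ => by simp)
      (fun y h1 h2 h3 => by
        rcases h3 with h3 | h3
        · exact absurd h1 (not_le.2 h3)
        · have := hc3 y h3.le h2
          rw [hR] at this
          simp only [Finset.sum_const, Finset.card_univ, Fintype.card_fin, nsmul_eq_mul] at this ⊢
          push_cast
          linarith)
    rwa [add_zero] at key

end Pool.Agent.P.MP_8707bd_ag.Nag
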