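import Pool.Agent.P.MP_8707bd_ag.Nag.WholeB
import Pool.Agent.P.MP_8707bd_ag.Nag.WholeC
import Pool.Agent.P.MP_8707bd_ag.Nag.Descent

/-!
The whole covering (helper file only).
-/

namespace Pool.Agent.P.MP_8707bd_ag.Nag

open Set

theorem whole_count {E p L : ℝ} {nG : ℕ} (hE : 10 ^ 10 ≤ E) (hp1 : 1 / 2 ≤ p)
    (hp2 : p ≤ 1 / 2 + 1 / 10 ^ 5) (hL1 : E * (1 - L) ≤ 13) (hL2 : L ≤ 1)
    (h1 : E * (1 + p + p ^ 2) - 3 ≤ nG) (h2 : (nG : ℝ) ≤ E * (1 + p + p ^ 2)) :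
    ∃ n nU : ℕ, nG = n + nU ∧ 99 / 100 * (E / 4) ≤ n ∧ (n : ℝ) ≤ 101 / 100 * (E / 4) ∧
      0 < n * L - (nG - E * (1 + p)) ∧ n * L - (nG - E * (1 + p)) ≤ L := by
  have hE0 : 0 < E := by linarith [show (0 : ℝ) < 10 ^ 10 by norm_num]
  have hL0 : 999 / 1000 ≤ L := by
    by_contra h
    push Not at h
    nlinarith
  have hp3 : 1 / 4 ≤ p ^ 2 := by nlinarith
  have hp4 : p ^ 2 ≤ 25002 / 100000 := by nlinarith
  have hM1 : E / 4 - 3 ≤ nG - E * (1 + p) := by nlinarith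
  have hM2 : nG - E * (1 + p) ≤ 25002 / 100000 * E := by nlinarith
  obtain ⟨M, hM⟩ : ∃ M : ℝ, M = nG - E * (1 + p) := ⟨_, rfl⟩
  rw [← hM] at hM1 hM2 ⊢
  have hLpos : 0 < L := by linarith
  have hM0 : 0 ≤ M / L := div_nonneg (by linarith) hLpos.le
  have h3 : (⌊M / L⌋₊ : ℝ) ≤ M / L := Nat.floor_le hM0
  have h4 : M / L < ⌊M / L⌋₊ + 1 := Nat.lt_floor_add_one _
  rw [le_div_iff₀ hLpos] at h3
  rw [div_lt_iff₀ hLpos] at h4
  obtain ⟨k, hk⟩ : ∃ k : ℕ, k = ⌊M / L⌋₊ := ⟨_, rfl⟩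
  rw [← hk] at h3 h4
  have hk0 : (0 : ℝ) ≤ k := Nat.cast_nonneg k
  have h5 : 999 / 1000 * (k : ℝ) ≤ M := by nlinarith
  have h6 : M ≤ k + 1 := by nlinarith
  have h7 : k + 1 ≤ nG := by
    have : ((k + 1 : ℕ) : ℝ) ≤ nG := by
      push_cast
      nlinarith
    exact_mod_cast this
  refine ⟨k + 1, nG - (k + 1), by omega, ?_, ?_, ?_, ?_⟩
  · push_cast
    linarith
  · push_cast
    linarith
  · push_cast
    linarith
  · push_cast
    linarith

theorem whole_nums {E p : ℝ} {r K : ℕ} (hE : 10 ^ 10 ≤ E) (hp1 : 1 / 2 ≤ p)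
    (hp2 : p ≤ 1 / 2 + 1 / 10 ^ 5) (hr : (r : ℝ) = E * (1 + p) ^ 2)
    (hK2 : 5 * 10 ^ 6 * (K : ℝ) ≤ E) :
    ∃ (n0 nG : ℕ) (a : ℝ), r = nG + 3 + (n0 + 500 * K) ∧ a = 1 - (n0 + 500 * K) / E ∧
      E * (1 - a) = n0 + 500 * K ∧ 1 - p ≤ a ∧ E * (a - (1 - p)) ≤ 1 ∧
      49989 / 100000 * E ≤ n0 ∧ (n0 : ℝ) + 500 * K ≤ 50001 / 100000 * E ∧
      E * (1 + p + p ^ 2) - 3 ≤ nG ∧ (nG : ℝ) ≤ E * (1 + p + p ^ 2) ∧
      175 / 100 * E - 3 ≤ nG ∧ (nG : ℝ) ≤ 175003 / 100000 * E := by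
  have hE0 : 0 < E := by linarith [show (0 : ℝ) < 10 ^ 10 by norm_num]
  have hK0 : (0 : ℝ) ≤ K := Nat.cast_nonneg K
  have hEp1 : E / 2 ≤ E * p := by linarith [mul_le_mul_of_nonneg_left hp1 hE0.le]
  have hEp2 : E * p ≤ 50001 / 100000 * E := by linarith [mul_le_mul_of_nonneg_left hp2 hE0.le]
  have hp3 : 1 / 4 ≤ p ^ 2 := by nlinarith
  have hp4 : p ^ 2 ≤ 25002 / 100000 := by nlinarith
  have hp5 := mul_le_mul_of_nonneg_left hp3 hE0.le
  have hp6 := mul_le_mul_of_nonneg_left hp4 hE0.le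
  obtain ⟨nT, hT1, hT2⟩ : ∃ nT : ℕ, (nT : ℝ) ≤ E * p ∧ E * p < nT + 1 :=
    ⟨⌊E * p⌋₊, Nat.floor_le (by linarith), Nat.lt_floor_add_one _⟩
  obtain ⟨n0, hn0⟩ : ∃ n0 : ℕ, nT = n0 + 500 * K := by
    refine ⟨nT - 500 * K, ?_⟩
    have : ((500 * K : ℕ) : ℝ) ≤ nT := by
      push_cast
      linarith
    have : 500 * K ≤ nT := by exact_mod_cast this
    omega
  have hn0R : (nT : ℝ) = n0 + 500 * K := by rw [hn0]; push_cast; ring
  obtain ⟨nG, hnG⟩ : ∃ nG : ℕ, r = nG + 3 + nT := by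
    refine ⟨r - (3 + nT), ?_⟩
    have : ((3 + nT : ℕ) : ℝ) ≤ r := by
      push_cast
      linarith
    have : 3 + nT ≤ r := by exact_mod_cast this
    omega
  have hnGR : (r : ℝ) = nG + 3 + nT := by rw [hnG]; push_cast; ring
  obtain ⟨a, ha⟩ : ∃ a : ℝ, a = 1 - (n0 + 500 * K) / E := ⟨_, rfl⟩
  have hEa : E * (1 - a) = nT := by
    rw [ha, hn0R]
    field_simp
    ring
  have hpa : 1 - p ≤ a := by
    by_contra h
    push Not at h
    have := mul_lt_mul_of_pos_left h hE0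
    linarith
  refine ⟨n0, nG, a, by rw [hnG, hn0], ha, by linarith, hpa, ?_, ?_, ?_, ?_, ?_, ?_, ?_⟩ <;>
    linarith

theorem whole_int {E p a z nG nT nU n : ℝ} {CT c2 : ℝ → ℝ} (hCc : Continuous CT)
    (hc : Continuous c2) (hCi : (∫ t in (-p)..a, CT t) = nT / 2 - E * (1 - a) ^ 2 / 2)
    (hci : 3 * (∫ t in (-p)..z, c2 t) = 3 / 2 - E * (((1 - z) ^ 2 - (1 - a) ^ 2) / 2) +
        (∫ t in z..a, CT t) + nG * ((1 - p - z) ^ 2 / 2))
    (hT : nT = E * (1 + p) ^ 2 - nG - 3) (hU : nU = nG - n) :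
    (∫ t in (-p)..z, (nG * (1 - t) - nU * p - E * (1 - t) + CT t + 3 * c2 t)) =
      n * p * (p + z) := by
  have hadd := intervalIntegral.integral_add_adjacent_intervals (μ := MeasureTheory.volume)
    (a := -p) (b := z) (c := a) (hCc.intervalIntegrable _ _) (hCc.intervalIntegrable _ _)
  have e : (fun t => nG * (1 - t) - nU * p - E * (1 - t) + CT t + 3 * c2 t) =
      fun t => (nG - E) * (1 - t) - nU * p + CT t + 3 * c2 t := by
    funext t
    ring
  have h3 : (∫ t in (-p)..z, 3 * c2 t) = 3 * ∫ t in (-p)..z, c2 t :=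
    intervalIntegral.integral_const_mul _ _
  rw [e, intervalIntegral.integral_add
      ((by fun_prop : Continuous fun t =>
        (nG - E) * (1 - t) - nU * p + CT t).intervalIntegrable _ _)
      ((by fun_prop : Continuous fun t => 3 * c2 t).intervalIntegrable _ _), h3, hci,
    intervalIntegral.integral_add
      ((by fun_prop : Continuous fun t : ℝ =>
        (nG - E) * (1 - t) - nU * p).intervalIntegrable _ _)
      (hCc.intervalIntegrable _ _),
    intervalIntegral.integral_sub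
      ((by fun_prop : Continuous fun t : ℝ => (nG - E) * (1 - t)).intervalIntegrable _ _)
      (continuous_const.intervalIntegrable _ _),
    intervalIntegral.integral_const, intervalIntegral.integral_const_mul, wa_int_one_sub]
  rw [hCi] at hadd
  have hI : (∫ t in (-p)..z, CT t) =
      nT / 2 - E * (1 - a) ^ 2 / 2 - ∫ t in z..a, CT t := by linarith
  rw [hI, hT, hU, smul_eq_mul]
  ring

theorem whole_log {E : ℝ} {K : ℕ} (hK2 : 5 * 10 ^ 6 * (K : ℝ) ≤ E) :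
    -Real.log (2 / 2 ^ K) ≤ E / 4 / 400 := by
  have hK0 : (0 : ℝ) ≤ K := Nat.cast_nonneg K
  rw [Real.log_div (by norm_num) (by positivity), Real.log_pow]
  have h1 := Real.log_two_lt_d9
  have h2 := Real.log_two_gt_d9
  have h3 : (K : ℝ) * Real.log 2 ≤ K * 1 := mul_le_mul_of_nonneg_left (by linarith) hK0
  linarith

theorem whole {E p v : ℝ} {r K : ℕ} (hE : 10 ^ 10 ≤ E) (hp1 : 1 / 2 ≤ p)
    (hp2 : p ≤ 1 / 2 + 1 / 10 ^ 5) (hr : (r : ℝ) = E * (1 + p) ^ 2) (hK1 : 1 ≤ K)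
    (hK2 : 5 * 10 ^ 6 * (K : ℝ) ≤ E) (hv : 1 ≤ v) :
    CovTop p (-p) v r (fun t => E * max (1 - t) 0) (2 * E / 2 ^ K) 1 := by
  have hE0 : 0 < E := by linarith [show (0 : ℝ) < 10 ^ 10 by norm_num]
  obtain ⟨n0, nG, a, hnG, ha, hEa, hpa, hpa2, hn01, hn02, hG1, hG2, hG3, hG4⟩ :=
    whole_nums hE hp1 hp2 hr hK2
  have hnGR : (r : ℝ) = nG + 3 + (n0 + 500 * K) := by rw [hnG]; push_cast; ring
  have hp35 : p ≤ 3 / 5 := by linarith
  obtain ⟨CT, Ω, hCc, hCp, hCa, hCR, hCL, hCconv, hCK, hΩ, hCi, hCl⟩ :=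
    topData (n0 := n0) hE hp1 hK1 hK2 hv ha hpa hn01 hn02
  obtain ⟨z, c2, hz0, hz1, hz2, hc, hcp, hcz, hcconv, hcs, hci, hcl⟩ :=
    midData (nG := nG) hE hp1 hp35 hpa hpa2 hG4 hCc (by rw [hCa, hEa]) hCR hCconv
  have hza : z ≤ a := hz1.trans hpa
  have hzpos : 0 < z := by
    by_contra h
    push Not at h
    have := mul_le_mul_of_nonneg_left (show 2 / 5 ≤ 1 - p - z by linarith) hE0.le
    linarith
  obtain ⟨n, nU, hn, hn1, hn2, hj0, hj1⟩ :=
    whole_count (L := p + z) hE hp1 hp2 (by linarith) (by linarith) hG1 hG2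
  have hnR : (nG : ℝ) = n + nU := by rw [hn]; push_cast; ring
  have h2K : (0 : ℝ) < 2 ^ K := by positivity
  have h2K' : (2 : ℝ) ≤ 2 ^ K := by
    have : (2 : ℝ) ^ 1 ≤ 2 ^ K := pow_le_pow_right₀ (by norm_num) hK1
    simpa using this
  obtain ⟨F, hF⟩ : ∃ F : ℝ → ℝ,
      F = fun t => nG * (1 - t) - nU * p - E * (1 - t) + CT t + 3 * c2 t := ⟨_, rfl⟩
  have hτ : (2 / 2 ^ K : ℝ) / 2 = 1 / 2 ^ K := by ring
  have hblock := block (p := p) (ν := E / 4) (τ := 2 / 2 ^ K) (x := p) (z := z)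
    (j := n * (p + z) - (nG - E * (1 + p))) (n := n) (F := F) Ω (by linarith) (by positivity)
    (by rw [div_le_one h2K]; exact h2K')
    (whole_log hK2)
    (by rw [hτ]; exact hΩ) hn1 hn2
    (by
      rw [hτ]
      refine le_trans ?_ hp1
      exact one_div_le_one_div_of_le (by norm_num) h2K')
    le_rfl hp35 hzpos (by linarith) hj0 hj1 (by rw [hF]; fun_prop)
    (by
      intro ω hω
      have h1 := (hCK ω hω).subset (fun t (ht : t ∈ Icc (-p) z) => ht.2.trans hza)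
        (convex_Icc (-p) z)
      have h2 := hcconv.subset (fun t (ht : t ∈ Icc (-p) z) => ht.2) (convex_Icc (-p) z)
      have h3 := wa_add (wa_add (wa_affine (E - nG) (nG - nU * p - E) (convex_Icc (-p) z)) h1)
        (wa_mul (c := 3) (by norm_num) h2)
      refine h3.congr fun t _ => ?_
      rw [hF]
      simp only
      ring)
    (by
      intro s t h0 hst htz
      obtain ⟨h1, h2⟩ := hCR s t h0 hst (htz.trans hza)
      obtain ⟨h3, h4⟩ := hcs s s t le_rfl hst htz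
      have hts : 0 ≤ t - s := by linarith
      have h5 := mul_le_mul_of_nonneg_right hG3 hts
      have h6 := mul_le_mul_of_nonneg_right hG4 hts
      have h7 := mul_le_mul_of_nonneg_right hE hts
      rw [hF]
      simp only
      constructor
      · linarith
      · linarith)
    (by
      intro s t h0 hst ht0
      obtain ⟨h1, h2⟩ := hCL s t h0 hst ht0
      obtain ⟨h3, h4⟩ := hcs s s t le_rfl hst (ht0.trans hz0)
      have hts : 0 ≤ t - s := by linarith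
      have h5 := mul_le_mul_of_nonneg_right hG3 hts
      have h6 := mul_le_mul_of_nonneg_right hG4 hts
      have h7 := mul_le_mul_of_nonneg_right hE hts
      rw [hF]
      simp only
      constructor
      · linarith
      · linarith)
    (by
      rw [hF]
      simp only
      rw [← hcz, hnR]
      ring)
    (by
      rw [hF]
      simp only
      rw [hCp, hcp, hnR]
      ring)
    (by
      rw [hF]
      exact whole_int hCc hc hCi hci (by linarith) (by linarith))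
  have he : 4 * (E / 4) * (2 / 2 ^ K) = 2 * E / 2 ^ K := by ring
  rw [he] at hblock
  have he0 : 0 ≤ 2 * E / 2 ^ K := by positivity
  have hU := lift_U (k := nU) (n := nG) (h := fun y => E * (1 - y) - CT y - 3 * c2 y) (e' := 0)
    hblock hn le_rfl (by linarith) he0 le_rfl
    (fun y _ _ => by
      rw [hF]
      simp only
      rw [hnR]
      apply le_of_eq
      rw [abs_eq_zero]
      ring)
  rw [add_zero] at hU
  have := hCl _ _ he0 (hcl _ he0 hU)
  rwa [← hnG] at this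

end Pool.Agent.P.MP_8707bd_ag.Nag
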