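import Mathlib
import Pool.Agent.P.MP_8707bd_ag.Nag.Whole
import Pool.Agent.P.MP_8707bd_ag.Nag.FinalB

/-!
The exponentially sharp Nagata bound.
-/

namespace Pool.Agent.P.MP_8707bd_ag.Nag

theorem final (r m d : ℕ) (hr : 10 ^ 11 ≤ r) (hm : 1 ≤ m)
    (hd : (d : ℝ) < (√r - Real.exp (-(r / 10 ^ 8))) * m ∨
      (√r + Real.exp (-(r / 10 ^ 8))) * m + 2 * √r ≤ d) :
    ∃ Φ : MvPolynomial (Fin r × Fin 3) ℂ, Φ ≠ 0 ∧ ∀ p : Fin r → Fin 3 → ℂ,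
      MvPolynomial.eval (fun ij : Fin r × Fin 3 => p ij.1 ij.2) Φ ≠ 0 →
      Module.finrank ℂ (fat p (fun _ => m) d) = (d + 2).choose 2 - r * (m + 1).choose 2 ∧
      ∀ (F : MvPolynomial (Fin 3) ℂ) (e : ℕ) (n : Fin r → ℕ), F ≠ 0 → F.IsHomogeneous e →
        (∀ i, F ∉ ptIdeal (p i) ^ (n i + 1)) → ∑ i, n i + 1 = 3 * e →
        (∀ G ∈ fat p (fun _ => m) d, F ^ 2 ∣ G) → fat p (fun _ => m) d = ⊥ :=
  final_of_whole whole r m d hr hm hd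

end Pool.Agent.P.MP_8707bd_ag.Nag
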