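import Mathlib
import Pool.Agent.P.MP_8707bd_ag.Nag.Defs
import Pool.Agent.P.MP_8707bd_ag.Nag.Inv

/-!
The price for the top points (helper file only).
-/

namespace Pool.Agent.P.MP_8707bd_ag.Nag

open Set

/-- the speeds of the top points -/
noncomputable def topV (i : ℕ) : ℝ := 1 - 1 / 2 ^ (i + 1)

theorem topV_lt (i : ℕ) : topV i < 1 := by
  unfold topV
  have : (0 : ℝ) < 1 / 2 ^ (i + 1) := by positivity
  linarith

theorem topV_ge (i : ℕ) : 1 / 2 ≤ topV i := by
  unfold topV
  have h : (1 : ℝ) ≤ 2 ^ i := one_le_pow₀ (by norm_num)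
  have : (1 : ℝ) / 2 ^ (i + 1) ≤ 1 / 2 := by
    apply one_div_le_one_div_of_le (by norm_num)
    rw [pow_succ]
    linarith
  linarith

theorem topV_pos (i : ℕ) : 0 < topV i := lt_of_lt_of_le (by norm_num) (topV_ge i)

/-- one kink -/
noncomputable def kink (i : ℕ) (g : ℝ) : ℝ := max (1 - g / topV i) 0

theorem kink_nonneg (i : ℕ) (g : ℝ) : 0 ≤ kink i g := le_max_right _ _

theorem kink_slope (i : ℕ) {s t : ℝ} (hst : s ≤ t) :
    0 ≤ kink i s - kink i t ∧ kink i s - kink i t ≤ 2 * (t - s) := by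
  have h0 := topV_pos i
  have h1 := topV_ge i
  have h2 : s / topV i ≤ t / topV i := div_le_div_of_nonneg_right hst h0.le
  have h3 : t / topV i - s / topV i ≤ 2 * (t - s) := by
    rw [← sub_div, div_le_iff₀ h0]
    nlinarith
  unfold kink
  constructor
  · rw [sub_nonneg]
    exact max_le_max (by linarith) le_rfl
  · rcases le_total (1 - s / topV i) 0 with h | h
    · rw [max_eq_right h]
      have := le_max_right (1 - t / topV i) 0
      linarith
    · rw [max_eq_left h]
      have := le_max_left (1 - t / topV i) 0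
      linarith

theorem kink_zero (i : ℕ) : kink i 0 = 1 := by simp [kink]

theorem kink_one (i : ℕ) {g : ℝ} (hg : 1 ≤ g) : kink i g = 0 := by
  unfold kink
  apply max_eq_right
  have h0 := topV_pos i
  have h1 := topV_lt i
  have : 1 ≤ g / topV i := by
    rw [le_div_iff₀ h0]
    linarith
  linarith

theorem kink_le (i : ℕ) {g : ℝ} (h0 : 0 ≤ g) (hg : g ≤ 1) : kink i g ≤ 1 - g := by
  unfold kink
  apply max_le _ (by linarith)
  have h2 := topV_pos i
  have h1 := topV_lt i
  have : g ≤ g / topV i := by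
    rw [le_div_iff₀ h2]
    nlinarith
  linarith

theorem kink_cont (i : ℕ) : Continuous (kink i) := by
  unfold kink
  fun_prop

theorem kink_neg_conv (i : ℕ) : ConvexOn ℝ univ fun w : ℝ => kink i (-w) := by
  unfold kink
  apply ConvexOn.sup (f := fun w : ℝ => 1 - -w / topV i) (g := fun _ => (0 : ℝ))
  · refine ⟨convex_univ, fun x _ y _ a b ha hb hab => le_of_eq ?_⟩
    simp only [smul_eq_mul]
    have : b = 1 - a := by linarith
    subst this
    ring
  · exact convexOn_const _ convex_univ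

theorem topT {E a v : ℝ} {n0 K : ℕ} (hE : 0 < E) (hn0 : 0 < n0)
    (ha : a = 1 - (n0 + 500 * K) / E) (hv : 1 ≤ v) :
    ∃ G : ℝ → ℝ, Continuous G ∧ (∀ t, t ≤ a → G t = 0) ∧ ConvexOn ℝ (Icc a v) G ∧
      Slope G a v (E / (n0 + 1000 * K)) (E / n0) ∧ G 1 = 1 ∧
      (∀ t, a ≤ t → t ≤ v → n0 * max (1 - G t / 1) 0 +
        500 * ∑ i : Fin K, max (1 - G t / (1 - 1 / 2 ^ (i.1 + 1))) 0 = E * max (1 - t) 0) ∧
      ∀ i : Fin K, ∃ b, a ≤ b ∧ G b = 1 - 1 / 2 ^ (i.1 + 1) ∧
        n0 / E / 2 ^ (i.1 + 1) ≤ 1 - b ∧ 1 - b ≤ (n0 + 500 * K) / E / 2 ^ (i.1 + 1) := by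
  have hn : (0 : ℝ) < n0 := by exact_mod_cast hn0
  have hK : (0 : ℝ) ≤ K := Nat.cast_nonneg K
  obtain ⟨S, hS⟩ : ∃ S : ℝ → ℝ, ∀ g, S g = ∑ i : Fin K, kink i.1 g := ⟨_, fun _ => rfl⟩
  obtain ⟨yf, hyf⟩ : ∃ yf : ℝ → ℝ, ∀ g, yf g = 1 - (n0 * (1 - g) + 500 * S g) / E :=
    ⟨_, fun _ => rfl⟩
  have S0 : ∀ g, 0 ≤ S g := fun g => by
    rw [hS]
    exact Finset.sum_nonneg fun i _ => kink_nonneg _ _
  have Sz : S 0 = K := by
    rw [hS]
    simp [kink_zero]
  have S1 : ∀ g, 1 ≤ g → S g = 0 := fun g hg => by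
    rw [hS]
    exact Finset.sum_eq_zero fun i _ => kink_one _ hg
  have Sle : ∀ g, 0 ≤ g → g ≤ 1 → S g ≤ K * (1 - g) := fun g h0 h1 => by
    rw [hS]
    calc ∑ i : Fin K, kink i.1 g ≤ ∑ _i : Fin K, (1 - g) :=
          Finset.sum_le_sum fun i _ => kink_le _ h0 h1
      _ = K * (1 - g) := by
          rw [Finset.sum_const, Finset.card_univ, Fintype.card_fin, nsmul_eq_mul]
  have Ssl : ∀ s t, s ≤ t → 0 ≤ S s - S t ∧ S s - S t ≤ K * (2 * (t - s)) := fun s t hst => by
    rw [hS, hS, ← Finset.sum_sub_distrib]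
    constructor
    · exact Finset.sum_nonneg fun i _ => (kink_slope _ hst).1
    · calc ∑ i : Fin K, (kink i.1 s - kink i.1 t) ≤ ∑ _i : Fin K, 2 * (t - s) :=
            Finset.sum_le_sum fun i _ => (kink_slope _ hst).2
        _ = K * (2 * (t - s)) := by simp
  have ysl : ∀ s t, s ≤ t → n0 / E * (t - s) ≤ yf t - yf s ∧
      yf t - yf s ≤ (n0 + 1000 * K) / E * (t - s) := fun s t hst => by
    obtain ⟨h1, h2⟩ := Ssl s t hst
    have e1 : yf t - yf s = (n0 * (t - s) + 500 * (S s - S t)) / E := by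
      rw [hyf, hyf]
      field_simp
      ring
    rw [e1, div_mul_eq_mul_div, div_mul_eq_mul_div]
    constructor
    · apply div_le_div_of_nonneg_right _ hE.le
      linarith
    · apply div_le_div_of_nonneg_right _ hE.le
      nlinarith
  have y0 : yf 0 = a := by
    rw [hyf, Sz, ha]
    simp
  have y1 : yf 1 = 1 := by
    rw [hyf, S1 1 le_rfl]
    simp
  obtain ⟨g1, hg1⟩ : ∃ g1 : ℝ, g1 = 1 + (v - 1) * E / n0 := ⟨_, rfl⟩
  have hg11 : 1 ≤ g1 := by
    rw [hg1]
    have : 0 ≤ (v - 1) * E / n0 := div_nonneg (mul_nonneg (by linarith) hE.le) hn.le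
    linarith
  have yg : yf g1 = v := by
    rw [hyf, S1 g1 hg11, hg1]
    field_simp
    ring
  have Scont : Continuous S := by
    have : S = fun g => ∑ i : Fin K, kink i.1 g := funext hS
    rw [this]
    exact continuous_finsetSum _ fun i _ => kink_cont _
  have ycont : Continuous yf := by
    have : yf = fun g => 1 - (n0 * (1 - g) + 500 * S g) / E := funext hyf
    rw [this]
    fun_prop
  have Sconv : ConvexOn ℝ univ fun w : ℝ => S (-w) := by
    have : (fun w : ℝ => S (-w)) = fun w => ∑ i : Fin K, kink i.1 (-w) := funext fun w => hS _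
    rw [this]
    refine ⟨convex_univ, fun x _ y _ p q hp hq hpq => ?_⟩
    simp only [smul_eq_mul, Finset.mul_sum, ← Finset.sum_add_distrib]
    exact Finset.sum_le_sum fun i _ =>
      (kink_neg_conv i.1).2 (mem_univ x) (mem_univ y) hp hq hpq
  have fconv : ConvexOn ℝ (Icc (-g1) 0) fun w : ℝ => -yf (-w) := by
    refine ⟨convex_Icc _ _, fun x _ y _ p q hp hq hpq => ?_⟩
    have h := Sconv.2 (mem_univ x) (mem_univ y) hp hq hpq
    simp only [smul_eq_mul] at h ⊢
    rw [hyf, hyf, hyf]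
    have hq' : q = 1 - p := by linarith
    subst hq'
    have e : p * -(1 - (n0 * (1 - -x) + 500 * S (-x)) / E) +
        (1 - p) * -(1 - (n0 * (1 - -y) + 500 * S (-y)) / E) -
        -(1 - (n0 * (1 - -(p * x + (1 - p) * y)) + 500 * S (-(p * x + (1 - p) * y))) / E) =
        500 * (p * S (-x) + (1 - p) * S (-y) - S (-(p * x + (1 - p) * y))) / E := by
      field_simp
      ring
    have : 0 ≤ 500 * (p * S (-x) + (1 - p) * S (-y) - S (-(p * x + (1 - p) * y))) / E :=
      div_nonneg (by linarith) hE.le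
    linarith
  obtain ⟨Y, Ycont, Yconc, Ysl, Ytop, Yinv, Yran⟩ :=
    exists_inv (f := fun w : ℝ => -yf (-w)) (u := -g1) (v := 0) (lo := n0 / E) (by linarith)
      (div_pos hn hE) (by fun_prop) fconv (fun s t _ hst _ => by
        have := (ysl (-t) (-s) (by linarith)).1
        linarith)
  simp only [neg_zero, neg_neg, y0, yg] at Ytop Yinv Yran
  have Ginv : ∀ g, 0 ≤ g → g ≤ g1 → -Y (-yf g) = g := fun g h0 h1 => by
    have := Yinv (-g) (by linarith) (by linarith)
    rw [neg_neg] at this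
    linarith
  have Gran : ∀ t, a ≤ t → t ≤ v → 0 ≤ -Y (-t) ∧ -Y (-t) ≤ g1 ∧ yf (-Y (-t)) = t :=
    fun t h0 h1 => by
      obtain ⟨h2, h3, h4⟩ := Yran (-t) (by linarith) (by linarith)
      exact ⟨by linarith, by linarith, by linarith⟩
  refine ⟨fun t => -Y (-t), by fun_prop, fun t ht => ?_, ?_, ?_, ?_, ?_, ?_⟩
  · simp only
    rw [Ytop (-t) (by linarith), neg_zero]
  · refine ⟨convex_Icc _ _, fun x _ y _ p q hp hq hpq => ?_⟩
    have h := Yconc.2 (mem_univ (-x)) (mem_univ (-y)) hp hq hpq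
    simp only [smul_eq_mul] at h ⊢
    have e : -(p * x + q * y) = p * -x + q * -y := by ring
    rw [e]
    linarith
  · intro s t hs hst ht
    obtain ⟨h1, h2⟩ := Ysl (-t) (-s) (by linarith)
    simp only
    constructor
    · obtain ⟨_, _, h3⟩ := Gran s hs (hst.trans ht)
      obtain ⟨_, _, h4⟩ := Gran t (hs.trans hst) ht
      have h5 := (ysl (-Y (-s)) (-Y (-t)) (by linarith)).2
      rw [h3, h4] at h5
      have hpos : (0 : ℝ) < n0 + 1000 * K := by positivity
      rw [div_mul_eq_mul_div, div_le_iff₀ hpos]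
      rw [div_mul_eq_mul_div, le_div_iff₀ hE] at h5
      linarith
    · have e : (-s - -t) / (n0 / E) = E / n0 * (t - s) := by
        field_simp
        ring
      linarith
  · have := Ginv 1 (by norm_num) hg11
    rw [y1] at this
    exact this
  · intro t h0 h1
    obtain ⟨h2, h3, h4⟩ := Gran t h0 h1
    simp only
    generalize -Y (-t) = g at h2 h3 h4
    have hsum : ∑ i : Fin K, max (1 - g / (1 - 1 / 2 ^ (i.1 + 1))) 0 = S g := by
      rw [hS]
      rfl
    rw [hsum, div_one]
    have h5 : E * (1 - t) = n0 * (1 - g) + 500 * S g := by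
      rw [← h4, hyf]
      field_simp
      ring
    rcases le_total g 1 with hg | hg
    · have h6 : 0 ≤ E * (1 - t) := by
        rw [h5]
        have := S0 g
        have : 0 ≤ (n0 : ℝ) * (1 - g) := mul_nonneg hn.le (by linarith)
        linarith
      have h7 : 0 ≤ 1 - t := by
        by_contra hc
        have : E * (1 - t) < 0 := mul_neg_of_pos_of_neg hE (by linarith)
        linarith
      rw [max_eq_left (by linarith), max_eq_left h7, h5]
    · have h6 : E * (1 - t) ≤ 0 := by
        rw [h5, S1 g hg]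
        have : (n0 : ℝ) * (1 - g) ≤ 0 := mul_nonpos_of_nonneg_of_nonpos hn.le (by linarith)
        linarith
      have h7 : 1 - t ≤ 0 := by
        by_contra hc
        have : 0 < E * (1 - t) := mul_pos hE (by linarith)
        linarith
      rw [max_eq_right (by linarith), max_eq_right h7, S1 g hg]
      simp
  · intro i
    have h0 := topV_pos i.1
    have h1 := topV_lt i.1
    have hV : 1 - topV i.1 = 1 / 2 ^ (i.1 + 1) := by
      unfold topV
      ring
    have hb : 1 - yf (topV i.1) = (n0 * (1 - topV i.1) + 500 * S (topV i.1)) / E := by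
      rw [hyf]
      ring
    refine ⟨yf (topV i.1), ?_, Ginv _ h0.le (by linarith), ?_, ?_⟩
    · have := (ysl 0 (topV i.1) h0.le).1
      have : 0 ≤ n0 / E * (topV i.1 - 0) := mul_nonneg (div_pos hn hE).le (by linarith)
      linarith
    · rw [hb, div_right_comm, div_eq_mul_one_div (n0 : ℝ), ← hV]
      apply div_le_div_of_nonneg_right _ hE.le
      have := S0 (topV i.1)
      linarith
    · rw [hb, div_right_comm, div_eq_mul_one_div ((n0 : ℝ) + 500 * K), ← hV]
      apply div_le_div_of_nonneg_right _ hE.le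
      have := Sle (topV i.1) h0.le h1.le
      linarith

end Pool.Agent.P.MP_8707bd_ag.Nag
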