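import Mathlib
import Pool.Agent.P.MP_8707bd_ag.Nag.Defs

/-!
Small real-variable lemmas for the assembly of the whole covering (helper file only).
-/

namespace Pool.Agent.P.MP_8707bd_ag.Nag

open Set

theorem wa_affine (A B : ℝ) {s : Set ℝ} (hs : Convex ℝ s) :
    ConvexOn ℝ s (fun t => A * t + B) := by
  refine ⟨hs, fun x _ y _ a b _ _ hab => ?_⟩
  simp only [smul_eq_mul]
  have : b = 1 - a := by linarith
  subst this
  apply le_of_eq
  ring

theorem wa_max (A B : ℝ) {s : Set ℝ} (hs : Convex ℝ s) :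
    ConvexOn ℝ s (fun t => max (A * t + B) 0) :=
  (wa_affine A B hs).sup (convexOn_const 0 hs)

theorem wa_mul {s : Set ℝ} {f : ℝ → ℝ} {c : ℝ} (hc : 0 ≤ c) (hf : ConvexOn ℝ s f) :
    ConvexOn ℝ s (fun t => c * f t) := hf.smul hc

theorem wa_add {s : Set ℝ} {f g : ℝ → ℝ} (hf : ConvexOn ℝ s f) (hg : ConvexOn ℝ s g) :
    ConvexOn ℝ s (fun t => f t + g t) := hf.add hg

theorem wa_sum {ι : Type} {s : Set ℝ} (hs : Convex ℝ s) (T : Finset ι) {f : ι → ℝ → ℝ}
    (hf : ∀ i ∈ T, ConvexOn ℝ s (f i)) : ConvexOn ℝ s (fun t => ∑ i ∈ T, f i t) := by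
  classical
  induction T using Finset.induction_on with
  | empty => simpa using convexOn_const (0 : ℝ) hs
  | insert i T hi ih =>
    simp only [Finset.sum_insert hi]
    exact wa_add (hf i (Finset.mem_insert_self _ _))
      (ih fun k hk => hf k (Finset.mem_insert_of_mem hk))

/-- adding the kink back -/
theorem wa_kink {s : Set ℝ} {c : ℝ → ℝ} {β : ℝ}
    (h : ConvexOn ℝ s (fun t => c t - max (t - β) 0)) : ConvexOn ℝ s c := by
  refine (wa_add h (wa_max 1 (-β) h.1)).congr fun t _ => ?_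
  simp only [one_mul, ← sub_eq_add_neg]
  ring

theorem wa_slope_ext {c : ℝ → ℝ} {β a lo hi H : ℝ} (h0 : ∀ t, t ≤ β → c t = 0)
    (hs : Slope c β a lo hi) (hlo : 0 ≤ lo) (hhi : hi ≤ H) (hH : 0 ≤ H) (u : ℝ) :
    Slope c u a 0 H := by
  intro s t _ hst hta
  have hts : 0 ≤ t - s := by linarith
  rcases le_total t β with h1 | h1
  · rw [h0 t h1, h0 s (hst.trans h1)]
    constructor
    · simp
    · simpa using mul_nonneg hH hts
  · rcases le_total s β with h2 | h2
    · obtain ⟨h3, h4⟩ := hs β t le_rfl h1 hta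
      rw [h0 s h2]
      rw [h0 β le_rfl] at h3 h4
      have h5 : 0 ≤ t - β := by linarith
      constructor
      · nlinarith [mul_nonneg hlo h5]
      · nlinarith [mul_le_mul_of_nonneg_right hhi h5, mul_nonneg hH (sub_nonneg.2 h2)]
    · obtain ⟨h3, h4⟩ := hs s t h2 hst hta
      constructor
      · nlinarith [mul_nonneg hlo hts]
      · nlinarith [mul_le_mul_of_nonneg_right hhi hts]

theorem wa_slope_sum {K : ℕ} {c : Fin K → ℝ → ℝ} {u a H : ℝ} (h : ∀ i, Slope (c i) u a 0 H) :
    Slope (fun t => ∑ i, c i t) u a 0 (K * H) := by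
  intro s t hs hst hta
  rw [← Finset.sum_sub_distrib]
  constructor
  · rw [zero_mul]
    refine Finset.sum_nonneg fun i _ => ?_
    have := (h i s t hs hst hta).1
    rwa [zero_mul] at this
  · calc ∑ i, (c i t - c i s) ≤ ∑ _i : Fin K, H * (t - s) :=
          Finset.sum_le_sum fun i _ => (h i s t hs hst hta).2
      _ = K * H * (t - s) := by
          simp only [Finset.sum_const, Finset.card_univ, Fintype.card_fin, nsmul_eq_mul]
          ring

theorem wa_int_one_sub (x y : ℝ) : ∫ t in x..y, (1 - t) = ((1 - x) ^ 2 - (1 - y) ^ 2) / 2 := by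
  rw [intervalIntegral.integral_sub (by simp) (by simp)]
  simp only [intervalIntegral.integral_const, smul_eq_mul, integral_id]
  ring

/-- the integral of a tent side -/
theorem wa_int_max {w x y : ℝ} (hx : x ≤ w) (hy : w ≤ y) :
    ∫ t in x..y, max (w - t) 0 = (w - x) ^ 2 / 2 := by
  have hc : Continuous fun t : ℝ => max (w - t) 0 := by fun_prop
  rw [← intervalIntegral.integral_add_adjacent_intervals (b := w)
    (hc.intervalIntegrable _ _) (hc.intervalIntegrable _ _)]
  have h1 : ∫ t in x..w, max (w - t) 0 = ∫ t in x..w, (w - t) := by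
    refine intervalIntegral.integral_congr fun t ht => ?_
    rw [uIcc_of_le hx] at ht
    exact max_eq_left (by linarith [ht.2])
  have h2 : ∫ t in w..y, max (w - t) 0 = ∫ t in w..y, (0 : ℝ) := by
    refine intervalIntegral.integral_congr fun t ht => ?_
    rw [uIcc_of_le hy] at ht
    exact max_eq_right (by linarith [ht.1])
  rw [h1, h2, intervalIntegral.integral_sub (by simp) (by simp)]
  simp only [intervalIntegral.integral_const, smul_eq_mul, integral_id]
  ring

/-- the dyadic family of kinks meets every window `[t/3, t]` -/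
theorem wa_omega {K : ℕ} (hK : 1 ≤ K) (ω : Fin K → ℝ)
    (h1 : ∀ i, 49989 / 100000 / 2 ^ (i.1 + 1) ≤ ω i)
    (h2 : ∀ i, ω i ≤ 50001 / 100000 / 2 ^ (i.1 + 1)) (t : ℝ) (ht1 : 1 / 2 ^ K ≤ t)
    (ht2 : t ≤ 3 / 5) : ∃ i, t / 3 ≤ ω i ∧ ω i ≤ t := by
  classical
  have hex : ∃ i : ℕ, (50001 / 100000 / 2 ^ (i + 1) : ℝ) ≤ t := by
    refine ⟨K - 1, ?_⟩
    rw [Nat.sub_add_cancel hK]
    refine le_trans ?_ ht1
    gcongr
    norm_num
  have hle : Nat.find hex ≤ K - 1 := by
    apply Nat.find_min'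
    rw [Nat.sub_add_cancel hK]
    refine le_trans ?_ ht1
    gcongr
    norm_num
  have hlt : Nat.find hex < K := by omega
  refine ⟨⟨Nat.find hex, hlt⟩, ?_, (h2 _).trans (Nat.find_spec hex)⟩
  refine le_trans ?_ (h1 _)
  simp only
  rcases Nat.eq_zero_or_pos (Nat.find hex) with h0 | h0
  · rw [h0]
    norm_num
    linarith
  · obtain ⟨k, hk⟩ : ∃ k, Nat.find hex = k + 1 := ⟨Nat.find hex - 1, by omega⟩
    have hmin := Nat.find_min hex (m := k) (by omega)
    rw [hk]
    push Not at hmin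
    have hpos : (0 : ℝ) < 2 ^ (k + 1) := by positivity
    rw [pow_succ 2 (k + 1), ← div_div, div_right_comm]
    have e1 : (50001 / 100000 / 2 ^ (k + 1) : ℝ) = 50001 / 100000 * (1 / 2 ^ (k + 1)) := by ring
    have e2 : (49989 / 100000 / 2 / 2 ^ (k + 1) : ℝ) = 49989 / 200000 * (1 / 2 ^ (k + 1)) := by
      ring
    rw [e1] at hmin
    rw [e2]
    have : (0 : ℝ) < 1 / 2 ^ (k + 1) := by positivity
    linarith

end Pool.Agent.P.MP_8707bd_ag.Nag
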