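import Pool.Agent.P.MP_8707bd_ag.Nag.WholeA
import Pool.Agent.P.MP_8707bd_ag.Nag.Lift
import Pool.Agent.P.MP_8707bd_ag.Nag.Top
import Pool.Agent.P.MP_8707bd_ag.Nag.TopT

/-!
The top layer of the whole covering (helper file only).
-/

namespace Pool.Agent.P.MP_8707bd_ag.Nag

open Set

theorem topData {E p v a : ℝ} {n0 K : ℕ} (hE : 10 ^ 10 ≤ E) (hp1 : 1 / 2 ≤ p)
    (hK1 : 1 ≤ K) (hK2 : 5 * 10 ^ 6 * (K : ℝ) ≤ E) (hv : 1 ≤ v)
    (ha : a = 1 - (n0 + 500 * K) / E) (hpa : 1 - p ≤ a)
    (hn1 : 49989 / 100000 * E ≤ n0) (hn2 : (n0 : ℝ) + 500 * K ≤ 50001 / 100000 * E) :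
    ∃ (CT : ℝ → ℝ) (Ω : Set ℝ), Continuous CT ∧ CT (-p) = 0 ∧ CT a = n0 + 500 * K ∧
      Slope CT 0 a (9992 / 10000 * E) (10008 / 10000 * E) ∧
      Slope CT (-p) 0 0 (21 / 100000 * E) ∧ ConvexOn ℝ (Iic a) CT ∧
      (∀ ω ∈ Ω, ConvexOn ℝ (Iic a) fun s => CT s - 600 * max s 0 - 500 * max (s + ω) 0) ∧
      (∀ t, 1 / 2 ^ K ≤ t → t ≤ 3 / 5 → ∃ ω ∈ Ω, t / 3 ≤ ω ∧ ω ≤ t) ∧
      (∫ t in (-p)..a, CT t) = (n0 + 500 * K) / 2 - E * (1 - a) ^ 2 / 2 ∧
      ∀ (N : ℕ) (e : ℝ), 0 ≤ e → Cov p (-p) a N (fun y => E * (1 - y) - CT y) e →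
        CovTop p (-p) v (N + (n0 + 500 * K)) (fun t => E * max (1 - t) 0) e 1 := by
  have hE0 : 0 < E := by linarith [show (0 : ℝ) < 10 ^ 10 by norm_num]
  have hK0 : (0 : ℝ) ≤ K := Nat.cast_nonneg K
  have hn0R : (0 : ℝ) < n0 := by linarith
  have hn0 : 0 < n0 := by exact_mod_cast hn0R
  obtain ⟨G, hGc, hG0, hGconv, hGs, hG1, hGid, hb⟩ := topT hE0 hn0 ha hv
  choose b hba hbG hb1 hb2 using hb
  set s1 : ℝ := E / (n0 + 1000 * K) with hs1
  set s2 : ℝ := E / n0 with hs2
  have hs1l : 19995 / 10000 ≤ s1 := by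
    rw [hs1, le_div_iff₀ (by linarith)]
    linarith
  have hs2l : 19995 / 10000 ≤ s2 := by
    rw [hs2, le_div_iff₀ (by linarith)]
    linarith
  have hs2u : s2 ≤ 2001 / 1000 := by
    rw [hs2, div_le_iff₀ (by linarith)]
    linarith
  have hq : (n0 + 500 * K : ℝ) / E ≤ 50001 / 100000 := by
    rw [div_le_iff₀ hE0]
    linarith
  have hq0 : 49989 / 100000 ≤ (n0 : ℝ) / E := by
    rw [le_div_iff₀ hE0]
    linarith
  have hq1 : 0 ≤ (n0 + 500 * K : ℝ) / E := by positivity
  have ha1 : a ≤ 1 := by linarith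
  have hav : a ≤ v := ha1.trans hv
  have ha0 : 0 ≤ a := by linarith
  have hEq : E * (1 - a) = n0 + 500 * K := by
    rw [ha]
    field_simp
    ring
  -- the kinks
  have hV : ∀ i : Fin K, (1 / 2 ^ (i.1 + 1) : ℝ) ≤ 1 / 2 ∧ (0 : ℝ) < 1 / 2 ^ (i.1 + 1) := by
    intro i
    refine ⟨?_, by positivity⟩
    have : (2 : ℝ) ^ 1 ≤ 2 ^ (i.1 + 1) := pow_le_pow_right₀ (by norm_num) (by omega)
    apply one_div_le_one_div_of_le (by norm_num)
    simpa using this
  have hω1 : ∀ i : Fin K, 49989 / 100000 / 2 ^ (i.1 + 1) ≤ 1 - b i := fun i =>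
    le_trans (by gcongr) (hb1 i)
  have hω2 : ∀ i : Fin K, 1 - b i ≤ 50001 / 100000 / 2 ^ (i.1 + 1) := fun i =>
    le_trans (hb2 i) (by gcongr)
  have hble : ∀ i : Fin K, b i ≤ 1 := fun i => by
    have : (0 : ℝ) ≤ 49989 / 100000 / 2 ^ (i.1 + 1) := by positivity
    linarith [hω1 i]
  have hbge : ∀ i : Fin K, -p ≤ b i - 1 := fun i => by
    have h1 := hω2 i
    have h2 : (50001 / 100000 / 2 ^ (i.1 + 1) : ℝ) = 50001 / 100000 * (1 / 2 ^ (i.1 + 1)) := by
      ring
    rw [h2] at h1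
    linarith [(hV i).1]
  obtain ⟨c0, h0c, -, h0ch, h0r, h0l, h0k, h0s, h0i, h0m⟩ :=
    top (u := -p) (V := 1) (b := 1) hGc hG0 hGconv hGs one_pos (by linarith) ha1 hv hG1
      (by linarith)
  have hci : ∀ i : Fin K, _ := fun i =>
    top (u := -p) (V := 1 - 1 / 2 ^ (i.1 + 1)) (b := b i) hGc hG0 hGconv hGs
      (by linarith [(hV i).1]) (by linarith [(hV i).2]) (hba i) ((hble i).trans hv) (hbG i)
      (hbge i)
  choose c hcc _hcb hcch hcr hcl hck hcs hcint hcm using hci
  have hhi : ∀ V : ℝ, V ≤ 1 → s1 / (s1 - V) ≤ 2001 / 1000 := fun V hV1 => by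
    rw [div_le_iff₀ (by linarith)]
    linarith
  have hlo : ∀ V : ℝ, V ≤ 1 → 0 ≤ s2 / (s2 - V) := fun V hV1 =>
    div_nonneg (by linarith) (by linarith)
  have hlo0 : 1999 / 1000 ≤ s2 / (s2 - 1) := by
    rw [le_div_iff₀ (by linarith)]
    linarith
  have hcs' : ∀ (i : Fin K) (u : ℝ), Slope (c i) u a 0 (2001 / 1000) := fun i u =>
    wa_slope_ext (hcl i) (hcs i) (hlo _ (by linarith [(hV i).2]))
      (hhi _ (by linarith [(hV i).2])) (by norm_num) u
  have hsum : ∀ u : ℝ, Slope (fun t => ∑ i, c i t) u a 0 (K * (2001 / 1000)) := fun u =>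
    wa_slope_sum fun i => hcs' i u
  have hcconv : ∀ i : Fin K, ConvexOn ℝ (Iic a) (c i) := fun i => wa_kink (hck i)
  have hid : ∀ t, a ≤ t → t ≤ v → n0 * c0 t + 500 * ∑ i, c i t = E * max (1 - t) 0 := by
    intro t h1 h2
    rw [← hGid t h1 h2, h0r t h1, Finset.sum_congr rfl fun i _ => hcr i t h1]
  have hsc : Continuous fun t => ∑ i, c i t := continuous_finset_sum _ fun i _ => hcc i
  have hCT : Continuous fun t => n0 * c0 t + 500 * ∑ i, c i t := by fun_prop
  have hGpos : ∀ s t, a ≤ s → s < t → t ≤ v → G s < G t := by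
    intro s t h1 h2 h3
    have := (hGs s t h1 h2.le h3).1
    nlinarith [mul_pos (show 0 < s1 by linarith) (sub_pos.2 h2)]
  refine ⟨fun t => n0 * c0 t + 500 * ∑ i, c i t, range fun i => 1 - b i, hCT, ?_, ?_, ?_, ?_, ?_,
    ?_, ?_, ?_, ?_⟩
  · simp only
    rw [h0l (-p) (by linarith), Finset.sum_eq_zero fun i _ => hcl i (-p) (hbge i)]
    ring
  · simp only
    rw [hid a le_rfl hav, max_eq_left (by linarith), hEq]
  · intro s t hs hst hta
    obtain ⟨h1, h2⟩ := h0s s t (by linarith) hst hta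
    obtain ⟨h3, h4⟩ := hsum s s t le_rfl hst hta
    have hts : 0 ≤ t - s := by linarith
    have h5 : 1999 / 1000 * (t - s) ≤ c0 t - c0 s :=
      le_trans (mul_le_mul_of_nonneg_right hlo0 hts) h1
    have h6 : c0 t - c0 s ≤ 2001 / 1000 * (t - s) :=
      le_trans h2 (mul_le_mul_of_nonneg_right (hhi 1 le_rfl) hts)
    have h7 := mul_le_mul_of_nonneg_left h5 hn0R.le
    have h8 := mul_le_mul_of_nonneg_left h6 hn0R.le
    have h9 := mul_le_mul_of_nonneg_right hn1 hts
    have h10 := mul_le_mul_of_nonneg_right hn2 hts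
    have h11 := mul_le_mul_of_nonneg_right hK2 hts
    have h12 := mul_nonneg hE0.le hts
    simp only at h3 h4 ⊢
    constructor
    · linarith
    · linarith
  · intro s t hs hst ht0
    obtain ⟨h3, h4⟩ := hsum s s t le_rfl hst (ht0.trans ha0)
    have hts : 0 ≤ t - s := by linarith
    have h11 := mul_le_mul_of_nonneg_right hK2 hts
    have h12 := mul_nonneg hE0.le hts
    simp only at h3 h4 ⊢
    rw [h0l t (by linarith), h0l s (by linarith)]
    constructor
    · linarith
    · linarith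
  · exact wa_add (wa_mul hn0R.le (wa_kink h0k))
      (wa_mul (by norm_num) (wa_sum (convex_Iic a) _ fun i _ => hcconv i))
  · classical
    rintro ω ⟨i, rfl⟩
    have h600 : (0 : ℝ) ≤ n0 - 600 := by linarith
    have h1 := wa_add (wa_add (wa_mul hn0R.le h0k) (wa_mul h600 (wa_max 1 0 (convex_Iic a))))
      (wa_mul (c := 500) (by norm_num) (wa_add (hck i)
        (wa_sum (convex_Iic a) (Finset.univ.erase i) fun k _ => hcconv k)))
    refine h1.congr fun s _ => ?_
    simp only
    rw [← Finset.add_sum_erase Finset.univ (fun k => c k s) (Finset.mem_univ i)]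
    have e1 : s - (1 - 1) = s := by ring
    have e2 : 1 * s + 0 = s := by ring
    have e3 : s - (b i - 1) = s + (1 - b i) := by ring
    rw [e1, e2, e3]
    ring
  · intro t h1 h2
    obtain ⟨i, hi⟩ := wa_omega hK1 (fun i => 1 - b i) hω1 hω2 t h1 h2
    exact ⟨1 - b i, ⟨i, rfl⟩, hi⟩
  · have hall : (∫ t in (-p)..v, (n0 * c0 t + 500 * ∑ i, c i t)) = (n0 + 500 * K) / 2 := by
      rw [intervalIntegral.integral_add ((by fun_prop : Continuous fun t => n0 * c0 t).intervalIntegrable _ _)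
        ((by fun_prop : Continuous fun t => 500 * ∑ i, c i t).intervalIntegrable _ _),
        intervalIntegral.integral_const_mul, intervalIntegral.integral_const_mul,
        intervalIntegral.integral_finset_sum fun i _ => (hcc i).intervalIntegrable _ _, h0i,
        Finset.sum_congr rfl fun i _ => hcint i]
      simp only [Finset.sum_const, Finset.card_univ, Fintype.card_fin, nsmul_eq_mul]
      ring
    have hright : (∫ t in a..v, (n0 * c0 t + 500 * ∑ i, c i t)) = E * ((1 - a) ^ 2 / 2) := by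
      rw [← wa_int_max ha1 hv, ← intervalIntegral.integral_const_mul]
      refine intervalIntegral.integral_congr fun t ht => ?_
      rw [uIcc_of_le hav] at ht
      exact hid t ht.1 ht.2
    have hadd := intervalIntegral.integral_add_adjacent_intervals (μ := MeasureTheory.volume)
      (a := -p) (b := a) (c := v) (hCT.intervalIntegrable _ _) (hCT.intervalIntegrable _ _)
    simp only at hadd ⊢
    rw [hall, hright] at hadd
    linarith
  · intro N e he inner
    have hsumι : ∀ y, ∑ i : Fin n0 ⊕ Fin K × Fin 500, Sum.elim (fun _ => c0) (fun k => c k.1) i y =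
        n0 * c0 y + 500 * ∑ i, c i y := by
      intro y
      rw [Fintype.sum_sum_type, Fintype.sum_prod_type]
      simp only [Sum.elim_inl, Sum.elim_inr, Finset.sum_const, Finset.card_univ, Fintype.card_fin,
        nsmul_eq_mul, Finset.mul_sum]
      norm_num
    have key := lift_top (ι := Fin n0 ⊕ Fin K × Fin 500) (n := N + (n0 + 500 * K)) (u0 := -p)
      (v0 := v) (w := 1) (h := fun t => E * max (1 - t) 0) (e' := 0) inner
      (by simp only [Fintype.card_sum, Fintype.card_prod, Fintype.card_fin]; ring)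
      le_rfl le_rfl hav he le_rfl G (fun t _ h => hG0 t h)
      (fun t h1 h2 h3 => by
        rcases h3 with h3 | h3
        · exact absurd h1 (not_le.2 h3)
        · have := hGpos a t le_rfl h3 h2
          rwa [hG0 a le_rfl] at this)
      (Sum.elim (fun _ => -1) (fun k => -(1 - 1 / 2 ^ (k.1.1 + 1))))
      (Sum.elim (fun _ => c0) (fun k => c k.1))
      (fun i y h1 h2 => by
        rcases i with i | i
        · exact h0ch y h1 h2
        · exact hcch i.1 y h1 h2)
      (fun _ => 0)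
      (fun y h1 h2 h3 => by
        rcases h3 with h3 | h3
        · exact absurd h1 (not_le.2 h3)
        · refine ⟨le_rfl, -p, 1 - p, le_rfl, by linarith, by ring, fun t _ ht => ?_, Or.inl rfl⟩
          have := hGpos a y le_rfl h3 h2
          rw [hG0 a le_rfl] at this
          rwa [hG0 t (by linarith)])
      (fun y _ h2 => by
        rw [hsumι, max_eq_left (by linarith)]
        simp)
      (fun y h1 h2 h3 => by
        rcases h3 with h3 | h3
        · exact absurd h1 (not_le.2 h3)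
        · rw [hsumι, hid y h3.le h2]
          simp)
      ha1
      (fun y h1 h2 => by
        refine ⟨by linarith, fun t h3 h4 => ⟨?_, fun i => ?_⟩⟩
        · rcases le_total t a with h5 | h5
          · have := hGpos a y le_rfl (by linarith) h2
            rw [hG0 a le_rfl] at this
            rwa [hG0 t h5]
          · exact hGpos t y h5 h4 h2
        · rcases i with i | i
          · exact h0m t y (by linarith) h4 h1.le h2
          · exact hcm i.1 t y (by linarith [hble i.1]) h4 (by linarith [hble i.1]) h2)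
    rwa [add_zero] at key

end Pool.Agent.P.MP_8707bd_ag.Nag
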